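import Pool.Agent.H17.GP.RlD
import Mathlib.MeasureTheory.Constructions.Polish.Basic

/-!
# Analytic sets and countable transitive models

An analytic set `A` of reals (in the sense of Mathlib) has a code `a` (`exists_code`).  If `a` is in the model then
the model is correct about `A`: it contains witnesses (`exists_mem_of_code`), membership in `A` is definable over the
model (`Dfn.mem_code`), and the model is closed under Borel functions whose graph is coded (`exists_code_fun`).
-/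

set_option autoImplicit false
set_option linter.unusedVariables false
set_option linter.unusedSectionVars false

universe u v w

namespace Pool.Agent.H17.GP

open MeasureTheory

/-- Two reals as one. -/
def jn (x y : ℕ → ℕ) : ℕ → ℕ := fun n => Nat.pair (x n) (y n)

def fstR (z : ℕ → ℕ) : ℕ → ℕ := fun n => (z n).unpair.1

def sndR (z : ℕ → ℕ) : ℕ → ℕ := fun n => (z n).unpair.2

@[simp] theorem fstR_jn (x y : ℕ → ℕ) : fstR (jn x y) = x := by
  funext n; simp [fstR, jn]

@[simp] theorem sndR_jn (x y : ℕ → ℕ) : sndR (jn x y) = y := by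
  funext n; simp [sndR, jn]

@[simp] theorem jn_fst_snd (z : ℕ → ℕ) : jn (fstR z) (sndR z) = z := by
  funext n; simp [fstR, sndR, jn]

theorem continuous_fstR : Continuous fstR :=
  continuous_pi fun n => (continuous_of_discreteTopology (f := fun k : ℕ => k.unpair.1)).comp
    (continuous_apply n)

theorem continuous_sndR : Continuous sndR :=
  continuous_pi fun n => (continuous_of_discreteTopology (f := fun k : ℕ => k.unpair.2)).comp
    (continuous_apply n)

theorem measurable_fstR : Measurable fstR := continuous_fstR.measurable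

theorem measurable_sndR : Measurable sndR := continuous_sndR.measurable

/-- `a` is a code of the analytic set `A`. -/
def Code (a : ℕ → ℕ) (A : Set (ℕ → ℕ)) : Prop :=
  ∀ x, x ∈ A ↔ ∃ q : ℕ → ℕ, ∀ n, a (Nat.pair (ini x n) (ini q n)) ≠ 0

theorem ini_eq_iff {x y : ℕ → ℕ} {n : ℕ} : ini x n = ini y n ↔ ∀ i < n, x i = y i :=
  ⟨fun h => (ini_inj h).2, fun h => ini_congr h⟩

theorem tendsto_of_ini {x : ℕ → ℕ} {s : ℕ → ℕ → ℕ} (h : ∀ n, ∀ i < n, s n i = x i) :
    Filter.Tendsto s Filter.atTop (nhds x) := by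
  rw [tendsto_pi_nhds]
  intro i
  refine tendsto_const_nhds.congr' ?_
  filter_upwards [Filter.eventually_gt_atTop i] with n hn
  exact (h n i hn).symm

theorem exists_code {A : Set (ℕ → ℕ)} (hA : AnalyticSet A) : ∃ a, Code a A := by
  classical
  rw [AnalyticSet] at hA
  rcases hA with rfl | ⟨f, hf, rfl⟩
  · exact ⟨fun _ => 0, fun x => by simp⟩
  · refine ⟨fun t => if ∃ q : ℕ → ℕ, ∃ n, ini q n = t.unpair.2 ∧ ini (f q) n = t.unpair.1 then 1 else 0,
      fun x => ?_⟩
    constructor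
    · rintro ⟨q, rfl⟩
      refine ⟨q, fun n => ?_⟩
      beta_reduce
      rw [if_pos]
      · exact one_ne_zero
      · exact ⟨q, n, by rw [Nat.unpair_pair], by rw [Nat.unpair_pair]⟩
    · rintro ⟨q, hq⟩
      have h1 : ∀ n, ∃ p : ℕ → ℕ, (∀ i < n, p i = q i) ∧ ∀ i < n, f p i = x i := by
        intro n
        have h2 := hq n
        beta_reduce at h2
        obtain ⟨p, m, h4, h5⟩ : ∃ p m, ini p m = (Nat.pair (ini x n) (ini q n)).unpair.2 ∧
            ini (f p) m = (Nat.pair (ini x n) (ini q n)).unpair.1 := by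
          by_contra h3
          rw [if_neg h3] at h2
          exact h2 rfl
        rw [Nat.unpair_pair] at h4 h5
        have h6 := (ini_inj h4).1
        subst h6
        exact ⟨p, (ini_inj h4).2, (ini_inj h5).2⟩
      choose p hp hp' using h1
      have h2 := tendsto_of_ini hp
      have h3 := tendsto_of_ini hp'
      exact ⟨q, tendsto_nhds_unique ((hf.tendsto q).comp h2) h3⟩

end Pool.Agent.H17.GP

namespace Pool.Agent.H17.Omega

open Pool.Agent.H17.GP MeasureTheory

namespace CTM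

variable {N : Set ZFSet.{u}} {hN : CTM N}

theorem DR.jn {n : ℕ} {f g : (Fin n → N) → ℕ → ℕ} (hf : hN.DR f) (hg : hN.DR g) :
    hN.DR (fun v => Pool.Agent.H17.GP.jn (f v) (g v)) := DN.pair (s := fun v => f (fun i => v i.castSucc)
      (natD (v (Fin.last n)).1)) (t := fun v => g (fun i => v i.castSucc)
      (natD (v (Fin.last n)).1)) hf hg

theorem DR.fstR {n : ℕ} {f : (Fin n → N) → ℕ → ℕ} (hf : hN.DR f) :
    hN.DR (fun v => Pool.Agent.H17.GP.fstR (f v)) := DN.unpair1 (s := fun v => f (fun i => v i.castSucc)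
      (natD (v (Fin.last n)).1)) hf

theorem DR.sndR {n : ℕ} {f : (Fin n → N) → ℕ → ℕ} (hf : hN.DR f) :
    hN.DR (fun v => Pool.Agent.H17.GP.sndR (f v)) := DN.unpair2 (s := fun v => f (fun i => v i.castSucc)
      (natD (v (Fin.last n)).1)) hf

/-- The constant real with value a number term. -/
theorem DR.ofN {n : ℕ} {s : (Fin n → N) → ℕ} (hs : hN.DN s) : hN.DR (fun v _ => s v) :=
  DR.mk hs.lift

/-- Membership in an analytic set coded in the model is definable. -/
theorem Dfn.mem_code {a : ℕ → ℕ} (ha : a ∈ Rl N) {A : Set (ℕ → ℕ)} (hA : Code a A) {n : ℕ}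
    {f : (Fin n → N) → ℕ → ℕ} (hf : hN.DR f) : hN.Dfn (fun v => f v ∈ A) := by
  refine (Dfn.exReal (F := fun v c => a (Nat.pair (ini (f v) (lenN c)) c)) (DR.mk (DN.app (DR.const ha)
    (DN.pair (DN.ini hf.lift (DN.lenN (DN.var _))) (DN.var _))))).congr fun v => ?_
  rw [hA]
  simp only [lenN_ini]

variable (hN)

include hN

theorem jn_mem {x y : ℕ → ℕ} (hx : x ∈ Rl N) (hy : y ∈ Rl N) : jn x y ∈ Rl N :=
  mem_Rl' hN (DR.jn (DR.const hx) (DR.const hy))

theorem fstR_mem {x : ℕ → ℕ} (hx : x ∈ Rl N) : fstR x ∈ Rl N := mem_Rl' hN (DR.fstR (DR.const hx))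

theorem sndR_mem {x : ℕ → ℕ} (hx : x ∈ Rl N) : sndR x ∈ Rl N := mem_Rl' hN (DR.sndR (DR.const hx))

/-- Witnesses in the model. -/
theorem exists_mem_of_code {a : ℕ → ℕ} (ha : a ∈ Rl N) {A : Set (ℕ → ℕ)} (hA : Code a A) {x : ℕ → ℕ}
    (hx : x ∈ Rl N) {y : ℕ → ℕ} (h : jn x y ∈ A) : ∃ y' ∈ Rl N, jn x y' ∈ A := by
  rw [hA] at h
  obtain ⟨q, hq⟩ := h
  have hb : (fun c => a (Nat.pair (ini (fun i => Nat.pair (x i) ((getN c i).unpair.1)) (lenN c))
      (ini (fun i => (getN c i).unpair.2) (lenN c)))) ∈ Rl N := by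
    refine mem_Rl' hN (DR.mk (DN.app (DR.const ha) (DN.pair (DN.ini (DR.mk ?_) (DN.lenN (DN.var _)))
      (DN.ini (DR.mk ?_) (DN.lenN (DN.var _))))))
    · exact DN.pair (DN.app (DR.const hx) (DN.var _)) (DN.unpair1 (DN.getN (DN.var _) (DN.var _)))
    · exact DN.unpair2 (DN.getN (DN.var _) (DN.var _))
  have key : ∀ (p : ℕ → ℕ) (n : ℕ), a (Nat.pair (ini (fun i => Nat.pair (x i)
      ((getN (ini p n) i).unpair.1)) (lenN (ini p n))) (ini (fun i => (getN (ini p n) i).unpair.2)
      (lenN (ini p n)))) = a (Nat.pair (ini (jn x (fstR p)) n) (ini (sndR p) n)) := by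
    intro p n
    rw [lenN_ini]
    congr 2
    · refine ini_congr fun i hi => ?_
      rw [getN_ini hi]; rfl
    · refine ini_congr fun i hi => ?_
      rw [getN_ini hi]; rfl
  obtain ⟨p, hp, _, hp'⟩ := hN.exists_br hb (q := jn y q) 0 (fun n => by
    show a _ ≠ 0
    rw [key, fstR_jn, sndR_jn]; exact hq n)
  refine ⟨fstR p, hN.fstR_mem hp, ?_⟩
  rw [hA]
  refine ⟨sndR p, fun n => ?_⟩
  have := hp' n
  rw [← key]
  exact this

omit hN in
/-- Closure of models under Borel functions. -/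
theorem exists_code_fun {Φ : (ℕ → ℕ) → ℕ → ℕ} (hΦ : Measurable Φ) :
    ∃ a : ℕ → ℕ, ∀ {N : Set ZFSet.{u}}, CTM N → a ∈ Rl N → ∀ x ∈ Rl N, Φ x ∈ Rl N := by
  have h1 : MeasurableSet {t : ℕ → ℕ | Φ (fstR t) = sndR t} :=
    measurableSet_eq_fun (hΦ.comp measurable_fstR) measurable_sndR
  obtain ⟨a, ha⟩ := exists_code h1.analyticSet
  refine ⟨a, fun {N} hN haN x hx => ?_⟩
  obtain ⟨y, hy, h2⟩ := hN.exists_mem_of_code haN ha hx (y := Φ x) (by
    show Φ (fstR (jn x (Φ x))) = sndR (jn x (Φ x))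
    rw [fstR_jn, sndR_jn])
  have h3 : Φ x = y := by
    have h3 : Φ (fstR (jn x y)) = sndR (jn x y) := h2
    rwa [fstR_jn, sndR_jn] at h3
  rw [h3]; exact hy

end CTM

end Pool.Agent.H17.Omega
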