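import Pool.Agent.H17.GP.Itv

/-!
# Covers: from `ω^ω` to `2^ω` and back
-/

set_option autoImplicit false
set_option linter.unusedVariables false
set_option linter.unusedSectionVars false

universe u v w

namespace Pool.Agent.H17.GP

open MeasureTheory Pool.Agent.H19.GP

/-- Code of a binary list. -/
def bitsN (L v : ℕ) : ℕ := Encodable.encode ((bits L v).map (fun b => if b then 1 else 0))

theorem dlB_bitsN (L v : ℕ) : dlB (bitsN L v) = bits L v := by
  rw [dlB, bitsN, dl_encode, List.map_map]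
  conv_rhs => rw [← List.map_id (bits L v)]
  apply List.map_congr_left
  intro b _
  cases b <;> simp

theorem half_ofReal (n : ℕ) : ENNReal.ofReal ((1 / 2) ^ n) = (1 / 2 : ENNReal) ^ n := by
  rw [ENNReal.ofReal_pow (by positivity)]
  congr 1
  rw [ENNReal.ofReal_div_of_pos (by norm_num)]
  simp

theorem sum_le_of_tsum {f : ℕ → ℝ} {C : ℝ} (hf : ∀ i, 0 ≤ f i) (hC : 0 ≤ C)
    (h : ∑' i, ENNReal.ofReal (f i) ≤ ENNReal.ofReal C) (l : ℕ) : ∑ i ∈ Finset.range l, f i ≤ C := by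
  have h1 : ENNReal.ofReal (∑ i ∈ Finset.range l, f i) ≤ ENNReal.ofReal C := by
    rw [ENNReal.ofReal_sum_of_nonneg fun i _ => hf i]
    exact (ENNReal.sum_le_tsum _).trans h
  exact (ENNReal.ofReal_le_ofReal_iff hC).1 h1

theorem tsum_le_of_sum {f : ℕ → ℝ} {C : ℝ} (hf : ∀ i, 0 ≤ f i)
    (h : ∀ l, ∑ i ∈ Finset.range l, f i ≤ C) : ∑' i, ENNReal.ofReal (f i) ≤ ENNReal.ofReal C := by
  rw [ENNReal.tsum_eq_iSup_nat]
  refine iSup_le fun l => ?_
  rw [← ENNReal.ofReal_sum_of_nonneg fun i _ => hf i]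
  exact ENNReal.ofReal_le_ofReal (h l)

theorem tsum_half (k : ℕ) : ∑' i : ℕ, (1 / 2 : ENNReal) ^ (k + i + 1) = (1 / 2) ^ k := by
  have h1 : ∀ i, (1 / 2 : ENNReal) ^ (k + i + 1) = (1 / 2) ^ (k + 1) * (2⁻¹) ^ i := by
    intro i
    rw [show k + i + 1 = (k + 1) + i by ring, pow_add, one_div]
  simp only [h1]
  rw [ENNReal.tsum_mul_left, ENNReal.tsum_geometric, ENNReal.one_sub_inv_two, inv_inv, pow_succ,
    mul_assoc]
  rw [show (1 / 2 : ENNReal) * 2 = 1 by
    rw [one_div]; exact ENNReal.inv_mul_cancel (by norm_num) (by norm_num), mul_one]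

/-- Disjoint dyadic cylinders inside a set. -/
theorem tsum_cyl_le {D : ℕ → ℕ → Prop} [∀ L v, Decidable (D L v)] {U : Set (ℕ → Bool)}
    (hD : ∀ L v, D L v → v < 2 ^ L)
    (hdisj : ∀ y L L', D L (vL L y) → D L' (vL L' y) → L = L')
    (hU : ∀ y L, D L (vL L y) → y ∈ U) :
    ∑' p : ℕ, (if D p.unpair.1 p.unpair.2 then (1 / 2 : ENNReal) ^ p.unpair.1 else 0) ≤ lam U := by
  let E : ℕ → Set (ℕ → Bool) := fun p => {y | D p.unpair.1 p.unpair.2 ∧ vL p.unpair.1 y = p.unpair.2}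
  have h1 : ∀ p, (if D p.unpair.1 p.unpair.2 then (1 / 2 : ENNReal) ^ p.unpair.1 else 0) = lam (E p) := by
    intro p
    split_ifs with h
    · rw [← lam_vL_eq (hD _ _ h)]
      congr 1
      ext y
      exact ⟨fun h2 => ⟨h, h2⟩, fun h2 => h2.2⟩
    · have : E p = ∅ := by
        ext y
        exact ⟨fun h2 => (h h2.1).elim, fun h2 => h2.elim⟩
      rw [this, measure_empty]
  simp only [h1]
  rw [← measure_iUnion]
  · refine measure_mono (Set.iUnion_subset fun p y hy => ?_)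
    obtain ⟨h2, h3⟩ := hy
    rw [← h3] at h2
    exact hU y _ h2
  · intro p q hpq
    rw [Function.onFun, Set.disjoint_left]
    rintro y ⟨h2, h3⟩ ⟨h4, h5⟩
    apply hpq
    rw [← h3] at h2
    rw [← h5] at h4
    have h6 := hdisj y _ _ h2 h4
    rw [← Nat.pair_unpair p, ← Nat.pair_unpair q, ← h3, ← h5, h6]
  · intro p
    by_cases h : D p.unpair.1 p.unpair.2
    · have : E p = {y | vL p.unpair.1 y = p.unpair.2} := by
        ext y; exact ⟨fun h2 => h2.2, fun h2 => ⟨h, h2⟩⟩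
      rw [this]
      exact measurableSet_eq_fun (measurable_vL _) measurable_const
    · have : E p = ∅ := by
        ext y
        exact ⟨fun h2 => (h h2.1).elim, fun h2 => h2.elim⟩
      rw [this]
      exact MeasurableSet.empty

/-- Minimal dyadic intervals inside `(a, b)`. -/
def DI (a b : ℝ) (L v : ℕ) : Prop := v < 2 ^ L ∧ InI a b L v ∧ ¬ (0 < L ∧ InI a b (L - 1) (v / 2))

theorem vL_half (L : ℕ) (y : ℕ → Bool) (hL : 0 < L) : vL L y / 2 = vL (L - 1) y := by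
  obtain ⟨k, rfl⟩ := Nat.exists_eq_succ_of_ne_zero hL.ne'
  rw [vL, Nat.succ_sub_one]
  split_ifs <;> omega

theorem DI_disj {a b : ℝ} (y : ℕ → Bool) (L L' : ℕ) (h : DI a b L (vL L y)) (h' : DI a b L' (vL L' y)) :
    L = L' := by
  have key : ∀ L L', L < L' → DI a b L (vL L y) → DI a b L' (vL L' y) → False := by
    intro L L' hlt h h'
    refine h'.2.2 ⟨by omega, ?_⟩
    rw [vL_half L' y (by omega)]
    exact inI_mono (by omega) h.2.1
  rcases lt_trichotomy L L' with h1 | h1 | h1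
  · exact (key _ _ h1 h h').elim
  · exact h1
  · exact (key _ _ h1 h' h).elim

theorem exists_DI {a b : ℝ} {y : ℕ → Bool} (h : a < rr y ∧ rr y < b) : ∃ L, DI a b L (vL L y) := by
  classical
  have h1 := rr_mem_iff.1 h
  refine ⟨Nat.find h1, vL_lt _ _, Nat.find_spec h1, ?_⟩
  rintro ⟨h2, h3⟩
  rw [vL_half _ y h2] at h3
  exact Nat.find_min h1 (by omega) h3

open Classical in
/-- Cover of the preimage of an open set: from codes `c` (of the measure), `u` to a code. -/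
noncomputable def phi1 (c u : ℕ → ℕ) : ℕ → ℕ := fun t =>
  if DI (lo (Mc c) (dl (u (Nat.pair (t.unpair.1 + 1) t.unpair.2.unpair.1))))
      (hi (Mc c) (dl (u (Nat.pair (t.unpair.1 + 1) t.unpair.2.unpair.1))))
      t.unpair.2.unpair.2.unpair.1 t.unpair.2.unpair.2.unpair.2 then
    bitsN t.unpair.2.unpair.2.unpair.1 t.unpair.2.unpair.2.unpair.2
  else bitsN (t.unpair.1 + t.unpair.2 + 2) 0

theorem phi1_cover {c u : ℕ → ℕ} {k : ℕ} {y : ℕ → Bool} {j : ℕ}
    (h : Mem (Mc c) (dl (u (Nat.pair (k + 1) j))) (rr y)) :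
    ∃ i, ExtB y (dlB (phi1 c u (Nat.pair k i))) := by
  obtain ⟨L, hL⟩ := exists_DI h
  refine ⟨Nat.pair j (Nat.pair L (vL L y)), ?_⟩
  rw [phi1, if_pos]
  · simp only [Nat.unpair_pair]
    rw [dlB_bitsN]
    exact (vL_eq_iff (vL_lt _ _) y).1 rfl
  · simp only [Nat.unpair_pair]
    exact hL

theorem phi1_sum {c u : ℕ → ℕ} (hm : MeasV (Mc c))
    (hu : ∀ k l, ∑ j ∈ Finset.range l, Mc c (dl (u (Nat.pair k j))) ≤ (1 / 2) ^ k) (k l : ℕ) :
    ∑ i ∈ Finset.range l, (1 / 2 : ℝ) ^ (dlB (phi1 c u (Nat.pair k i))).length ≤ (1 / 2) ^ k := by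
  classical
  refine sum_le_of_tsum (fun i => by positivity) (by positivity) ?_ l
  let s : ℕ → List ℕ := fun j => dl (u (Nat.pair (k + 1) j))
  let g : ℕ → ENNReal := fun i => if DI (lo (Mc c) (s i.unpair.1)) (hi (Mc c) (s i.unpair.1))
    i.unpair.2.unpair.1 i.unpair.2.unpair.2 then (1 / 2) ^ i.unpair.2.unpair.1 else 0
  have h1 : ∀ i, ENNReal.ofReal ((1 / 2) ^ (dlB (phi1 c u (Nat.pair k i))).length) ≤
      g i + (1 / 2) ^ (k + 1 + i + 1) := by
    intro i
    rw [half_ofReal]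
    by_cases h : DI (lo (Mc c) (s i.unpair.1)) (hi (Mc c) (s i.unpair.1))
      i.unpair.2.unpair.1 i.unpair.2.unpair.2
    · rw [phi1, if_pos (by simp only [Nat.unpair_pair]; exact h), dlB_bitsN, bits_length]
      simp only [g, if_pos h, Nat.unpair_pair]
      exact le_self_add
    · rw [phi1, if_neg (by simp only [Nat.unpair_pair]; exact h), dlB_bitsN, bits_length]
      simp only [Nat.unpair_pair]
      rw [show k + 1 + i + 1 = k + i + 2 by ring]
      exact le_add_self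
  have h2 : ∑' i, g i ≤ (1 / 2) ^ (k + 1) := by
    have h3 : ∑' i, g i = ∑' (j : ℕ) (p : ℕ), (if DI (lo (Mc c) (s j)) (hi (Mc c) (s j))
        p.unpair.1 p.unpair.2 then (1 / 2 : ENNReal) ^ p.unpair.1 else 0) := by
      rw [← ENNReal.tsum_prod]
      rw [← Nat.pairEquiv.symm.tsum_eq]
      simp only [g, Nat.pairEquiv_symm_apply]
    rw [h3]
    calc ∑' (j : ℕ) (p : ℕ), (if DI (lo (Mc c) (s j)) (hi (Mc c) (s j))
        p.unpair.1 p.unpair.2 then (1 / 2 : ENNReal) ^ p.unpair.1 else 0)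
        ≤ ∑' j : ℕ, ENNReal.ofReal (Mc c (s j)) := by
          refine ENNReal.tsum_le_tsum fun j => ?_
          rw [← lam_mem hm (s j)]
          exact tsum_cyl_le (fun L v h => h.1) (fun y L L' => DI_disj y L L')
            (fun y L h => rr_mem_iff.2 ⟨L, h.2.1⟩)
      _ ≤ ENNReal.ofReal ((1 / 2) ^ (k + 1)) :=
          tsum_le_of_sum (fun j => hm.nonneg _) (hu (k + 1))
      _ = (1 / 2) ^ (k + 1) := half_ofReal _
  calc ∑' i, ENNReal.ofReal ((1 / 2) ^ (dlB (phi1 c u (Nat.pair k i))).length)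
      ≤ ∑' i, (g i + (1 / 2) ^ (k + 1 + i + 1)) := ENNReal.tsum_le_tsum h1
    _ = ∑' i, g i + ∑' i, (1 / 2) ^ (k + 1 + i + 1) := ENNReal.tsum_add
    _ ≤ (1 / 2) ^ (k + 1) + (1 / 2) ^ (k + 1) := add_le_add h2 (tsum_half (k + 1)).le
    _ = (1 / 2) ^ k := by
        rw [pow_succ, ← mul_add, show (1 / 2 : ENNReal) + 1 / 2 = 1 from ENNReal.add_halves 1, mul_one]
    _ = ENNReal.ofReal ((1 / 2) ^ k) := (half_ofReal k).symm

end Pool.Agent.H17.GP
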