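import Pool.Agent.H17.GP.CovA

/-!
# Covers: measurability, endpoints, and the way back from `2^ω` to `ω^ω`
-/

set_option autoImplicit false
set_option linter.unusedVariables false
set_option linter.unusedSectionVars false

universe u v w

namespace Pool.Agent.H17.GP

open MeasureTheory Pool.Agent.H19.GP

theorem measurable_index {X Y : Type*} [MeasurableSpace X] [MeasurableSpace Y] {f : ℕ → X → Y}
    (hf : ∀ n, Measurable (f n)) {g : X → ℕ} (hg : Measurable g) : Measurable (fun x => f (g x) x) := by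
  have h1 : Measurable (fun p : ℕ × X => f p.1 p.2) := measurable_from_prod_countable_right hf
  exact h1.comp (hg.prodMk measurable_id)

theorem measurableSet_index {X : Type*} [MeasurableSpace X] {P : ℕ → X → Prop}
    (hP : ∀ n, MeasurableSet {x | P n x}) {g : X → ℕ} (hg : Measurable g) :
    MeasurableSet {x | P (g x) x} := by
  have : {x | P (g x) x} = ⋃ n : ℕ, ({x | g x = n} ∩ {x | P n x}) := by
    ext x
    simp only [Set.mem_iUnion, Set.mem_inter_iff, Set.mem_ofPred_eq]
    constructor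
    · intro h; exact ⟨g x, rfl, h⟩
    · rintro ⟨n, h1, h2⟩; rw [h1]; exact h2
  rw [this]
  exact MeasurableSet.iUnion fun n => (measurableSet_eq_fun hg measurable_const).inter (hP n)

theorem measurableSet_DI {X : Type*} [MeasurableSpace X] {a b : X → ℝ} (ha : Measurable a)
    (hb : Measurable b) (L v : ℕ) : MeasurableSet {x | DI (a x) (b x) L v} := by
  have h1 : ∀ L v, MeasurableSet {x | InI (a x) (b x) L v} := fun L v =>
    (measurableSet_lt ha measurable_const).inter (measurableSet_lt measurable_const hb)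
  have h2 : {x | DI (a x) (b x) L v} = {x | v < 2 ^ L} ∩ ({x | InI (a x) (b x) L v} ∩
      ({x | 0 < L} ∩ {x | InI (a x) (b x) (L - 1) (v / 2)})ᶜ) := rfl
  rw [h2]
  exact (MeasurableSet.const _).inter ((h1 L v).inter ((MeasurableSet.const _).inter (h1 _ _)).compl)

theorem measurable_phi1 : Measurable (fun t : ℕ → ℕ => phi1 (fstR t) (sndR t)) := by
  classical
  rw [measurable_pi_iff]
  intro a
  simp only [phi1]
  have h1 : ∀ n, Measurable (fun t : ℕ → ℕ => lo (Mc (fstR t)) (dl n)) := fun n =>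
    (measurable_lo (dl n)).comp measurable_fstR
  have h2 : ∀ n, Measurable (fun t : ℕ → ℕ => hi (Mc (fstR t)) (dl n)) := fun n =>
    (measurable_hi (dl n)).comp measurable_fstR
  have h3 : ∀ n, Measurable (fun t : ℕ → ℕ => sndR t n) := fun n =>
    (measurable_pi_apply n).comp measurable_sndR
  refine Measurable.ite ?_ measurable_const measurable_const
  exact measurableSet_DI (measurable_index h1 (h3 _)) (measurable_index h2 (h3 _)) _ _

/-- Cover of the set of endpoints. -/
noncomputable def phi2 (c : ℕ → ℕ) : ℕ → ℕ := fun t =>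
  bitsN (t.unpair.1 + t.unpair.2 + 1) (⌊(if t.unpair.2.unpair.2.unpair.1 = 0 then
    lo (Mc c) (dl t.unpair.2.unpair.1) else hi (Mc c) (dl t.unpair.2.unpair.1)) *
      2 ^ (t.unpair.1 + t.unpair.2 + 1)⌋₊ - t.unpair.2.unpair.2.unpair.2)

theorem phi2_apply (c : ℕ → ℕ) (k s f d : ℕ) : phi2 c (Nat.pair k (Nat.pair s (Nat.pair f d))) =
    bitsN (k + Nat.pair s (Nat.pair f d) + 1) (⌊(if f = 0 then
    lo (Mc c) (dl s) else hi (Mc c) (dl s)) * 2 ^ (k + Nat.pair s (Nat.pair f d) + 1)⌋₊ - d) := by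
  rw [phi2]
  simp only [Nat.unpair_pair]

theorem phi2_length (c : ℕ → ℕ) (k i : ℕ) : (dlB (phi2 c (Nat.pair k i))).length = k + i + 1 := by
  rw [phi2, dlB_bitsN, bits_length]
  simp only [Nat.unpair_pair]

theorem phi2_sum (c : ℕ → ℕ) (k l : ℕ) :
    ∑ i ∈ Finset.range l, (1 / 2 : ℝ) ^ (dlB (phi2 c (Nat.pair k i))).length ≤ (1 / 2) ^ k := by
  refine sum_le_of_tsum (fun i => by positivity) (by positivity) ?_ l
  simp only [phi2_length, half_ofReal]
  exact (tsum_half k).le

theorem phi2_cover {c : ℕ → ℕ} {y : ℕ → Bool} (h : Bad (Mc c) (rr y)) (k : ℕ) :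
    ∃ i, ExtB y (dlB (phi2 c (Nat.pair k i))) := by
  obtain ⟨s, hs⟩ := h
  obtain ⟨f, hf⟩ : ∃ f : ℕ, (if f = 0 then lo (Mc c) (dl (Encodable.encode s)) else
      hi (Mc c) (dl (Encodable.encode s))) = rr y := by
    rw [dl_encode]
    rcases hs with hs | hs
    · exact ⟨0, by simp [hs]⟩
    · exact ⟨1, by simp [hs]⟩
  let i0 := Nat.pair (Encodable.encode s) (Nat.pair f 0)
  let i1 := Nat.pair (Encodable.encode s) (Nat.pair f 1)
  have hi01 : i0 < i1 := Nat.pair_lt_pair_right _ (Nat.pair_lt_pair_right _ (by norm_num))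
  have hval : ∀ L, ⌊rr y * 2 ^ L⌋₊ = vL L y ∨ rr y = (vL L y + 1) / 2 ^ L := by
    intro L
    have h2 : (0 : ℝ) < 2 ^ L := by positivity
    have h3 := vL_le_rr y L
    have h4 := rr_le_vL y L
    rw [div_le_iff₀ h2] at h3
    rcases h4.eq_or_lt with h5 | h5
    · exact Or.inr h5
    · left
      rw [lt_div_iff₀ h2] at h5
      rw [Nat.floor_eq_iff (by have := rr_nonneg y; positivity)]
      exact ⟨h3, h5⟩
  rcases hval (k + i0 + 1) with h1 | h1
  · refine ⟨i0, ?_⟩
    rw [phi2_apply, hf, dlB_bitsN]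
    show ExtB y (bits (k + i0 + 1) (⌊rr y * 2 ^ (k + i0 + 1)⌋₊ - 0))
    rw [h1, Nat.sub_zero]
    exact (vL_eq_iff (vL_lt _ _) y).1 rfl
  · refine ⟨i1, ?_⟩
    rw [phi2_apply, hf, dlB_bitsN]
    show ExtB y (bits (k + i1 + 1) (⌊rr y * 2 ^ (k + i1 + 1)⌋₊ - 1))
    have h2 : rr y = (vL (k + i1 + 1) y + 1) / 2 ^ (k + i1 + 1) := by
      apply le_antisymm (rr_le_vL y _)
      rw [h1]
      exact vL_anti y (by omega : k + i0 + 1 ≤ k + i1 + 1)
    have h3 : rr y * 2 ^ (k + i1 + 1) = ((vL (k + i1 + 1) y + 1 : ℕ) : ℝ) := by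
      rw [h2]
      push_cast
      field_simp
    rw [h3, Nat.floor_natCast, Nat.add_sub_cancel]
    exact (vL_eq_iff (vL_lt _ _) y).1 rfl

theorem measurable_phi2 : Measurable phi2 := by
  rw [measurable_pi_iff]
  intro a
  simp only [phi2]
  refine (measurable_of_countable (fun n : ℕ => bitsN (a.unpair.1 + a.unpair.2 + 1)
    (n - a.unpair.2.unpair.2.unpair.2))).comp ?_
  refine Nat.measurable_floor.comp (Measurable.mul_const ?_ _)
  by_cases h : a.unpair.2.unpair.2.unpair.1 = 0
  · simp only [h, if_true]; exact measurable_lo _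
  · simp only [h, if_false]; exact measurable_hi _

/-- The complement of two open sets. -/
def Kset (u β : ℕ → ℕ) (k : ℕ) : Set (ℕ → Bool) :=
  {y | (∀ i, ¬ ExtB y (dlB (u (Nat.pair k i)))) ∧ ∀ i, ¬ ExtB y (dlB (β (Nat.pair k i)))}

theorem Kset_eq (u β : ℕ → ℕ) (k : ℕ) : (Kset u β k)ᶜ = (⋃ i, {y | ExtB y (dlB (u (Nat.pair k i)))}) ∪
    ⋃ i, {y | ExtB y (dlB (β (Nat.pair k i)))} := by
  ext y
  simp only [Kset, Set.mem_compl_iff, Set.mem_ofPred_eq, not_and_or, not_forall, not_not, Set.mem_union,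
    Set.mem_iUnion]

theorem isClosed_Kset (u β : ℕ → ℕ) (k : ℕ) : IsClosed (Kset u β k) := by
  rw [← isOpen_compl_iff, Kset_eq]
  exact (isOpen_iUnion fun i => isOpen_extB _).union (isOpen_iUnion fun i => isOpen_extB _)

theorem lam_iUnion_le {u : ℕ → ℕ} {k : ℕ}
    (hu : ∀ l, ∑ i ∈ Finset.range l, (1 / 2 : ℝ) ^ (dlB (u (Nat.pair k i))).length ≤ (1 / 2) ^ k) :
    lam (⋃ i, {y | ExtB y (dlB (u (Nat.pair k i)))}) ≤ (1 / 2) ^ k := by
  refine (measure_iUnion_le _).trans ?_
  simp only [lam_extB]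
  have := tsum_le_of_sum (fun i => by positivity) hu
  simp only [half_ofReal] at this
  exact this

theorem lam_compl_Kset {u β : ℕ → ℕ} {k : ℕ}
    (hu : ∀ l, ∑ i ∈ Finset.range l, (1 / 2 : ℝ) ^ (dlB (u (Nat.pair k i))).length ≤ (1 / 2) ^ k)
    (hβ : ∀ l, ∑ i ∈ Finset.range l, (1 / 2 : ℝ) ^ (dlB (β (Nat.pair k i))).length ≤ (1 / 2) ^ k) :
    lam (Kset u β k)ᶜ ≤ (1 / 2) ^ k + (1 / 2) ^ k := by
  rw [Kset_eq]
  exact (measure_union_le _ _).trans (add_le_add (lam_iUnion_le hu) (lam_iUnion_le hβ))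

/-- The interval of `s` meets `K`. -/
def Smeet (m : List ℕ → ℝ) (K : Set (ℕ → Bool)) (s : List ℕ) : Prop := ∃ y ∈ K, Mem m s (rr y)

/-- `s` is minimal such that the interval of `s` does not meet `K`. -/
def SMin (m : List ℕ → ℝ) (K : Set (ℕ → Bool)) (s : List ℕ) : Prop :=
  ¬ Smeet m K s ∧ ∀ i < s.length, Smeet m K (s.take i)

theorem measurableSet_mem (m : List ℕ → ℝ) (s : List ℕ) : MeasurableSet {y | Mem m s (rr y)} :=
  (measurableSet_lt measurable_const measurable_rr).inter (measurableSet_lt measurable_rr measurable_const)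

open Classical in
theorem tsum_min_le {m : List ℕ → ℝ} (hm : MeasV m) (K : Set (ℕ → Bool)) :
    ∑' s : ℕ, (if SMin m K (dl s) then ENNReal.ofReal (m (dl s)) else 0) ≤ lam Kᶜ := by
  let E : ℕ → Set (ℕ → Bool) := fun s => if SMin m K (dl s) then {y | Mem m (dl s) (rr y)} else ∅
  have h1 : ∀ s, (if SMin m K (dl s) then ENNReal.ofReal (m (dl s)) else 0) = lam (E s) := by
    intro s
    simp only [E]
    split_ifs with h
    · rw [lam_mem hm]
    · rw [measure_empty]
  simp only [h1]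
  have hE : ∀ s y, y ∈ E s → SMin m K (dl s) ∧ Mem m (dl s) (rr y) := by
    intro s y hy
    simp only [E] at hy
    split_ifs at hy with h
    · exact ⟨h, hy⟩
    · exact hy.elim
  rw [← measure_iUnion]
  · refine measure_mono (Set.iUnion_subset fun s y hy => ?_)
    obtain ⟨h2, h3⟩ := hE s y hy
    intro hyK
    exact h2.1 ⟨y, hyK, h3⟩
  · intro s t hst
    rw [Function.onFun, Set.disjoint_left]
    intro y hy hy'
    obtain ⟨h2, h3⟩ := hE s y hy
    obtain ⟨h4, h5⟩ := hE t y hy'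
    have key : ∀ s t : List ℕ, SMin m K s → SMin m K t → Mem m s (rr y) → Mem m t (rr y) →
        s.length < t.length → False := by
      intro s t hs ht hys hyt hlt
      have h6 : s = t.take s.length := hys.uniq hm (hyt.take hm _) (by
        rw [List.length_take, min_eq_left hlt.le])
      apply hs.1
      rw [h6]
      exact ht.2 _ hlt
    rcases lt_trichotomy (dl s).length (dl t).length with h6 | h6 | h6
    · exact key _ _ h2 h4 h3 h5 h6
    · apply hst
      have h7 := h3.uniq hm h5 h6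
      rw [← encode_dl s, ← encode_dl t, h7]
    · exact key _ _ h4 h2 h5 h3 h6
  · intro s
    simp only [E]
    split_ifs
    · exact measurableSet_mem m _
    · exact MeasurableSet.empty

/-- Compactness. -/
theorem exists_of_not_min {m : List ℕ → ℝ} (hm : MeasV m) {K : Set (ℕ → Bool)} (hK : IsClosed K)
    (hbad : ∀ y ∈ K, ¬ Bad m (rr y)) {y : ℕ → ℕ} (h : ∀ n, ¬ SMin m K (res y n)) :
    ∃ y' ∈ K, ∀ n, Mem m (res y n) (rr y') := by
  have hS : ∀ n, Smeet m K (res y n) := by
    intro n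
    induction n using Nat.strong_induction_on with
    | _ n ih =>
      by_contra h1
      refine h n ⟨h1, fun i hi => ?_⟩
      rw [res_length] at hi
      have : (res y n).take i = res y i := by
        rw [res, ← List.map_take, List.take_range, min_eq_left hi.le]; rfl
      rw [this]
      exact ih i hi
  let C : ℕ → Set (ℕ → Bool) := fun n => K ∩ {y' | lo m (res y n) ≤ rr y' ∧ rr y' ≤ hi m (res y n)}
  have hC : ∀ n, IsClosed (C n) := fun n => hK.inter
    ((isClosed_le continuous_const continuous_rr).inter (isClosed_le continuous_rr continuous_const))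
  have hne : (⋂ n, C n).Nonempty := by
    apply IsCompact.nonempty_iInter_of_sequence_nonempty_isCompact_isClosed C
    · rintro n y' ⟨h1, h2, h3⟩
      refine ⟨h1, ?_, ?_⟩
      · rw [res_succ] at h2
        exact (lo_le_lo_snoc hm _ _).trans h2
      · rw [res_succ] at h3
        exact h3.trans (hi_snoc_le hm _ _)
    · intro n
      obtain ⟨y', h1, h2⟩ := hS n
      exact ⟨y', h1, h2.1.le, h2.2.le⟩
    · exact (hC 0).isCompact
    · exact hC
  obtain ⟨y', hy'⟩ := hne
  have h1 : ∀ n, y' ∈ C n := fun n => Set.mem_iInter.1 hy' n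
  refine ⟨y', (h1 0).1, fun n => ?_⟩
  have hb := hbad y' (h1 0).1
  exact ⟨lt_of_le_of_ne (h1 n).2.1 (fun h2 => hb ⟨_, Or.inl h2.symm⟩),
    lt_of_le_of_ne (h1 n).2.2 (fun h2 => hb ⟨_, Or.inr h2⟩)⟩

end Pool.Agent.H17.GP
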