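import Pool.Agent.H17.GP.Rl
import Pool.Agent.H17.Omega.Base

/-!
# Change of universe

Every countable transitive model in `ZFSet.{u}` has a copy in `ZFSet.{v}`, with the same reals.
-/

set_option autoImplicit false
set_option linter.unusedVariables false
set_option linter.unusedSectionVars false

universe u v w

namespace Pool.Agent.H17.GP

open Pool.Agent.H17.Omega CTM

/-- The same set in two universes. -/
def Sm (a : ZFSet.{u}) (b : ZFSet.{v}) : Prop :=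
  (∀ a', ∀ _ : a' ∈ a, ∃ b' ∈ b, Sm a' b') ∧ (∀ b' ∈ b, ∃ a', ∃ _ : a' ∈ a, Sm a' b')
termination_by a
decreasing_by
  all_goals assumption

theorem sm_iff {a : ZFSet.{u}} {b : ZFSet.{v}} : Sm a b ↔
    (∀ a' ∈ a, ∃ b' ∈ b, Sm a' b') ∧ (∀ b' ∈ b, ∃ a' ∈ a, Sm a' b') := by
  rw [Sm]
  simp only [exists_prop]

theorem Sm.right_uniq {a : ZFSet.{u}} : ∀ {b b' : ZFSet.{v}}, Sm a b → Sm a b' → b = b' := by
  induction a using ZFSet.inductionOn with
  | _ a ih =>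
    intro b b' h h'
    rw [sm_iff] at h h'
    ext z
    constructor
    · intro hz
      obtain ⟨c, hc, hcz⟩ := h.2 z hz
      obtain ⟨z', hz', hcz'⟩ := h'.1 c hc
      rw [ih c hc hcz hcz']; exact hz'
    · intro hz
      obtain ⟨c, hc, hcz⟩ := h'.2 z hz
      obtain ⟨z', hz', hcz'⟩ := h.1 c hc
      rw [ih c hc hcz hcz']; exact hz'

theorem Sm.left_uniq {a : ZFSet.{u}} : ∀ {a' : ZFSet.{u}} {b : ZFSet.{v}}, Sm a b → Sm a' b → a = a' := by
  induction a using ZFSet.inductionOn with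
  | _ a ih =>
    intro a' b h h'
    rw [sm_iff] at h h'
    ext z
    constructor
    · intro hz
      obtain ⟨c, hc, hcz⟩ := h.1 z hz
      obtain ⟨z', hz', hcz'⟩ := h'.2 c hc
      rw [ih z hz hcz hcz']; exact hz'
    · intro hz
      obtain ⟨c, hc, hcz⟩ := h'.1 z hz
      obtain ⟨z', hz', hcz'⟩ := h.2 c hc
      rw [← ih z' hz' hcz' hcz]; exact hz'

theorem sm_empty : Sm (∅ : ZFSet.{u}) (∅ : ZFSet.{v}) := by
  rw [sm_iff]
  exact ⟨fun a h => (ZFSet.notMem_empty _ h).elim, fun a h => (ZFSet.notMem_empty _ h).elim⟩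

theorem Sm.insert {a c : ZFSet.{u}} {b d : ZFSet.{v}} (h : Sm a b) (h' : Sm c d) :
    Sm (insert a c) (insert b d) := by
  have h'' := sm_iff.1 h'
  rw [sm_iff]
  constructor
  · intro z hz
    rcases ZFSet.mem_insert_iff.1 hz with rfl | hz
    · exact ⟨b, ZFSet.mem_insert _ _, h⟩
    · obtain ⟨w, hw, hzw⟩ := h''.1 z hz
      exact ⟨w, ZFSet.mem_insert_of_mem _ hw, hzw⟩
  · intro z hz
    rcases ZFSet.mem_insert_iff.1 hz with rfl | hz
    · exact ⟨a, ZFSet.mem_insert _ _, h⟩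
    · obtain ⟨w, hw, hzw⟩ := h''.2 z hz
      exact ⟨w, ZFSet.mem_insert_of_mem _ hw, hzw⟩

theorem sm_singleton {a : ZFSet.{u}} {b : ZFSet.{v}} (h : Sm a b) : Sm ({a} : ZFSet.{u}) ({b} : ZFSet.{v}) := by
  rw [sm_iff]
  constructor
  · intro z hz
    rw [ZFSet.mem_singleton.1 hz]
    exact ⟨b, ZFSet.mem_singleton.2 rfl, h⟩
  · intro z hz
    rw [ZFSet.mem_singleton.1 hz]
    exact ⟨a, ZFSet.mem_singleton.2 rfl, h⟩

theorem sm_pair {a c : ZFSet.{u}} {b d : ZFSet.{v}} (h : Sm a b) (h' : Sm c d) :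
    Sm (ZFSet.pair a c) (ZFSet.pair b d) :=
  (sm_singleton h).insert (sm_singleton (h.insert (sm_singleton h')))

theorem sm_natZ (n : ℕ) : Sm (natZ.{u} n) (natZ.{v} n) := by
  induction n with
  | zero => exact sm_empty
  | succ n ih => exact ih.insert ih

theorem sm_rz (x : ℕ → ℕ) : Sm (rz.{u} x) (rz.{v} x) := by
  rw [sm_iff]
  constructor
  · intro z hz
    obtain ⟨n, rfl⟩ := mem_rz.1 hz
    exact ⟨_, mem_rz.2 ⟨n, rfl⟩, sm_pair (sm_natZ _) (sm_natZ _)⟩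
  · intro z hz
    obtain ⟨n, rfl⟩ := mem_rz.1 hz
    exact ⟨_, mem_rz.2 ⟨n, rfl⟩, sm_pair (sm_natZ _) (sm_natZ _)⟩

theorem exists_sm {N : Set ZFSet.{u}} (hN : CTM N) (a : ZFSet.{u}) :
    a ∈ N → ∃ b : ZFSet.{v}, Sm a b := by
  induction a using ZFSet.inductionOn with
  | _ a ih =>
    intro ha
    have h1 : ∀ i : {i : ℕ // (hN.enum i).1 ∈ a}, ∃ b : ZFSet.{v}, Sm (hN.enum i.1).1 b := fun i =>
      ih _ i.2 (hN.enum i.1).2
    choose b hb using h1
    refine ⟨ZFSet.range b, ?_⟩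
    rw [sm_iff]
    constructor
    · intro z hz
      obtain ⟨i, hi⟩ := hN.enum_surj ⟨z, hN.mem_of_mem ha hz⟩
      have hi' : (hN.enum i).1 = z := congrArg Subtype.val hi
      subst hi'
      exact ⟨b ⟨i, hz⟩, ZFSet.mem_range.2 ⟨_, rfl⟩, hb ⟨i, hz⟩⟩
    · intro z hz
      obtain ⟨i, rfl⟩ := ZFSet.mem_range.1 hz
      exact ⟨_, i.2, hb i⟩

/-- Change of universe. -/
theorem exists_copy {N : Set ZFSet.{u}} (hN : CTM N) :
    ∃ N' : Set ZFSet.{v}, CTM N' ∧ Rl N' = Rl N := by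
  let N' : Set ZFSet.{v} := {b | ∃ a ∈ N, Sm a b}
  have h1 : ∀ x : N, ∃ b : ZFSet.{v}, Sm x.1 b := fun x => exists_sm hN x.1 x.2
  choose F hF using h1
  let e : N → N' := fun x => ⟨F x, x.1, x.2, hF x⟩
  have hs : Function.Surjective e := by
    rintro ⟨b, a, ha, hab⟩
    exact ⟨⟨a, ha⟩, Subtype.ext ((hF ⟨a, ha⟩).right_uniq hab)⟩
  have hi : Function.Injective e := by
    intro x y hxy
    have h2 : F x = F y := congrArg Subtype.val hxy
    have h3 := hF y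
    rw [← h2] at h3
    exact Subtype.ext ((hF x).left_uniq h3)
  have he : ∀ x y : N, (e x).1 ∈ (e y).1 ↔ x.1 ∈ y.1 := by
    intro x y
    have h3 := sm_iff.1 (hF y)
    constructor
    · intro h
      obtain ⟨a, ha, hax⟩ := h3.2 _ h
      rw [(hF x).left_uniq hax]; exact ha
    · intro h
      obtain ⟨b, hb, hxb⟩ := h3.1 _ h
      show F x ∈ F y
      rw [(hF x).right_uniq hxb]; exact hb
  refine ⟨N', ⟨?_, ?_, ?_, ?_⟩, ?_⟩
  · obtain ⟨a, ha⟩ := hN.nonempty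
    exact ⟨_, (e ⟨a, ha⟩).2⟩
  · have := hN.countable.to_subtype
    exact Set.countable_coe_iff.1 (hs.countable)
  · rintro b ⟨a, ha, hab⟩ y hy
    obtain ⟨z, hz, hzy⟩ := (sm_iff.1 hab).2 y hy
    exact ⟨z, hN.mem_of_mem ha hz, hzy⟩
  · intro ψ hψ f
    have h2 : ∀ i, ∃ x : N, e x = f i := fun i => hs (f i)
    choose g hg using h2
    have h3 : f = fun i => e (g i) := funext fun i => (hg i).symm
    rw [h3]
    exact (Sat.iso (E := fun a b : N => a.1 ∈ b.1) (F := fun a b : N' => a.1 ∈ b.1) e hs hi he).2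
      (hN.zfc ψ hψ g)
  · ext x
    constructor
    · rintro ⟨a, ha, hab⟩
      have := hab.left_uniq (sm_rz x)
      show rz x ∈ N
      rw [← this]; exact ha
    · intro hx
      exact ⟨rz x, hx, sm_rz x⟩

/-- The theorem in any universe gives the theorem in the lowest one. -/
theorem main_of_universe (h : ∃ N : Set ZFSet.{u}, CTM N ∧ Gold (Rl N) (Del12 (Rl N)) ∧
    ¬ Gold (Rl N) (Sig12 (Rl N))) : Main := by
  obtain ⟨N, hN, h1, h2⟩ := h
  obtain ⟨N', hN', hR⟩ := exists_copy.{u, 0} hN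
  exact ⟨N', hN', by rw [hR]; exact h1, by rw [hR]; exact h2⟩

end Pool.Agent.H17.GP
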