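import Pool.Agent.H17.GP.RlD

/-!
# Failure of Goldstern's principle: from Lebesgue measure on `2^ω` to the general form
-/

set_option autoImplicit false
set_option linter.unusedVariables false
set_option linter.unusedSectionVars false

universe u v w

namespace Pool.Agent.H17.GP

open Pool.Agent.H17.Omega CTM

/-- The fair coin measure on `2^ω`, as a measure on `ω^ω`. -/
noncomputable def leb (s : List ℕ) : ℝ := if ∀ n ∈ s, n ≤ 1 then (1 / 2) ^ s.length else 0

/-- `0-1` part of a real. -/
def toB (y : ℕ → ℕ) : ℕ → Bool := fun n => decide (y n ≠ 0)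

theorem b2n_toB {y : ℕ → ℕ} (h : ∀ n, y n ≤ 1) : b2n (toB y) = y := by
  funext n
  have := h n
  simp only [b2n, toB]
  rcases Nat.le_one_iff_eq_zero_or_eq_one.1 this with h1 | h1
  · simp [h1]
  · simp [h1]

theorem toB_b2n (y : ℕ → Bool) : toB (b2n y) = y := by
  funext n
  simp only [b2n, toB]
  rcases Bool.eq_false_or_eq_true (y n) with h | h <;> simp [h]

theorem b2n_le (y : ℕ → Bool) (n : ℕ) : b2n y n ≤ 1 := by
  simp only [b2n]; split_ifs <;> omega

variable {N : Set ZFSet.{u}} (hN : CTM N)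

include hN in
theorem meas_leb : Meas (Rl N) leb := by
  classical
  refine ⟨fun s => ?_, ?_, fun s => ?_, ?_⟩
  · rw [leb]; split_ifs <;> positivity
  · simp [leb]
  · by_cases h : ∀ n ∈ s, n ≤ 1
    · have h1 : leb s = ∑ n ∈ Finset.range 2, leb (s ++ [n]) := by
        have h0 : ∀ n, n ≤ 1 → leb (s ++ [n]) = (1 / 2) ^ (s.length + 1) := by
          intro n hn
          rw [leb, if_pos, List.length_append]
          · rfl
          · intro k hk
            rcases List.mem_append.1 hk with hk | hk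
            · exact h k hk
            · rw [List.mem_singleton.1 hk]; exact hn
        rw [Finset.sum_range_succ, Finset.sum_range_one, h0 0 (by omega), h0 1 (by omega), leb, if_pos h,
          pow_succ]
        ring
      rw [h1]
      refine hasSum_sum_of_ne_finset_zero fun n hn => ?_
      have hn : 2 ≤ n := by
        rw [Finset.mem_range] at hn; omega
      rw [leb, if_neg]
      intro h2
      have := h2 n (List.mem_append.2 (Or.inr (List.mem_singleton.2 rfl)))
      omega
    · have h1 : ∀ n, leb (s ++ [n]) = 0 := by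
        intro n
        rw [leb, if_neg]
        intro h2
        exact h fun k hk => h2 k (List.mem_append.2 (Or.inl hk))
      have h2 : leb s = 0 := by rw [leb, if_neg h]
      rw [h2]
      simp only [h1]
      exact hasSum_zero
  · let P : ℕ → ℕ → ℕ → Prop := fun k p q => (∀ i < lenN k, getN k i ≤ 1) ∧ p * 2 ^ lenN k < q
    have hP : hN.Dfn (fun v : Fin 1 → N => P (natD (v 0).1).unpair.1 (natD (v 0).1).unpair.2.unpair.1
        (natD (v 0).1).unpair.2.unpair.2) := by
      refine Dfn.and (Dfn.allLt (P := fun v i => getN (natD (v 0).1).unpair.1 i ≤ 1)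
        (DN.lenN (DN.unpair1 (DN.var _))) (Dfn.leN (DN.getN (DN.unpair1 (DN.var _)) (DN.var _))
          (DN.const 1))) ?_
      exact Dfn.ltN (DN.mul (DN.unpair1 (DN.unpair2 (DN.var _))) (DN.pow (DN.const 2)
        (DN.lenN (DN.unpair1 (DN.var _))))) (DN.unpair2 (DN.unpair2 (DN.var _)))
    refine ⟨fun t => if P t.unpair.1 t.unpair.2.unpair.1 t.unpair.2.unpair.2 then 0 else 1,
      mem_Rl' hN (DR.mk (DN.ite hP (DN.const 0) (DN.const 1))), fun s p q => ?_⟩
    simp only [Nat.unpair_pair]
    have h1 : P (Encodable.encode s) p q ↔ (p : ℝ) < q * leb s := by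
      have h2 : (∀ i < lenN (Encodable.encode s), getN (Encodable.encode s) i ≤ 1) ↔
          ∀ n ∈ s, n ≤ 1 := by
        simp only [lenN, getN, dl_encode]
        constructor
        · intro h n hn
          obtain ⟨i, hi, rfl⟩ := List.getElem_of_mem hn
          have := h i hi
          rwa [List.getD_eq_getElem _ _ hi] at this
        · intro h i hi
          rw [List.getD_eq_getElem _ _ hi]
          exact h _ (List.getElem_mem hi)
      have h3 : lenN (Encodable.encode s) = s.length := by rw [lenN, dl_encode]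
      show (_ ∧ _) ↔ _
      rw [h2, h3, leb]
      split_ifs with h
      · rw [and_iff_right h]
        have h4 : (q : ℝ) * (1 / 2) ^ s.length = q / 2 ^ s.length := by
          rw [one_div, inv_pow]; rfl
        rw [h4, lt_div_iff₀ (by positivity)]
        exact_mod_cast (Iff.rfl : p * 2 ^ s.length < q ↔ p * 2 ^ s.length < q)
      · have h5 : ¬ ((p : ℝ) < q * 0) := by
          rw [mul_zero]; exact not_lt.2 (Nat.cast_nonneg p)
        simp only [h5, iff_false, not_and]
        intro h6
        exact (h h6).elim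
    split_ifs with h
    · simp [h1.1 h]
    · constructor
      · intro h2; exact absurd h2 (by decide)
      · exact fun h2 => (h (h1.2 h2)).elim

theorem dlB_eq (k : ℕ) : dlB k = (dl k).map (fun n => decide (n ≠ 0)) := rfl

include hN in
/-- A Lebesgue null set of `2^ω` is null for `leb`. -/
theorem null_leb_of_nullL {B : (ℕ → Bool) → Prop} (h : NullL (Rl N) B) :
    Null (Rl N) leb (fun y => (∀ n, y n ≤ 1) ∧ B (toB y)) := by
  obtain ⟨u, hu, h1, h2⟩ := h
  let F : ℕ → ℕ := fun k => Encodable.encode ((dl k).map (fun n => if n = 0 then 0 else 1))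
  have hF : Primrec F := by
    refine Primrec.encode.comp (Primrec.list_map prim_dl ?_)
    exact Primrec.ite (Primrec.eq.comp Primrec.snd (Primrec.const 0)) (Primrec.const 0) (Primrec.const 1)
  have hdl : ∀ k, dl (F k) = (dl k).map (fun n => if n = 0 then 0 else 1) := fun k => dl_encode _
  have hleb : ∀ k, leb (dl (F k)) = (1 / 2) ^ (dlB k).length := by
    intro k
    rw [leb, if_pos, hdl, dlB_eq, List.length_map, List.length_map]
    intro n hn
    rw [hdl, List.mem_map] at hn
    obtain ⟨a, _, rfl⟩ := hn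
    split_ifs <;> omega
  refine ⟨fun k => F (u k), mem_Rl' hN (DR.mk (DN.primrec hF (DN.app (DR.const hu) (DN.var _)))),
    fun k l => ?_, fun y hy hB k => ?_⟩
  · simp only [hleb]
    exact h1 k l
  · obtain ⟨hB1, hB2⟩ := hB
    obtain ⟨j, hj⟩ := h2 (toB y) (by rw [b2n_toB hB1]; exact hy) hB2 k
    refine ⟨j, ?_⟩
    rw [ExtB, dlB_eq, List.length_map] at hj
    rw [Ext, hdl, List.length_map]
    have h3 : ∀ n, y n = if toB y n = true then 1 else 0 := fun n => by
      conv_lhs => rw [← b2n_toB hB1]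
      rfl
    apply List.ext_getElem
    · simp
    · intro i h4 h5
      have h6 : i < ((List.range (dl (u (Nat.pair k j))).length).map (toB y)).length := by simpa using h4
      have h7 := List.getElem_of_eq hj h6
      simp only [List.getElem_map, List.getElem_range] at h7 ⊢
      rw [h3, h7]
      split_ifs with h8 h9 h9
      · simp [h9] at h8
      · rfl
      · rfl
      · simp [h9] at h8

include hN in
/-- A `leb`-null set meets `2^ω` in a Lebesgue null set. -/
theorem nullL_of_null_leb {B : (ℕ → ℕ) → Prop} (h : Null (Rl N) leb B) :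
    NullL (Rl N) (fun y => B (b2n y)) := by
  classical
  obtain ⟨u, hu, h1, h2⟩ := h
  let P : ℕ → Prop := fun k => ∀ i < lenN k, getN k i ≤ 1
  have hP' : ∀ k, P k ↔ ∀ n ∈ dl k, n ≤ 1 := by
    intro k
    simp only [P, lenN, getN]
    constructor
    · intro h n hn
      obtain ⟨i, hi, rfl⟩ := List.getElem_of_mem hn
      have := h i hi
      rwa [List.getD_eq_getElem _ _ hi] at this
    · intro h i hi
      rw [List.getD_eq_getElem _ _ hi]
      exact h _ (List.getElem_mem hi)
  let Z : ℕ → ℕ := fun n => ini (fun _ => 0) n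
  let u' : ℕ → ℕ := fun t => if P (u (Nat.pair (t.unpair.1 + 1) t.unpair.2)) then
    u (Nat.pair (t.unpair.1 + 1) t.unpair.2) else Z (t.unpair.1 + t.unpair.2 + 2)
  have hu' : u' ∈ Rl N := by
    refine mem_Rl' hN (DR.mk (DN.ite (Dfn.allLt (P := fun v i => getN (u (Nat.pair
      ((natD (v 0).1).unpair.1 + 1) (natD (v 0).1).unpair.2)) i ≤ 1) (DN.lenN ?_)
      (Dfn.leN (DN.getN ?_ (DN.var _)) (DN.const 1))) ?_ ?_))
    · exact DN.app (DR.const hu) (DN.pair (DN.succ (DN.unpair1 (DN.var _))) (DN.unpair2 (DN.var _)))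
    · exact DN.app (DR.const hu) (DN.pair (DN.succ (DN.unpair1 (DN.var _))) (DN.unpair2 (DN.var _)))
    · exact DN.app (DR.const hu) (DN.pair (DN.succ (DN.unpair1 (DN.var _))) (DN.unpair2 (DN.var _)))
    · exact DN.ini (DR.const (hN.const_mem_Rl 0)) (DN.add (DN.add (DN.unpair1 (DN.var _))
        (DN.unpair2 (DN.var _))) (DN.const 2))
  refine ⟨u', hu', fun k l => ?_, fun y hy hB k => ?_⟩
  · have h3 : ∀ j, (1 / 2 : ℝ) ^ (dlB (u' (Nat.pair k j))).length ≤
        leb (dl (u (Nat.pair (k + 1) j))) + (1 / 2) ^ (k + j + 2) := by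
      intro j
      rw [dlB_eq, List.length_map]
      simp only [u', Nat.unpair_pair]
      split_ifs with h
      · rw [leb, if_pos ((hP' _).1 h)]
        have : (0 : ℝ) ≤ (1 / 2) ^ (k + j + 2) := by positivity
        linarith
      · have h4 : (dl (Z (k + j + 2))).length = k + j + 2 := lenN_ini _ _
        rw [h4, leb, if_neg (fun h5 => h ((hP' _).2 h5))]
        simp
    have h5 : ∀ l, ∑ j ∈ Finset.range l, (1 / 2 : ℝ) ^ (k + j + 2) ≤ (1 / 2) ^ (k + 1) := by
      intro l
      have : ∀ l, ∑ j ∈ Finset.range l, (1 / 2 : ℝ) ^ (k + j + 2) =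
          (1 / 2) ^ (k + 1) - (1 / 2) ^ (k + l + 1) := by
        intro l
        induction l with
        | zero => simp
        | succ l ih => rw [Finset.sum_range_succ, ih]; ring
      rw [this]
      have : (0 : ℝ) ≤ (1 / 2) ^ (k + l + 1) := by positivity
      linarith
    calc ∑ j ∈ Finset.range l, (1 / 2 : ℝ) ^ (dlB (u' (Nat.pair k j))).length
        ≤ ∑ j ∈ Finset.range l, (leb (dl (u (Nat.pair (k + 1) j))) + (1 / 2) ^ (k + j + 2)) :=
          Finset.sum_le_sum fun j _ => h3 j
      _ = ∑ j ∈ Finset.range l, leb (dl (u (Nat.pair (k + 1) j))) +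
          ∑ j ∈ Finset.range l, (1 / 2 : ℝ) ^ (k + j + 2) := Finset.sum_add_distrib
      _ ≤ (1 / 2) ^ (k + 1) + (1 / 2) ^ (k + 1) := add_le_add (h1 _ _) (h5 _)
      _ = (1 / 2) ^ k := by rw [pow_succ]; ring
  · obtain ⟨j, hj⟩ := h2 (b2n y) hy hB (k + 1)
    refine ⟨j, ?_⟩
    have h3 : P (u (Nat.pair (k + 1) j)) := by
      rw [hP']
      intro n hn
      rw [Ext] at hj
      rw [← hj, List.mem_map] at hn
      obtain ⟨a, _, rfl⟩ := hn
      exact b2n_le _ _
    rw [ExtB, dlB_eq, List.length_map]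
    simp only [u', Nat.unpair_pair, if_pos h3]
    rw [Ext] at hj
    conv_rhs => rw [← hj]
    rw [List.map_map]
    apply List.map_congr_left
    intro i _
    simp only [b2n, Function.comp]
    rcases Bool.eq_false_or_eq_true (y i) with h | h <;> simp [h]

include hN in
/-- RED: failure of Goldstern's principle for `Σ¹₂` sets. -/
theorem not_gold_of_notGPSigL (h : NotGPSigL (Rl N)) : ¬ Gold (Rl N) (Sig12 (Rl N)) := by
  obtain ⟨A, ⟨c, hc, hA⟩, hnull, hmono, hnot⟩ := h
  intro hG
  refine hnot ?_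
  -- the code of the `Σ¹₂` set
  obtain ⟨d, hd, hd'⟩ := exists_opn (hN := hN) (P := fun s t u v => (0 < lenN v ∧ getN v 0 < lenN t) ∧
    getN t (getN v 0) ≤ 1) (Dfn.and (Dfn.and (Dfn.ltN (DN.const 0) (DN.lenN (DN.var _)))
      (Dfn.ltN (DN.getN (DN.var _) (DN.const 0)) (DN.lenN (DN.var _))))
      (Dfn.leN (DN.getN (DN.var _) (DN.getN (DN.var _) (DN.const 0))) (DN.const 1)))
  have hd2 : ∀ x y z w, Opn d x y z w ↔ y (w 0) ≤ 1 := by
    intro x y z w
    rw [hd']
    constructor
    · rintro ⟨n, ⟨h1, h2⟩, h3⟩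
      rw [lenN_ini] at h1
      rw [getN_ini h1, lenN_ini] at h2
      rw [getN_ini h1, getN_ini h2] at h3
      exact h3
    · intro h1
      have h2 : 0 < w 0 + 1 := by omega
      refine ⟨w 0 + 1, ⟨by rwa [lenN_ini], ?_⟩, ?_⟩
      · rw [getN_ini h2, lenN_ini]; omega
      · rw [getN_ini h2, getN_ini (by omega)]; exact h1
  obtain ⟨e, he, he'⟩ := hN.exists_opn_and hd hc
  have hS : Sig12 (Rl N) (fun x y => (∀ n, y n ≤ 1) ∧ A x (toB y)) := by
    refine ⟨e, he, fun x hx y hy => ?_⟩
    constructor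
    · rintro ⟨h1, h2⟩
      have hb := b2n_toB h1
      obtain ⟨z, hz, hz'⟩ := (hA x hx (toB y) (by rw [hb]; exact hy)).1 h2
      refine ⟨z, hz, fun w hw => ?_⟩
      rw [he', hd2]
      exact ⟨h1 _, by rw [hb] at hz'; exact hz' w hw⟩
    · rintro ⟨z, hz, hz'⟩
      have h1 : ∀ n, y n ≤ 1 := by
        intro n
        have := hz' (fun _ => n) (hN.const_mem_Rl n)
        rw [he', hd2] at this
        exact this.1
      have hb := b2n_toB h1
      refine ⟨h1, (hA x hx (toB y) (by rw [hb]; exact hy)).2 ⟨z, hz, fun w hw => ?_⟩⟩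
      rw [hb]
      have := hz' w hw
      rw [he'] at this
      exact this.2
  have hN2 := hG leb (meas_leb hN) (fun x y => (∀ n, y n ≤ 1) ∧ A x (toB y)) hS
    (fun x hx => null_leb_of_nullL hN (hnull x hx)) (by
      rintro x hx x' hx' hxx y hy ⟨h1, h2⟩
      exact ⟨h1, hmono x hx x' hx' hxx (toB y) (by rw [b2n_toB h1]; exact hy) h2⟩)
  obtain ⟨u, hu, h1, h2⟩ := nullL_of_null_leb hN hN2
  refine ⟨u, hu, h1, fun y hy hB => h2 y hy ?_⟩
  obtain ⟨x, hx, hAx⟩ := hB
  exact ⟨x, hx, b2n_le y, by rwa [toB_b2n]⟩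

end Pool.Agent.H17.GP
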