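import Pool.Agent.H17.GP.RedA

/-!
# Goldstern's principle for `Δ¹₂` sets: from Lebesgue measure on `2^ω` to all measures: the theorem
-/

set_option autoImplicit false
set_option linter.unusedVariables false
set_option linter.unusedSectionVars false

universe u v w

namespace Pool.Agent.H17.GP

open MeasureTheory Pool.Agent.H17.Omega CTM Pool.Agent.H19.GP

theorem ext_iff (y : ℕ → ℕ) (s : List ℕ) : Ext y s ↔ res y s.length = s := Iff.rfl

theorem dl_zero : dl 0 = [] := dl_encode []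

variable {N : Set ZFSet.{u}} (hN : CTM N)

include hN

/-- The way back: from a Lebesgue null set to a null set for the measure coded by `c`. -/
theorem null_of_nullL {c : ℕ → ℕ} (hc : c ∈ Rl N) (hm : MeasV (Mc c))
    (hcc : ∀ (s : List ℕ) (p q : ℕ),
      c (Nat.pair (Encodable.encode s) (Nat.pair p q)) = 0 ↔ (p : ℝ) < q * Mc c s)
    {bS bL : ℕ → ℕ} (hbS : bS ∈ Rl N) (hbS' : Code bS WS) (hbL : bL ∈ Rl N) (hbL' : Code bL WL)
    (hphi2 : phi2 c ∈ Rl N) {B : (ℕ → ℕ) → Prop}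
    (h : NullL (Rl N) (fun y' => ∃ y ∈ Rl N, jn (jn c (b2n y')) y ∈ WD ∧ B y)) :
    Null (Rl N) (Mc c) B := by
  classical
  obtain ⟨u, hu, hu1, hu2⟩ := h
  let K : ℕ → Set (ℕ → Bool) := fun k => Kset u (phi2 c) k
  let prm : ℕ → ℕ → ℕ := fun n => jn c (jn u (jn (phi2 c) (fun _ => n)))
  have hWS : ∀ (n : ℕ) (y : ℕ → ℕ), jn (prm n) y ∈ WS ↔
      toB y ∈ K n.unpair.1 ∧ Mem (Mc c) (dl n.unpair.2) (rr (toB y)) := by
    intro n y
    simp only [WS, prm, Set.mem_ofPred_eq, fstR_jn, sndR_jn]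
    exact Iff.rfl
  -- the internal version of `Smeet`
  have hS : ∀ n : ℕ, (∃ y ∈ Rl N, jn (prm n) y ∈ WS) ↔ Smeet (Mc c) (K n.unpair.1) (dl n.unpair.2) := by
    intro n
    constructor
    · rintro ⟨y, hy, h1⟩
      rw [hWS] at h1
      exact ⟨toB y, h1.1, h1.2⟩
    · rintro ⟨y, h1, h2⟩
      have h3 : jn (prm n) (b2n y) ∈ WS := by
        rw [hWS, toB_b2n]; exact ⟨h1, h2⟩
      exact hN.exists_mem_of_code hbS hbS' (hN.jn_mem hc (hN.jn_mem hu (hN.jn_mem hphi2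
        (hN.const_mem_Rl n)))) h3
  have hSD : ∀ {n : ℕ} {s : (Fin n → N) → ℕ}, hN.DN s →
      hN.Dfn (fun v => ∃ y ∈ Rl N, jn (prm (s v)) y ∈ WS) := by
    intro n s hs
    exact Dfn.exR (P := fun v y => jn (prm (s v)) y ∈ WS) (Dfn.mem_code hbS hbS'
      (DR.jn (DR.jn (DR.const hc) (DR.jn (DR.const hu) (DR.jn (DR.const hphi2) (DR.ofN hs.lift))))
        (DR.var _)))
  let MN : ℕ → ℕ → Prop := fun k s => ¬ (∃ y ∈ Rl N, jn (prm (Nat.pair k s)) y ∈ WS) ∧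
    ∀ i < lenN s, ∃ y ∈ Rl N, jn (prm (Nat.pair k (takeN s i))) y ∈ WS
  have hMN : ∀ k s, MN k s ↔ SMin (Mc c) (K k) (dl s) := by
    intro k s
    simp only [MN, hS, SMin, Nat.unpair_pair, lenN]
    have : ∀ i, dl (takeN s i) = (dl s).take i := fun i => dl_encode _
    simp only [this]
  -- small sets
  have hsmall : ∀ e : ℕ, ∃ n, c (Nat.pair (snocN 0 n) (Nat.pair 1 (2 ^ e))) ≠ 0 := by
    intro e
    have h1 : Filter.Tendsto (fun n => Mc c ([] ++ [n])) Filter.atTop (nhds 0) :=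
      (hm.add []).summable.tendsto_atTop_zero
    obtain ⟨n, hn⟩ := ((h1.eventually_lt_const (by positivity : (0 : ℝ) < (1 / 2) ^ e))).exists
    refine ⟨n, fun h2 => ?_⟩
    have h3 : snocN 0 n = Encodable.encode ([n] : List ℕ) := by
      rw [snocN, dl_zero]; rfl
    rw [h3, hcc] at h2
    rw [List.nil_append] at hn
    have h4 : ((2 ^ e : ℕ) : ℝ) * Mc c [n] < 1 := by
      push_cast
      calc (2 : ℝ) ^ e * Mc c [n] < 2 ^ e * (1 / 2) ^ e := by
            apply mul_lt_mul_of_pos_left hn; positivity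
        _ = 1 := by rw [← mul_pow]; norm_num
    push_cast at h2 h4
    linarith
  let dn : ℕ → ℕ := fun e => Nat.find (hsmall e)
  have hdn : ∀ e, Mc c (dl (snocN 0 (dn e))) ≤ (1 / 2) ^ e := by
    intro e
    have h1 := Nat.find_spec (hsmall e)
    have h3 : snocN 0 (dn e) = Encodable.encode ([dn e] : List ℕ) := by
      rw [snocN, dl_zero]; rfl
    have h2 : ¬ ((1 : ℕ) : ℝ) < ((2 ^ e : ℕ) : ℝ) * Mc c [dn e] := by
      rw [← hcc, ← h3]; exact h1
    rw [h3, dl_encode]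
    push_cast at h2
    have h4 : (2 : ℝ) ^ e * Mc c [dn e] ≤ 1 := not_lt.1 h2
    calc Mc c [dn e] = (1 / 2) ^ e * (2 ^ e * Mc c [dn e]) := by
          rw [← mul_assoc, ← mul_pow]; norm_num
      _ ≤ (1 / 2) ^ e * 1 := by apply mul_le_mul_of_nonneg_left h4; positivity
      _ = (1 / 2) ^ e := mul_one _
  have hdnD : ∀ {n : ℕ} {s : (Fin n → N) → ℕ}, hN.DN s → hN.DN (fun v => dn (s v)) := by
    intro n s hs
    have hc1 : ∀ {m : ℕ} {a b : (Fin m → N) → ℕ}, hN.DN a → hN.DN b → hN.Dfn (fun v =>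
        c (Nat.pair (snocN 0 (a v)) (Nat.pair 1 (2 ^ (b v)))) = 0) := fun ha hb =>
      Dfn.eqN (DN.app (DR.const hc) (DN.pair (DN.snocN (DN.const 0) ha) (DN.pair (DN.const 1)
        (DN.pow (DN.const 2) hb)))) (DN.const 0)
    refine DN.of (P := fun v k => ¬ c (Nat.pair (snocN 0 k) (Nat.pair 1 (2 ^ (s v)))) = 0 ∧
      ∀ j < k, c (Nat.pair (snocN 0 j) (Nat.pair 1 (2 ^ (s v)))) = 0) ?_ fun v k => ?_
    · refine Dfn.and (Dfn.not (hc1 (DN.var _) hs.lift)) ?_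
      exact Dfn.allLt (P := fun v j => c (Nat.pair (snocN 0 j) (Nat.pair 1
        (2 ^ (s (fun i => v i.castSucc))))) = 0) (DN.var _) (hc1 (DN.var _) hs.lift.lift)
    · constructor
      · rintro ⟨h1, h2⟩
        show Nat.find (hsmall (s v)) = k
        rw [Nat.find_eq_iff]
        exact ⟨h1, fun j hj h3 => h3 (h2 j hj)⟩
      · rintro rfl
        exact ⟨Nat.find_spec (hsmall (s v)), fun j hj => not_not.1 (Nat.find_min (hsmall (s v)) hj)⟩
  -- the cover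
  let u' : ℕ → ℕ := fun t => if MN (t.unpair.1 + 2) t.unpair.2 then t.unpair.2 else
    snocN 0 (dn (t.unpair.1 + t.unpair.2 + 2))
  have hu' : u' ∈ Rl N := by
    refine mem_Rl' hN (DR.mk (DN.ite (Dfn.and (Dfn.not (hSD ?_)) ?_) (DN.unpair2 (DN.var _))
      (DN.snocN (DN.const 0) (hdnD ?_))))
    · exact DN.pair (DN.add (DN.unpair1 (DN.var _)) (DN.const 2)) (DN.unpair2 (DN.var _))
    · refine Dfn.allLt (P := fun v i => ∃ y ∈ Rl N, jn (prm (Nat.pair ((natD (v 0).1).unpair.1 + 2)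
        (takeN (natD (v 0).1).unpair.2 i))) y ∈ WS) (DN.lenN (DN.unpair2 (DN.var _))) (hSD ?_)
      exact DN.pair (DN.add (DN.unpair1 (DN.var _)) (DN.const 2))
        (DN.takeN (DN.unpair2 (DN.var _)) (DN.var _))
    · exact DN.add (DN.add (DN.unpair1 (DN.var _)) (DN.unpair2 (DN.var _))) (DN.const 2)
  have hu'1 : ∀ k s, u' (Nat.pair k s) = if SMin (Mc c) (K (k + 2)) (dl s) then s else
      snocN 0 (dn (k + s + 2)) := by
    intro k s
    simp only [u', Nat.unpair_pair]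
    by_cases h1 : SMin (Mc c) (K (k + 2)) (dl s)
    · rw [if_pos h1, if_pos ((hMN _ _).2 h1)]
    · rw [if_neg h1, if_neg (fun h2 => h1 ((hMN _ _).1 h2))]
  refine ⟨u', hu', fun k l => ?_, fun y hy hBy k => ?_⟩
  · refine sum_le_of_tsum (fun i => hm.nonneg _) (by positivity) ?_ l
    have h1 : ∀ s, ENNReal.ofReal (Mc c (dl (u' (Nat.pair k s)))) ≤
        (if SMin (Mc c) (K (k + 2)) (dl s) then ENNReal.ofReal (Mc c (dl s)) else 0) +
          (1 / 2) ^ (k + 1 + s + 1) := by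
      intro s
      rw [hu'1]
      split_ifs with h2
      · exact le_self_add
      · rw [zero_add, ← half_ofReal]
        apply ENNReal.ofReal_le_ofReal
        refine (hdn _).trans (le_of_eq ?_)
        congr 1
        omega
    have h2 : lam (K (k + 2))ᶜ ≤ (1 / 2) ^ (k + 2) + (1 / 2) ^ (k + 2) :=
      lam_compl_Kset (hu1 (k + 2)) (phi2_sum c (k + 2))
    have h3 : ∀ n : ℕ, (1 / 2 : ENNReal) ^ (n + 1) + (1 / 2) ^ (n + 1) = (1 / 2) ^ n := by
      intro n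
      rw [pow_succ, ← mul_add, show (1 / 2 : ENNReal) + 1 / 2 = 1 from ENNReal.add_halves 1, mul_one]
    calc ∑' s, ENNReal.ofReal (Mc c (dl (u' (Nat.pair k s))))
        ≤ ∑' s, ((if SMin (Mc c) (K (k + 2)) (dl s) then ENNReal.ofReal (Mc c (dl s)) else 0) +
          (1 / 2) ^ (k + 1 + s + 1)) := ENNReal.tsum_le_tsum h1
      _ = ∑' s, (if SMin (Mc c) (K (k + 2)) (dl s) then ENNReal.ofReal (Mc c (dl s)) else 0) +
          ∑' s : ℕ, (1 / 2) ^ (k + 1 + s + 1) := ENNReal.tsum_add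
      _ ≤ lam (K (k + 2))ᶜ + (1 / 2) ^ (k + 1) := by
          refine add_le_add (le_of_eq_of_le ?_ (tsum_min_le hm (K (k + 2)))) (tsum_half (k + 1)).le
          refine tsum_congr fun s => ?_
          split_ifs <;> rfl
      _ ≤ ((1 / 2) ^ (k + 2) + (1 / 2) ^ (k + 2)) + (1 / 2) ^ (k + 1) := add_le_add_left h2 _
      _ = ENNReal.ofReal ((1 / 2) ^ k) := by rw [h3 (k + 1), h3 k, half_ofReal]
  · by_contra hno
    push Not at hno
    have h1 : ∀ n, ¬ SMin (Mc c) (K (k + 2)) (res y n) := by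
      intro n hmin
      refine hno (ini y n) ?_
      rw [hu'1, if_pos (by rw [dl_ini']; exact hmin), dl_ini', ext_iff, res_length]
    have hbad : ∀ y' ∈ K (k + 2), ¬ Bad (Mc c) (rr y') := by
      intro y' hy' hb
      obtain ⟨i, hi⟩ := phi2_cover hb (k + 2)
      exact hy'.2 i hi
    obtain ⟨y', hy'K, hy'⟩ := exists_of_not_min hm (isClosed_Kset _ _ _) hbad h1
    have h2 : jn (jn c (jn u (jn (phi2 c) (jn (fun _ => k + 2) y)))) (b2n y') ∈ WL := by
      simp only [WL, Set.mem_ofPred_eq, fstR_jn, sndR_jn, toB_b2n]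
      exact ⟨hy'K, hy'⟩
    obtain ⟨z, hz, hz'⟩ := hN.exists_mem_of_code hbL hbL' (hN.jn_mem hc (hN.jn_mem hu
      (hN.jn_mem hphi2 (hN.jn_mem (hN.const_mem_Rl (k + 2)) hy)))) h2
    simp only [WL, Set.mem_ofPred_eq, fstR_jn, sndR_jn] at hz'
    have hzb : b2n (toB z) ∈ Rl N := by
      have h3 : b2n (toB z) = fun n => if z n = 0 then 0 else 1 := by
        funext n
        simp only [b2n, toB]
        by_cases h4 : z n = 0 <;> simp [h4]
      rw [h3]
      exact mem_Rl' hN (DR.mk (DN.ite (Dfn.eqN (DN.app (DR.const hz) (DN.var _)) (DN.const 0))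
        (DN.const 0) (DN.const 1)))
    obtain ⟨i, hi⟩ := hu2 (toB z) hzb ⟨y, hy, by
      simp only [WD, Set.mem_ofPred_eq, fstR_jn, sndR_jn, toB_b2n]
      exact hz'.2, hBy⟩ (k + 2)
    exact hz'.1.1 i hi

/-- RED for `Δ¹₂` sets, with the codes needed. -/
theorem gold_of_gpDelL {bD bDc bBc bS bL : ℕ → ℕ} (hbD : bD ∈ Rl N) (hbD' : Code bD WD)
    (hbDc : bDc ∈ Rl N) (hbDc' : Code bDc WDᶜ) (hbBc : bBc ∈ Rl N) (hbBc' : Code bBc WBᶜ)
    (hbS : bS ∈ Rl N) (hbS' : Code bS WS) (hbL : bL ∈ Rl N) (hbL' : Code bL WL)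
    (hb1 : ∀ x ∈ Rl N, phi1 (fstR x) (sndR x) ∈ Rl N) (hb2 : ∀ x ∈ Rl N, phi2 x ∈ Rl N)
    (hG : GPDelL (Rl N)) : Gold (Rl N) (Del12 (Rl N)) := by
  intro m hm A hA hnull hmono
  obtain ⟨c, hc, hcc⟩ := hm.code
  have hmc : Mc c = m := Mc_eq hm.nonneg hcc
  subst hmc
  have hmV : MeasV (Mc c) := ⟨hm.nonneg, hm.one, hm.add⟩
  have hD : ∀ (y' : ℕ → Bool) (y : ℕ → ℕ), jn (jn c (b2n y')) y ∈ WD ↔
      ∀ n, Mem (Mc c) (res y n) (rr y') := by
    intro y' y
    simp only [WD, Set.mem_ofPred_eq, fstR_jn, sndR_jn, toB_b2n]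
  have hB : ∀ (y' : ℕ → Bool), jn c (b2n y') ∈ WB ↔ Bad (Mc c) (rr y') := by
    intro y'
    simp only [WB, Set.mem_ofPred_eq, fstR_jn, sndR_jn, toB_b2n]
  let A' : (ℕ → ℕ) → (ℕ → Bool) → Prop := fun x y' => ∃ y ∈ Rl N, jn (jn c (b2n y')) y ∈ WD ∧ A x y
  have hA1 : Sig12B (Rl N) A' := sig12B_rel hN hA.1 hc hbDc hbDc'
  have hA2 : Sig12B (Rl N) (fun x y' => ¬ A' x y') := by
    refine sig12B_congr hN (sig12B_or hN (sig12B_borel hN hc hbBc hbBc')
      (sig12B_rel hN hA.2 hc hbDc hbDc')) fun x hx y' hy' => ?_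
    constructor
    · rintro (h1 | ⟨y, hy, h1, h2⟩)
      · rintro ⟨y, hy, h2, _⟩
        rw [hB] at h1
        rw [hD] at h2
        exact not_bad_of_mem hmV h2 h1
      · rintro ⟨z, hz, h3, h4⟩
        rw [hD] at h1 h3
        rw [rel_uniq hmV h1 h3] at h2
        exact h2 h4
    · intro h1
      by_cases hb : Bad (Mc c) (rr y')
      · exact Or.inl ((hB y').2 hb)
      · right
        obtain ⟨y, hy⟩ := exists_rel hmV (rr_nonneg y') (rr_le_one y') hb
        obtain ⟨z, hz, hz'⟩ := hN.exists_mem_of_code hbD hbD' (hN.jn_mem hc hy') ((hD y' y).2 hy)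
        exact ⟨z, hz, hz', fun h2 => h1 ⟨z, hz, hz', h2⟩⟩
  have hA3 : ∀ x ∈ Rl N, NullL (Rl N) (A' x) := by
    intro x hx
    obtain ⟨u, hu, hu1, hu2⟩ := hnull x hx
    have h1 := hb1 _ (hN.jn_mem hc hu)
    rw [fstR_jn, sndR_jn] at h1
    refine ⟨phi1 c u, h1, phi1_sum hmV hu1, ?_⟩
    rintro y' hy' ⟨y, hy, h2, h3⟩ k
    obtain ⟨j, hj⟩ := hu2 y hy h3 (k + 1)
    rw [hD] at h2
    apply phi1_cover (j := j)
    rw [ext_iff] at hj
    have h4 := h2 (dl (u (Nat.pair (k + 1) j))).length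
    rwa [hj] at h4
  have hA4 : ∀ x ∈ Rl N, ∀ x' ∈ Rl N, (∀ n, x n ≤ x' n) → ∀ y, b2n y ∈ Rl N → A' x y → A' x' y := by
    rintro x hx x' hx' hxx y' hy' ⟨y, hy, h1, h2⟩
    exact ⟨y, hy, h1, hmono x hx x' hx' hxx y hy h2⟩
  obtain ⟨u, hu, hu1, hu2⟩ := hG A' hA1 hA2 hA3 hA4
  refine null_of_nullL hN hc hmV hcc hbS hbS' hbL hbL' (hb2 c hc) (B := fun y => ∃ x ∈ Rl N, A x y) ?_
  refine ⟨u, hu, hu1, ?_⟩
  rintro y' hy' ⟨y, hy, h1, x, hx, h2⟩
  exact hu2 y' hy' ⟨x, hx, y, hy, h1, h2⟩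

omit hN in
/-- RED: there is a countable set of reals `T` such that for every countable transitive model that contains `T`,
Goldstern's principle for `Δ¹₂` sets and Lebesgue measure on `2^ω` implies the principle for all Borel probability
measures on `ω^ω`. -/
theorem red_del : ∃ T : Set (ℕ → ℕ), T.Countable ∧ ∀ {N : Set ZFSet.{u}}, CTM N → T ⊆ Rl N →
    GPDelL (Rl N) → Gold (Rl N) (Del12 (Rl N)) := by
  obtain ⟨bD, hbD⟩ := exists_code measurableSet_WD.analyticSet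
  obtain ⟨bDc, hbDc⟩ := exists_code measurableSet_WD.compl.analyticSet
  obtain ⟨bBc, hbBc⟩ := exists_code measurableSet_WB.compl.analyticSet
  obtain ⟨bS, hbS⟩ := exists_code measurableSet_WS.analyticSet
  obtain ⟨bL, hbL⟩ := exists_code measurableSet_WL.analyticSet
  obtain ⟨b1, hb1⟩ := exists_code_fun.{u} measurable_phi1
  obtain ⟨b2, hb2⟩ := exists_code_fun.{u} measurable_phi2
  refine ⟨{bD, bDc, bBc, bS, bL, b1, b2}, by
    simp only [Set.countable_insert, Set.countable_singleton], fun {N} hN hT hG => ?_⟩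
  simp only [Set.insert_subset_iff, Set.singleton_subset_iff] at hT
  obtain ⟨h1, h2, h3, h4, h5, h6, h7⟩ := hT
  exact gold_of_gpDelL hN h1 hbD h2 hbDc h3 hbBc h4 hbS h5 hbL (hb1 hN h6) (hb2 hN h7) hG

end Pool.Agent.H17.GP
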