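import Pool.Agent.H17.Omega.CtmW
import Pool.Agent.H17.Omega.Tukey

/-!
# Countable transitive models of ZFC: recursion of length `ω`, descending sequences

`seqZ g` is the sequence `g : ℕ → V` as a set of pairs `(n, g n)`.
`exists_omega_rec`: iterate a definable function `ω` times inside the model.
`exists_desc`: a relation `E` (a set of pairs) of the model that has a descending sequence `f` (in `V`) has a
descending sequence in the model with the same first element.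
-/

set_option autoImplicit false
set_option linter.unusedVariables false
set_option linter.unusedSectionVars false

universe u v w

namespace Pool.Agent.H17.Omega

/-- a sequence of sets as a set -/
noncomputable def seqZ (g : ℕ → ZFSet.{u}) : ZFSet.{u} :=
  ZFSet.range (fun n : ℕ => ZFSet.pair (natZ n) (g n))

theorem mem_seqZ {g : ℕ → ZFSet.{u}} {z : ZFSet.{u}} :
    z ∈ seqZ g ↔ ∃ n, z = ZFSet.pair (natZ n) (g n) := by
  rw [seqZ, ZFSet.mem_range]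
  constructor
  · rintro ⟨n, rfl⟩; exact ⟨n, rfl⟩
  · rintro ⟨n, rfl⟩; exact ⟨n, rfl⟩

theorem pair_mem_seqZ {g : ℕ → ZFSet.{u}} {n : ℕ} {y : ZFSet.{u}} :
    ZFSet.pair (natZ n) y ∈ seqZ g ↔ y = g n := by
  rw [mem_seqZ]
  constructor
  · rintro ⟨m, h⟩
    rw [ZFSet.pair_inj, natZ_inj] at h
    rw [h.2, h.1]
  · rintro rfl; exact ⟨n, rfl⟩

namespace CTM

variable {N : Set ZFSet.{u}} (hN : CTM N)

include hN in
theorem seqZ_val {g : ℕ → ZFSet.{u}} (h : seqZ g ∈ N) (n : ℕ) : g n ∈ N :=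
  (hN.of_pair_mem (hN.mem_of_mem h (pair_mem_seqZ.2 rfl))).2

include hN in
theorem finite_seq_mem {g : ℕ → ZFSet.{u}} (hg : ∀ n, g n ∈ N) (n : ℕ) :
    ∃ h ∈ N, ∀ z, z ∈ h ↔ ∃ i < n, z = ZFSet.pair (natZ i) (g i) := by
  induction n with
  | zero => exact ⟨∅, hN.empty_mem, fun z => by simp⟩
  | succ n ih =>
    obtain ⟨h, hh, hz⟩ := ih
    refine ⟨insert (ZFSet.pair (natZ n) (g n)) h,
      hN.insert_mem (hN.pair_mem (hN.natZ_mem_N n) (hg n)) hh, fun z => ?_⟩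
    rw [ZFSet.mem_insert_iff, hz]
    constructor
    · rintro (rfl | ⟨i, hi, rfl⟩)
      · exact ⟨n, by omega, rfl⟩
      · exact ⟨i, by omega, rfl⟩
    · rintro ⟨i, hi, rfl⟩
      rcases Nat.lt_succ_iff_lt_or_eq.1 hi with h1 | rfl
      · exact Or.inr ⟨i, h1, rfl⟩
      · exact Or.inl rfl

/-- Recursion of length `ω`. -/
theorem exists_omega_rec {S : N → N → Prop} (hS : hN.Dfn (fun v : Fin 2 → N => S (v 0) (v 1)))
    {D : ZFSet.{u}} (hD : D ∈ N) (htot : ∀ x : N, x.1 ∈ D → ∃ y : N, y.1 ∈ D ∧ S x y)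
    (huni : ∀ x y y' : N, x.1 ∈ D → y.1 ∈ D → y'.1 ∈ D → S x y → S x y' → y = y') (a : N) (ha : a.1 ∈ D) :
    ∃ g : ℕ → N, g 0 = a ∧ (∀ n, (g n).1 ∈ D) ∧ (∀ n, S (g n) (g (n + 1))) ∧
      seqZ (fun n => (g n).1) ∈ N := by
  classical
  let nx : {x : N // x.1 ∈ D} → {x : N // x.1 ∈ D} := fun x =>
    ⟨(htot x.1 x.2).choose, (htot x.1 x.2).choose_spec.1⟩
  have hnx : ∀ x, S x.1 (nx x).1 := fun x => (htot x.1 x.2).choose_spec.2
  let G : ℕ → {x : N // x.1 ∈ D} := fun n => Nat.rec ⟨a, ha⟩ (fun _ x => nx x) n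
  let g : ℕ → N := fun n => (G n).1
  have g0 : g 0 = a := rfl
  have gD : ∀ n, (g n).1 ∈ D := fun n => (G n).2
  have gS : ∀ n, S (g n) (g (n + 1)) := fun n => hnx (G n)
  refine ⟨g, g0, gD, gS, ?_⟩
  -- good approximations
  let Gd : N → Prop := fun h => ∀ k y : N, ZFSet.pair k.1 y.1 ∈ h.1 →
    (k.1 = ∅ ∧ y = a) ∨ ∃ k' y' : N, k.1 = insert k'.1 k'.1 ∧ ZFSet.pair k'.1 y'.1 ∈ h.1 ∧
      (y.1 ∈ D ∧ S y' y)
  have hGd : hN.Dfn (fun v : Fin 1 → N => Gd (v 0)) := by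
    refine Dfn.all (P := fun v k => ∀ y : N, ZFSet.pair k.1 y.1 ∈ (v 0).1 →
      (k.1 = ∅ ∧ y = a) ∨ ∃ k' y' : N, k.1 = insert k'.1 k'.1 ∧ ZFSet.pair k'.1 y'.1 ∈ (v 0).1 ∧
        (y.1 ∈ D ∧ S y' y)) ?_
    refine Dfn.all (P := fun v y => ZFSet.pair (v 1).1 y.1 ∈ (v 0).1 →
      ((v 1).1 = ∅ ∧ y = a) ∨ ∃ k' y' : N, (v 1).1 = insert k'.1 k'.1 ∧
        ZFSet.pair k'.1 y'.1 ∈ (v 0).1 ∧ (y.1 ∈ D ∧ S y' y)) ?_
    refine Dfn.imp (Dfn.pairMem (DT.var _) (DT.var _) (DT.var _)) (Dfn.or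
      (Dfn.and (Dfn.isEmpty (DT.var _)) (Dfn.eq (DT.var _) (DT.const a))) ?_)
    refine Dfn.ex (P := fun v k' => ∃ y' : N, (v 1).1 = insert k'.1 k'.1 ∧
        ZFSet.pair k'.1 y'.1 ∈ (v 0).1 ∧ ((v 2).1 ∈ D ∧ S y' (v 2))) ?_
    refine Dfn.ex (P := fun v y' => (v 1).1 = insert (v 3).1 (v 3).1 ∧
        ZFSet.pair (v 3).1 y'.1 ∈ (v 0).1 ∧ ((v 2).1 ∈ D ∧ S y' (v 2))) ?_
    refine Dfn.and (Dfn.isInsert (DT.var _) (DT.var _) (DT.var _))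
      (Dfn.and (Dfn.pairMem (DT.var _) (DT.var _) (DT.var _))
        (Dfn.and (Dfn.mem (DT.var _) (DT.const ⟨D, hD⟩)) ?_))
    exact Dfn.subst2 (P := S) hS (DT.var _) (DT.var _)
  have hsound : ∀ h : N, Gd h → ∀ n y, ZFSet.pair (natZ n) y ∈ h.1 → y = (g n).1 := by
    intro h hh n
    induction n with
    | zero =>
      intro y hy
      have hyN := (hN.of_pair_mem (hN.mem_of_mem h.2 hy))
      rcases hh ⟨natZ 0, hyN.1⟩ ⟨y, hyN.2⟩ hy with ⟨_, h2⟩ | ⟨k', y', h2, _⟩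
      · exact congrArg Subtype.val h2
      · exfalso
        have h3 : (∅ : ZFSet.{u}) = insert k'.1 k'.1 := h2
        have h4 : k'.1 ∈ (∅ : ZFSet.{u}) := by rw [h3]; exact ZFSet.mem_insert _ _
        exact ZFSet.notMem_empty _ h4
    | succ n ih =>
      intro y hy
      have hyN := (hN.of_pair_mem (hN.mem_of_mem h.2 hy))
      rcases hh ⟨natZ (n + 1), hyN.1⟩ ⟨y, hyN.2⟩ hy with ⟨h2, _⟩ | ⟨k', y', h2, h3, h4, h5⟩
      · exfalso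
        have h3 : natZ n ∈ natZ.{u} (n + 1) := natZ_mem.2 (Nat.lt_succ_self n)
        have h4 : natZ.{u} (n + 1) = ∅ := h2
        rw [h4] at h3
        exact ZFSet.notMem_empty _ h3
      · have hk : k'.1 = natZ n := by
          have h6 : natZ.{u} (n + 1) = insert k'.1 k'.1 := h2
          have h7 : k'.1 ∈ natZ.{u} (n + 1) := by rw [h6]; exact ZFSet.mem_insert _ _
          obtain ⟨m, hm, hm'⟩ := mem_natZ.1 h7
          have h8 : natZ n ∈ natZ.{u} (n + 1) := natZ_mem.2 (Nat.lt_succ_self n)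
          rw [h6, ZFSet.mem_insert_iff] at h8
          rcases h8 with h8 | h8
          · exact h8.symm
          · exfalso
            rw [hm', natZ_mem] at h8
            omega
        have h6 : y' = g n := Subtype.ext (ih y'.1 (by rw [← hk]; exact h3))
        have h7 := huni (g n) ⟨y, hyN.2⟩ (g (n + 1)) (gD n) h4 (gD (n + 1)) (by rw [← h6]; exact h5)
          (gS n)
        exact congrArg Subtype.val h7
  have hcompl : ∀ n, ∃ h : N, Gd h ∧ ZFSet.pair (natZ n) (g n).1 ∈ h.1 := by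
    intro n
    obtain ⟨h, hh, hz⟩ := hN.finite_seq_mem (g := fun n => (g n).1) (fun n => (g n).2) (n + 1)
    refine ⟨⟨h, hh⟩, ?_, (hz _).2 ⟨n, Nat.lt_succ_self n, rfl⟩⟩
    intro k y hk
    obtain ⟨i, hi, h1⟩ := (hz _).1 hk
    rw [ZFSet.pair_inj] at h1
    cases i with
    | zero => exact Or.inl ⟨h1.1, Subtype.ext (h1.2.trans rfl)⟩
    | succ i =>
      refine Or.inr ⟨⟨natZ i, hN.natZ_mem_N i⟩, g i, h1.1, (hz _).2 ⟨i, by omega, rfl⟩, ?_, ?_⟩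
      · rw [h1.2]; exact gD (i + 1)
      · have : y = g (i + 1) := Subtype.ext h1.2
        rw [this]; exact gS i
  have hd : hN.Dfn (fun v : Fin 1 → N => ∃ h : N, Gd h ∧ (v 0).1 ∈ h.1) :=
    Dfn.ex (P := fun v h => Gd h ∧ (v 0).1 ∈ h.1)
      (Dfn.and (Dfn.subst1 (P := Gd) hGd (DT.var _)) (Dfn.mem (DT.var _) (DT.var _)))
  obtain ⟨b, hb, hb'⟩ := hN.exists_sep (P := fun z => ∃ h : N, Gd h ∧ z.1 ∈ h.1) hd
    (hN.prod_mem hN.omZ_mem hD)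
  have : seqZ (fun n => (g n).1) = b := by
    ext z
    rw [mem_seqZ, hb']
    constructor
    · rintro ⟨n, rfl⟩
      obtain ⟨h, h1, h2⟩ := hcompl n
      exact ⟨ZFSet.pair_mem_prod.2 ⟨natZ_mem_omZ n, gD n⟩, hN.mem_of_mem h.2 h2, h, h1, h2⟩
    · rintro ⟨h1, h2, h, h3, h4⟩
      obtain ⟨k, hk, y, hy, rfl⟩ := ZFSet.mem_prod.1 h1
      obtain ⟨n, rfl⟩ := mem_omZ.1 hk
      exact ⟨n, by rw [hsound h h3 n y h4]⟩
  rw [this]
  exact hb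

include hN in
/-- A relation of the model with a descending sequence has a descending sequence in the model. -/
theorem exists_desc {D E : ZFSet.{u}} (hD : D ∈ N) (hE : E ∈ N)
    (hED : ∀ y x, ZFSet.pair y x ∈ E → y ∈ D ∧ x ∈ D) {f : ℕ → ZFSet.{u}}
    (hf : ∀ n, ZFSet.pair (f (n + 1)) (f n) ∈ E) :
    ∃ g : ℕ → ZFSet.{u}, g 0 = f 0 ∧ (∀ n, ZFSet.pair (g (n + 1)) (g n) ∈ E) ∧ seqZ g ∈ N := by
  classical
  obtain ⟨p, hp, hp'⟩ := hN.exists_pow hD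
  -- the largest set without minimal element
  let Q : N → Prop := fun c => c.1 ⊆ D ∧ ∀ m : N, m.1 ∈ c.1 → ∃ z : N, z.1 ∈ c.1 ∧ ZFSet.pair z.1 m.1 ∈ E
  have hQ : hN.Dfn (fun v : Fin 1 → N => Q (v 0)) := by
    refine Dfn.and (Dfn.subset (DT.var _) (DT.const ⟨D, hD⟩)) ?_
    refine Dfn.all (P := fun v m => m.1 ∈ (v 0).1 → ∃ z : N, z.1 ∈ (v 0).1 ∧
      ZFSet.pair z.1 m.1 ∈ E) ?_
    refine Dfn.imp (Dfn.mem (DT.var _) (DT.var _)) ?_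
    refine Dfn.ex (P := fun v z => z.1 ∈ (v 0).1 ∧ ZFSet.pair z.1 (v 1).1 ∈ E) ?_
    exact Dfn.and (Dfn.mem (DT.var _) (DT.var _))
      (Dfn.pairMem (DT.var _) (DT.var _) (DT.const ⟨E, hE⟩))
  have hd : hN.Dfn (fun v : Fin 1 → N => ∃ c : N, Q c ∧ (v 0).1 ∈ c.1) :=
    Dfn.ex (P := fun v c => Q c ∧ (v 0).1 ∈ c.1)
      (Dfn.and (Dfn.subst1 (P := Q) hQ (DT.var _)) (Dfn.mem (DT.var _) (DT.var _)))
  obtain ⟨I, hI, hI'⟩ := hN.exists_sep (P := fun z => ∃ c : N, Q c ∧ z.1 ∈ c.1) hd hD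
  have hIQ : Q ⟨I, hI⟩ := by
    refine ⟨fun z hz => ((hI' z).1 hz).1, fun m hm => ?_⟩
    obtain ⟨_, _, c, hc, hmc⟩ := (hI' m.1).1 hm
    obtain ⟨z, hz, hzm⟩ := hc.2 m hmc
    exact ⟨z, (hI' z.1).2 ⟨hc.1 hz, z.2, c, hc, hz⟩, hzm⟩
  have hImax : ∀ c : N, Q c → c.1 ⊆ I := fun c hc z hz =>
    (hI' z).2 ⟨hc.1 hz, hN.mem_of_mem c.2 hz, c, hc, hz⟩
  have hfD : ∀ n, f n ∈ D := fun n => (hED _ _ (hf n)).2
  have hfN : ∀ n, f n ∈ N := fun n => hN.mem_of_mem hD (hfD n)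
  -- closure upwards
  have hup : ∀ x y : ZFSet.{u}, ZFSet.pair y x ∈ E → y ∈ I → x ∈ I := by
    intro x y hyx hy
    have hx := (hED _ _ hyx).2
    have hxN := hN.mem_of_mem hD hx
    refine hImax ⟨insert x I, hN.insert_mem hxN hI⟩ ⟨?_, ?_⟩ (ZFSet.mem_insert _ _)
    · intro z hz
      rcases ZFSet.mem_insert_iff.1 hz with rfl | hz
      · exact hx
      · exact hIQ.1 hz
    · intro m hm
      rcases ZFSet.mem_insert_iff.1 hm with h1 | h1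
      · refine ⟨⟨y, hN.mem_of_mem hI hy⟩, ZFSet.mem_insert_of_mem _ hy, ?_⟩
        rw [h1]; exact hyx
      · obtain ⟨z, hz, hzm⟩ := hIQ.2 m h1
        exact ⟨z, ZFSet.mem_insert_of_mem _ hz, hzm⟩
  have hf0 : f 0 ∈ I := by
    by_contra h0
    have hfn : ∀ n, f n ∉ I := by
      intro n
      induction n with
      | zero => exact h0
      | succ n ih => exact fun h => ih (hup _ _ (hf n) h)
    -- the relation on the complement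
    have hd1 : hN.Dfn (fun v : Fin 1 → N => ¬ (v 0).1 ∈ I) :=
      Dfn.not (Dfn.mem (DT.var _) (DT.const ⟨I, hI⟩))
    have hJ := hN.sep_mem (p := fun z => ¬ z ∈ I) hd1 hD
    have hd2 : hN.Dfn (fun v : Fin 1 → N => ∃ y x : N, (v 0).1 = ZFSet.pair y.1 x.1 ∧
        (¬ y.1 ∈ I ∧ ¬ x.1 ∈ I)) :=
      Dfn.exPair (P := fun _ y x => ¬ y.1 ∈ I ∧ ¬ x.1 ∈ I) (DT.var _)
        (Dfn.and (Dfn.not (Dfn.mem (DT.var _) (DT.const ⟨I, hI⟩)))
          (Dfn.not (Dfn.mem (DT.var _) (DT.const ⟨I, hI⟩))))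
    obtain ⟨E', hE', hE2⟩ := hN.exists_sep (P := fun z => ∃ y x : N, z.1 = ZFSet.pair y.1 x.1 ∧
        (¬ y.1 ∈ I ∧ ¬ x.1 ∈ I)) hd2 hE
    have hpE : ∀ y x, ZFSet.pair y x ∈ E' ↔ ZFSet.pair y x ∈ E ∧ y ∉ I ∧ x ∉ I := by
      intro y x
      rw [hE2]
      constructor
      · rintro ⟨h1, h2, y', x', h3, h4, h5⟩
        have h6 : ZFSet.pair y x = ZFSet.pair y'.1 x'.1 := h3
        rw [ZFSet.pair_inj] at h6
        rw [h6.1, h6.2]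
        refine ⟨?_, h4, h5⟩
        rw [← h6.1, ← h6.2]; exact h1
      · rintro ⟨h1, h2, h3⟩
        have h4 := hN.mem_of_mem hE h1
        have h5 := hN.of_pair_mem h4
        exact ⟨h1, h4, ⟨y, h5.1⟩, ⟨x, h5.2⟩, rfl, h2, h3⟩
    obtain ⟨F, hF, hF'⟩ := hN.exists_collapse_of_min (D := ZFSet.sep (fun z => ¬ z ∈ I) D)
      (E := E') hJ hE' (by
        intro y x h
        obtain ⟨h1, h2, h3⟩ := (hpE y x).1 h
        exact ⟨ZFSet.mem_sep.2 ⟨(hED _ _ h1).1, h2⟩, ZFSet.mem_sep.2 ⟨(hED _ _ h1).2, h3⟩⟩) (by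
        intro c hc hcD hc0
        by_contra hno
        push Not at hno
        have hcI : c ⊆ I := by
          refine hImax ⟨c, hc⟩ ⟨fun z hz => (ZFSet.mem_sep.1 (hcD hz)).1, fun m hm => ?_⟩
          obtain ⟨z, hz, hzm⟩ := hno m.1 hm
          exact ⟨⟨z, hN.mem_of_mem hc hz⟩, hz, ((hpE _ _).1 hzm).1⟩
        have : c.Nonempty := by
          by_contra h1
          exact hc0 ((ZFSet.eq_empty c).2 fun z hz => h1 ⟨z, hz⟩)
        obtain ⟨z, hz⟩ := this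
        exact (ZFSet.mem_sep.1 (hcD hz)).2 (hcI hz))
    -- descending sequence of ranks
    have hdesc : ∀ n, (F ⟨f (n + 1), hfN _⟩).1 ∈ (F ⟨f n, hfN n⟩).1 := by
      intro n
      refine (hF' ⟨f n, hfN n⟩ (F ⟨f (n + 1), hfN _⟩)).2 ⟨⟨f (n + 1), hfN _⟩, ?_, rfl⟩
      exact (hpE _ _).2 ⟨hf n, hfn _, hfn _⟩
    have key : ∀ x : ZFSet.{u}, ∀ n, (F ⟨f n, hfN n⟩).1 ≠ x := by
      intro x
      induction x using ZFSet.inductionOn with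
      | _ x ih =>
        intro n h
        exact ih _ (by rw [← h]; exact hdesc n) (n + 1) rfl
    exact key _ 0 rfl
  -- choice
  obtain ⟨C, hC, hC'⟩ := hN.exists_choice hp
  let S : N → N → Prop := fun x y => ∃ b : N, (∀ z : N, z.1 ∈ b.1 ↔ z.1 ∈ I ∧ ZFSet.pair z.1 x.1 ∈ E) ∧
    (y.1 ∈ b.1 ∧ ZFSet.pair b.1 y.1 ∈ C)
  have hS : hN.Dfn (fun v : Fin 2 → N => S (v 0) (v 1)) := by
    refine Dfn.ex (P := fun v b => (∀ z : N, z.1 ∈ b.1 ↔ z.1 ∈ I ∧ ZFSet.pair z.1 (v 0).1 ∈ E) ∧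
      ((v 1).1 ∈ b.1 ∧ ZFSet.pair b.1 (v 1).1 ∈ C)) ?_
    refine Dfn.and ?_ (Dfn.and (Dfn.mem (DT.var _) (DT.var _))
      (Dfn.pairMem (DT.var _) (DT.var _) (DT.const ⟨C, hC⟩)))
    refine Dfn.all (P := fun v z => z.1 ∈ (v 2).1 ↔ z.1 ∈ I ∧ ZFSet.pair z.1 (v 0).1 ∈ E) ?_
    exact Dfn.iff (Dfn.mem (DT.var _) (DT.var _)) (Dfn.and (Dfn.mem (DT.var _) (DT.const ⟨I, hI⟩))
      (Dfn.pairMem (DT.var _) (DT.var _) (DT.const ⟨E, hE⟩)))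
  have hb : ∀ x : N, ∃ b : N, (∀ z : N, z.1 ∈ b.1 ↔ z.1 ∈ I ∧ ZFSet.pair z.1 x.1 ∈ E) ∧ b.1 ⊆ I := by
    intro x
    obtain ⟨b, hb, hb'⟩ := hN.exists_sep (P := fun z => ZFSet.pair z.1 x.1 ∈ E)
      (Dfn.pairMem (DT.var _) (DT.const x) (DT.const ⟨E, hE⟩)) hI
    refine ⟨⟨b, hb⟩, fun z => ?_, fun z hz => ((hb' z).1 hz).1⟩
    rw [hb']
    exact ⟨fun ⟨h1, _, h2⟩ => ⟨h1, h2⟩, fun ⟨h1, h2⟩ => ⟨h1, z.2, h2⟩⟩
  obtain ⟨g, g0, gD, gS, gN⟩ := hN.exists_omega_rec (S := S) hS hI (by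
    intro x hx
    obtain ⟨b, hb1, hb2⟩ := hb x
    obtain ⟨z, hz, hzx⟩ := hIQ.2 x hx
    have hz' : z.1 ∈ b.1 := (hb1 z).2 ⟨hz, hzx⟩
    have hbp : b.1 ∈ p := (hp' _).2 ⟨b.2, fun z hz => hIQ.1 (hb2 hz)⟩
    have hb0 : b.1 ≠ ∅ := by
      intro h
      rw [h] at hz'
      exact ZFSet.notMem_empty _ hz'
    obtain ⟨y, hy, hy1, _⟩ := hC' b.1 hbp hb0
    exact ⟨⟨y, hN.mem_of_mem b.2 hy⟩, hb2 hy, b, hb1, hy, hy1⟩) (by
    rintro x y y' hx hy hy' ⟨b, h1, h2, h3⟩ ⟨b', h1', h2', h3'⟩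
    have hbb : b = b' := Subtype.ext (hN.ext' b.2 b'.2 fun z => (h1 z).trans (h1' z).symm)
    subst hbb
    have hbp : b.1 ∈ p := (hp' _).2 ⟨b.2, fun z hz =>
      hIQ.1 ((h1 ⟨z, hN.mem_of_mem b.2 hz⟩).1 hz).1⟩
    have hb0 : b.1 ≠ ∅ := by
      intro h
      rw [h] at h2
      exact ZFSet.notMem_empty _ h2
    obtain ⟨w, hw, hw1, hw2⟩ := hC' b.1 hbp hb0
    exact Subtype.ext ((hw2 _ h2 h3).trans (hw2 _ h2' h3').symm)) ⟨f 0, hfN 0⟩ hf0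
  refine ⟨fun n => (g n).1, congrArg Subtype.val g0, fun n => ?_, gN⟩
  obtain ⟨b, h1, h2, h3⟩ := gS n
  exact ((h1 (g (n + 1))).1 h2).2

end CTM

end Pool.Agent.H17.Omega
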