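import Pool.Agent.H83.GP.SysEx
import Pool.Agent.H19.GP.PartA
import Pool.Agent.H17.GP.Low

/-!
# MP_66e4cf_lc (Goldstern's principle): the assembly
-/

set_option autoImplicit false
set_option linter.unusedVariables false
set_option linter.unusedSectionVars false

universe u

open Pool.Agent.H17.Omega Pool.Agent.H19.GP Pool.Agent.H83.GP Pool.Agent.H52.OM

namespace Pool.Agent.H17.GP

/-- Countable transitive models of the form `L_β[e]` with given reals. -/
def LMod : Prop := ∀ T : Set (ℕ → ℕ), T.Countable → ∃ (e : ℕ → ℕ) (β : Ordinal.{u}),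
  CTM (KL (BR e) w0 β) ∧ Order.IsSuccLimit β ∧ e ∈ Rl (KL (BR e) w0 β) ∧
    (∀ γ : Ordinal.{u}, γ.toZFSet ∈ KL (BR e) w0 β ↔ γ < β) ∧ T ⊆ Rl (KL (BR e) w0 β)

theorem main_of_lmod (hL : LMod.{u}) : Main := by
  obtain ⟨T, hT, h⟩ := part_A.{u}
  obtain ⟨e, β, hM, hβ, he, hO, hs⟩ := hL (T ∪ Par) (hT.union par_countable)
  have s := Set.union_subset_iff.1 hs
  obtain ⟨N, δ, K, hS, hK, hN⟩ := exists_sys hM s.2
  have g := h N δ K hS (by rw [hK]; exact s.1) e β hK hβ (by rw [hK]; exact he)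
    (by rw [hK]; exact hO) (by rw [hK]; exact hN)
  exact main_of_universe.{u} ⟨N, hS.ctmN, g⟩

end Pool.Agent.H17.GP
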