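import Pool.Agent.H17.GP.RlD

/-!
# The inductive definition of the winning positions inside a countable transitive model

Positions are coded by numbers `n = (t, v)` (pairs of codes of finite sequences).
-/

set_option autoImplicit false
set_option linter.unusedVariables false
set_option linter.unusedSectionVars false

universe u v w

namespace Pool.Agent.H17.Omega

open Pool.Agent.H17.GP

namespace CTM

variable {N : Set ZFSet.{u}} {hN : CTM N}

theorem DN.sInf {n : ℕ} {P : (Fin n → N) → ℕ → Prop}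
    (hP : hN.Dfn (fun v : Fin (n + 1) → N => P (fun i => v i.castSucc) (natD (v (Fin.last n)).1))) :
    hN.DN (fun v => sInf {k | P v k}) := by
  classical
  have hP2 : hN.Dfn (fun v : Fin (n + 2) → N => P (fun i => v i.castSucc.castSucc)
      (natD (v (Fin.last (n + 1))).1)) := by
    refine (hP.reidx (n := n + 2) (Fin.lastCases (Fin.last (n + 1)) (fun i => i.castSucc.castSucc))).congr
      fun v => ?_
    simp only [Fin.lastCases_last, Fin.lastCases_castSucc]
  refine DN.of (P := fun v k => (P v k ∧ ∀ j < k, ¬ P v j) ∨ (k = 0 ∧ ∀ j, ¬ P v j)) ?_ fun v k => ?_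
  · refine Dfn.or (Dfn.and hP ?_) (Dfn.and (Dfn.eqN (DN.var _) (DN.const 0)) ?_)
    · exact Dfn.allLt (P := fun v j => ¬ P (fun i => v i.castSucc) j) (DN.var _) hP2.not
    · exact Dfn.allN (P := fun v j => ¬ P (fun i => v i.castSucc) j) hP2.not
  · by_cases h : ∃ k, P v k
    · rw [Nat.sInf_def (show ({k | P v k} : Set ℕ).Nonempty from h)]
      constructor
      · rintro (⟨h1, h2⟩ | ⟨h1, h2⟩)
        · exact (Nat.find_eq_iff _).2 ⟨h1, h2⟩
        · obtain ⟨k, hk⟩ := h; exact (h2 k hk).elim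
      · rintro rfl
        exact Or.inl ⟨Nat.find_spec (p := fun k => P v k) h, fun j hj => Nat.find_min (p := fun k => P v k) h hj⟩
    · have h0 : {k | P v k} = ∅ := by
        ext k; exact ⟨fun hk => (h ⟨k, hk⟩).elim, fun hk => hk.elim⟩
      rw [h0, Nat.sInf_empty]
      constructor
      · rintro (⟨h1, h2⟩ | ⟨h1, h2⟩)
        · exact (h ⟨k, h1⟩).elim
        · exact h1.symm
      · rintro rfl
        exact Or.inr ⟨rfl, fun j hj => h ⟨j, hj⟩⟩

end CTM

end Pool.Agent.H17.Omega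

namespace Pool.Agent.H17.GP

open Pool.Agent.H17.Omega CTM

theorem ite01 {p : Prop} [Decidable p] : (if p then 0 else 1 : ℕ) = 0 ↔ p := by
  split_ifs with h <;> simp [h]

/-- `t'` is a proper extension of `t` that obeys `σ` beyond `t`. -/
def ObeyN (σ : ℕ → ℕ) (t t' : ℕ) : Prop :=
  takeN t' (lenN t) = t ∧ t ≠ t' ∧ ∀ k < lenN t', lenN t ≤ k → σ (takeN t' k) ≤ getN t' k

/-- `σ` avoids `G` from the position `n`. -/
def AvoidN (σ : ℕ → ℕ) (G : ℕ → Prop) (n : ℕ) : Prop :=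
  ∀ t', ObeyN σ n.unpair.1 t' → ∀ a, ¬ G (Nat.pair t' (snocN n.unpair.2 a))

/-- Finite approximations of `σ` that avoid `G` from `n`. -/
def SgN (G : ℕ → Prop) (n s : ℕ) : Prop :=
  ∀ t' a, G (Nat.pair t' (snocN n.unpair.2 a)) → takeN t' (lenN n.unpair.1) = n.unpair.1 →
    ¬ n.unpair.1 = t' → (∀ k < lenN t', lenN n.unpair.1 ≤ k → takeN t' k < lenN s) →
    ∃ k, k < lenN t' ∧ lenN n.unpair.1 ≤ k ∧ getN t' k < getN s (takeN t' k)

theorem avoidN_iff {σ : ℕ → ℕ} {G : ℕ → Prop} {n : ℕ} : AvoidN σ G n ↔ ∀ m, SgN G n (ini σ m) := by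
  constructor
  · intro h m t' a hG h1 h2 h3
    by_contra h4
    push Not at h4
    refine h t' ⟨h1, h2, fun k hk hk' => ?_⟩ a hG
    have h5 := h4 k hk hk'
    have h6 := h3 k hk hk'
    rw [lenN_ini] at h6
    rwa [getN_ini h6] at h5
  · intro h t' ht' a hG
    obtain ⟨h1, h2, h3⟩ := ht'
    obtain ⟨m, hm⟩ : ∃ m, ∀ k < lenN t', takeN t' k < m := by
      refine ⟨(Finset.range (lenN t')).sup (fun k => takeN t' k) + 1, fun k hk => ?_⟩
      exact Nat.lt_succ_of_le (Finset.le_sup (f := fun k => takeN t' k) (Finset.mem_range.2 hk))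
    obtain ⟨k, hk, hk', h4⟩ := h m t' a hG h1 h2 (fun k hk _ => by rw [lenN_ini]; exact hm k hk)
    rw [getN_ini (hm k hk)] at h4
    exact absurd (h3 k hk hk') (not_le.2 h4)

/-- The well-founded relation coded by `g`. -/
def WfN (g : ℕ → ℕ) : Prop := WellFounded (fun i j => g (Nat.pair i j) = 0)

/-- `C = (S, g, H)` is a good certificate. -/
def GoodC (PN : ℕ → Prop) (C : ℕ → ℕ) : Prop :=
  WfN (fun k => C (Nat.pair 1 k)) ∧ ∀ p, PN p → C (Nat.pair 0 p) = 0 →
    AvoidN (fun k => C (Nat.pair 2 (Nat.pair p k)))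
      (fun m => PN m ∧ (¬ C (Nat.pair 0 m) = 0 ∨ ¬ C (Nat.pair 1 (Nat.pair m p)) = 0)) p

section

variable {N : Set ZFSet.{u}} {hN : CTM N}

theorem dfn_avoidN {n : ℕ} {σ : (Fin n → N) → ℕ → ℕ} {G : (Fin n → N) → ℕ → Prop} {s : (Fin n → N) → ℕ}
    (hσ : hN.DR σ)
    (hG : hN.Dfn (fun v : Fin (n + 1) → N => G (fun i => v i.castSucc) (natD (v (Fin.last n)).1)))
    (hs : hN.DN s) : hN.Dfn (fun v => AvoidN (σ v) (G v) (s v)) := by
  refine Dfn.allN (P := fun v t' => ObeyN (σ v) (s v).unpair.1 t' → ∀ a,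
    ¬ G v (Nat.pair t' (snocN (s v).unpair.2 a))) ?_
  refine Dfn.imp (Dfn.and (Dfn.eqN (DN.takeN (DN.var _) (DN.lenN (DN.unpair1 hs.lift)))
    (DN.unpair1 hs.lift)) (Dfn.and (Dfn.not (Dfn.eqN (DN.unpair1 hs.lift) (DN.var _))) ?_)) ?_
  · refine Dfn.allLt (P := fun v k => lenN (s (fun i => v i.castSucc)).unpair.1 ≤ k →
      σ (fun i => v i.castSucc) (takeN (natD (v (Fin.last n)).1) k) ≤
        getN (natD (v (Fin.last n)).1) k) (DN.lenN (DN.var _)) ?_
    exact Dfn.imp (Dfn.leN (DN.lenN (DN.unpair1 hs.lift.lift)) (DN.var _))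
      (Dfn.leN (DN.app hσ.lift.lift (DN.takeN (DN.var _) (DN.var _))) (DN.getN (DN.var _) (DN.var _)))
  · refine Dfn.allN (P := fun v a => ¬ G (fun i => v i.castSucc) (Nat.pair (natD (v (Fin.last n)).1)
      (snocN (s (fun i => v i.castSucc)).unpair.2 a))) (Dfn.not ?_)
    refine Dfn.subN (n := n + 2) (P := fun v k => G (fun i => v i.castSucc.castSucc) k)
      (s := fun v => Nat.pair (natD (v (Fin.last n).castSucc).1)
        (snocN (s (fun i => v i.castSucc.castSucc)).unpair.2 (natD (v (Fin.last (n + 1))).1))) ?_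
      (DN.pair (DN.var _) (DN.snocN (DN.unpair2 hs.lift.lift) (DN.var _)))
    refine (hG.reidx (n := n + 3) (Fin.lastCases (Fin.last (n + 2))
      (fun i => i.castSucc.castSucc.castSucc))).congr fun v => ?_
    simp only [Fin.lastCases_last, Fin.lastCases_castSucc]

theorem dfn_wfN {n : ℕ} {g : (Fin n → N) → ℕ → ℕ} (hg : hN.DR g) : hN.Dfn (fun v => WfN (g v)) := by
  classical
  -- descending sequences as branches of a tree
  have h1 : hN.DR (fun v c => if ∀ i < lenN c, i + 1 < lenN c → g v (Nat.pair (getN c (i + 1)) (getN c i)) = 0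
      then 1 else 0) := by
    refine DR.mk (DN.ite ?_ (DN.const 1) (DN.const 0))
    refine Dfn.allLt (P := fun v i => i + 1 < lenN (natD (v (Fin.last n)).1) →
      g (fun i => v i.castSucc) (Nat.pair (getN (natD (v (Fin.last n)).1) (i + 1))
      (getN (natD (v (Fin.last n)).1) i)) = 0) (DN.lenN (DN.var _)) ?_
    exact Dfn.imp (Dfn.ltN (DN.succ (DN.var _)) (DN.lenN (DN.var _)))
      (Dfn.eqN (DN.app hg.lift.lift (DN.pair (DN.getN (DN.var _) (DN.succ (DN.var _)))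
        (DN.getN (DN.var _) (DN.var _)))) (DN.const 0))
  refine (Dfn.not (Dfn.exReal h1)).congr fun v => ?_
  rw [WfN, wellFounded_iff_isEmpty_descending_chain, not_exists]
  constructor
  · intro h
    refine ⟨fun ⟨f, hf⟩ => h f fun k => ?_⟩
    rw [if_pos]
    · exact one_ne_zero
    · intro i hi hi'
      rw [lenN_ini] at hi hi'
      rw [getN_ini hi', getN_ini hi]
      exact hf i
  · rintro ⟨h⟩ q hq
    refine h ⟨q, fun i => ?_⟩
    have h2 := hq (i + 2)
    by_contra h3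
    apply h2
    rw [if_neg]
    intro h4
    have h5 := h4 i (by rw [lenN_ini]; omega) (by rw [lenN_ini]; omega)
    rw [getN_ini (by omega), getN_ini (by omega)] at h5
    exact h3 h5

theorem dfn_goodC {PN : ℕ → Prop} (hPN : hN.Dfn (fun v : Fin 1 → N => PN (natD (v 0).1))) {n : ℕ}
    {C : (Fin n → N) → ℕ → ℕ} (hC : hN.DR C) : hN.Dfn (fun v => GoodC PN (C v)) := by
  have hP : ∀ {m : ℕ} {s : (Fin m → N) → ℕ}, hN.DN s → hN.Dfn (fun v => PN (s v)) := fun {m s} hs =>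
    Dfn.substN (P := fun w : Fin 1 → ℕ => PN (w 0)) (s := fun _ => s) hPN (fun _ => hs)
  refine Dfn.and (dfn_wfN (g := fun v k => C v (Nat.pair 1 k)) (DR.mk (DN.app hC.lift
    (DN.pair (DN.const 1) (DN.var _))))) ?_
  refine Dfn.allN (P := fun v p => PN p → C v (Nat.pair 0 p) = 0 →
    AvoidN (fun k => C v (Nat.pair 2 (Nat.pair p k))) (fun m => PN m ∧ (¬ C v (Nat.pair 0 m) = 0 ∨
      ¬ C v (Nat.pair 1 (Nat.pair m p)) = 0)) p) ?_
  refine Dfn.imp (hP (DN.var _)) (Dfn.imp (Dfn.eqN (DN.app hC.lift (DN.pair (DN.const 0) (DN.var _)))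
    (DN.const 0)) ?_)
  refine dfn_avoidN (DR.mk (DN.app hC.lift.lift (DN.pair (DN.const 2) (DN.pair (DN.var _) (DN.var _)))))
    ?_ (DN.var _)
  exact Dfn.and (hP (DN.var _)) (Dfn.or (Dfn.not (Dfn.eqN (DN.app hC.lift.lift
    (DN.pair (DN.const 0) (DN.var _))) (DN.const 0))) (Dfn.not (Dfn.eqN (DN.app hC.lift.lift
      (DN.pair (DN.const 1) (DN.pair (DN.var _) (DN.var _)))) (DN.const 0))))

end

theorem ind_core {N : Set ZFSet.{u}} (hN : CTM N) {PN : ℕ → Prop}
    (hPN : hN.Dfn (fun v : Fin 1 → N => PN (natD (v 0).1))) :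
    ∃ G ∈ Rl N, ∃ F ∈ Rl N, ∃ lt : ℕ → ℕ → Prop, WellFounded lt ∧ (∀ n, G n = 0 → PN n) ∧
      (∀ n, G n = 0 → ∀ σ, ¬ AvoidN σ (fun m => G m = 0) n) ∧
      ∀ n, PN n → G n ≠ 0 → AvoidN (fun k => F (Nat.pair n k))
        (fun m => PN m ∧ (G m = 0 ∨ ¬ lt m n)) n := by
  classical
  have hP : ∀ {m : ℕ} {s : (Fin m → N) → ℕ}, hN.DN s → hN.Dfn (fun v => PN (s v)) := fun {m s} hs =>
    Dfn.substN (P := fun w : Fin 1 → ℕ => PN (w 0)) (s := fun _ => s) hPN (fun _ => hs)
  -- comprehension and choice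
  let Q : ℕ → (ℕ → ℕ) → Prop := fun n C => GoodC PN C ∧ (PN n ∧ C (Nat.pair 0 n) = 0)
  have hQ : hN.Dfn (fun v : Fin 2 → N => Q (natD (v 0).1) (rlD (v 1).1)) :=
    Dfn.and (dfn_goodC hPN (DR.var _)) (Dfn.and (hP (DN.var _)) (Dfn.eqN (DN.app (DR.var _)
      (DN.pair (DN.const 0) (DN.var _))) (DN.const 0)))
  let E : ℕ → ℕ := fun n => if ∃ C ∈ Rl N, Q n C then 0 else 1
  have hE : E ∈ Rl N := mem_Rl' hN (DR.mk (DN.ite (Dfn.exR (P := fun v C => Q (natD (v 0).1) C) hQ)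
    (DN.const 0) (DN.const 1)))
  have hE0 : ∀ n, E n = 0 ↔ ∃ C ∈ Rl N, Q n C := fun n => ite01
  obtain ⟨U, hU, hU'⟩ := hN.exists_choiceR (P := fun n C => E n = 0 → Q n C)
    (Dfn.imp (Dfn.eqN (DN.app (DR.const hE) (DN.var _)) (DN.const 0)) hQ) (by
      intro n
      by_cases h : E n = 0
      · obtain ⟨C, hC, h1⟩ := (hE0 n).1 h
        exact ⟨C, hC, fun _ => h1⟩
      · exact ⟨_, hN.const_mem_Rl 0, fun h' => (h h').elim⟩)
  have hUs : ∀ n, E n = 0 → Q n (fun k => U (Nat.pair n k)) := hU'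
  let ix : ℕ → ℕ := fun p => sInf {n | E n = 0 ∧ U (Nat.pair n (Nat.pair 0 p)) = 0}
  have hix : ∀ p, E p = 0 → E (ix p) = 0 ∧ U (Nat.pair (ix p) (Nat.pair 0 p)) = 0 := by
    intro p hp
    have h1 : ({n | E n = 0 ∧ U (Nat.pair n (Nat.pair 0 p)) = 0} : Set ℕ).Nonempty := ⟨p, hp, (hUs p hp).2.2⟩
    exact Nat.sInf_mem h1
  have hixmin : ∀ p n, E n = 0 → U (Nat.pair n (Nat.pair 0 p)) = 0 → ix p ≤ n := fun p n h1 h2 =>
    Nat.sInf_le (show n ∈ {n | E n = 0 ∧ U (Nat.pair n (Nat.pair 0 p)) = 0} from ⟨h1, h2⟩)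
  have hixD : ∀ {m : ℕ} {s : (Fin m → N) → ℕ}, hN.DN s → hN.DN (fun v => ix (s v)) := by
    intro m s hs
    refine DN.sInf (P := fun v n => E n = 0 ∧ U (Nat.pair n (Nat.pair 0 (s v))) = 0) ?_
    exact Dfn.and (Dfn.eqN (DN.app (DR.const hE) (DN.var _)) (DN.const 0)) (Dfn.eqN
      (DN.app (DR.const hU) (DN.pair (DN.var _) (DN.pair (DN.const 0) hs.lift))) (DN.const 0))
  let G : ℕ → ℕ := fun n => if PN n ∧ ¬ E n = 0 then 0 else 1
  have hG : G ∈ Rl N := mem_Rl' hN (DR.mk (DN.ite (Dfn.and (hP (DN.var _)) (Dfn.not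
    (Dfn.eqN (DN.app (DR.const hE) (DN.var _)) (DN.const 0)))) (DN.const 0) (DN.const 1)))
  have hG0 : ∀ n, G n = 0 ↔ PN n ∧ ¬ E n = 0 := fun n => ite01
  let F : ℕ → ℕ := fun t => U (Nat.pair (ix t.unpair.1) (Nat.pair 2 t))
  have hF' : (fun t : ℕ => U (Nat.pair (ix t.unpair.1) (Nat.pair 2 t))) ∈ Rl N :=
    mem_Rl' hN (DR.mk (DN.app (DR.const hU) (DN.pair (hixD (DN.unpair1 (DN.var _)))
      (DN.pair (DN.const 2) (DN.var _)))))
  have hF : F ∈ Rl N := hF'
  let lt : ℕ → ℕ → Prop := fun m p => (PN m ∧ PN p) ∧ ((E m = 0 ∧ E p = 0) ∧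
    (ix m < ix p ∨ (ix m = ix p ∧ U (Nat.pair (ix p) (Nat.pair 1 (Nat.pair m p))) = 0)))
  have hltD : ∀ {n : ℕ} {s t : (Fin n → N) → ℕ}, hN.DN s → hN.DN t →
      hN.Dfn (fun v => lt (s v) (t v)) := by
    intro n s t hs ht
    refine Dfn.and (Dfn.and (hP hs) (hP ht)) (Dfn.and (Dfn.and
      (Dfn.eqN (DN.app (DR.const hE) hs) (DN.const 0)) (Dfn.eqN (DN.app (DR.const hE) ht) (DN.const 0)))
      (Dfn.or (Dfn.ltN (hixD hs) (hixD ht)) (Dfn.and (Dfn.eqN (hixD hs) (hixD ht)) (Dfn.eqN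
        (DN.app (DR.const hU) (DN.pair (hixD ht) (DN.pair (DN.const 1) (DN.pair hs ht))))
        (DN.const 0)))))
  have hwf : WellFounded lt := by
    rw [wellFounded_iff_isEmpty_descending_chain]
    refine ⟨fun ⟨f, hf⟩ => ?_⟩
    have hle : ∀ n, ix (f (n + 1)) ≤ ix (f n) := by
      intro n
      rcases (hf n).2.2 with h | h
      · exact h.le
      · exact h.1.le
    have hanti : Antitone (fun n => ix (f n)) := antitone_nat_of_succ_le hle
    obtain ⟨n0, hn0⟩ : ∃ n0, ∀ n ≥ n0, ix (f n) = ix (f n0) := by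
      have h1 : ∃ k, ∃ n, ix (f n) = k := ⟨_, 0, rfl⟩
      obtain ⟨n0, hn0⟩ := Nat.find_spec h1
      refine ⟨n0, fun n hn => ?_⟩
      have h2 := hanti hn
      have h3 : Nat.find h1 ≤ ix (f n) := Nat.find_min' h1 ⟨n, rfl⟩
      simp only at h2
      omega
    have hgood := (hUs (ix (f n0)) (hix (f n0) (hf n0).2.1.2).1).1.1
    rw [WfN, wellFounded_iff_isEmpty_descending_chain] at hgood
    refine hgood.false ⟨fun n => f (n0 + n), fun n => ?_⟩
    rcases (hf (n0 + n)).2.2 with h | h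
    · have h4 := hn0 (n0 + n) (by omega)
      have h5 := hn0 (n0 + n + 1) (by omega)
      omega
    · have h4 := hn0 (n0 + n) (by omega)
      rw [h4] at h
      exact h.2
  -- (2)
  have h2 : ∀ n, PN n → G n ≠ 0 → AvoidN (fun k => F (Nat.pair n k))
      (fun m => PN m ∧ (G m = 0 ∨ ¬ lt m n)) n := by
    intro n hn hGn
    have hEn : E n = 0 := by
      by_contra h
      exact hGn ((hG0 n).2 ⟨hn, h⟩)
    obtain ⟨hi1, hi2⟩ := hix n hEn
    obtain ⟨⟨_, hav⟩, _⟩ := hUs (ix n) hi1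
    have h3 := hav n hn hi2
    have h4 : (fun k => F (Nat.pair n k)) = fun k => U (Nat.pair (ix n) (Nat.pair 2 (Nat.pair n k))) := by
      funext k
      show U (Nat.pair (ix (Nat.pair n k).unpair.1) _) = _
      rw [Nat.unpair_pair]
    rw [h4]
    intro t' ht' a ham
    refine h3 t' ht' a ?_
    obtain ⟨hm1, hm2⟩ := ham
    refine ⟨hm1, ?_⟩
    by_cases hcm : U (Nat.pair (ix n) (Nat.pair 0 (Nat.pair t' (snocN n.unpair.2 a)))) = 0
    · right
      intro hrel
      have hEm : E (Nat.pair t' (snocN n.unpair.2 a)) = 0 :=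
        (hE0 _).2 ⟨_, hN.row_mem hU (ix n), (hUs (ix n) hi1).1, hm1, hcm⟩
      rcases hm2 with hm2 | hm2
      · exact ((hG0 _).1 hm2).2 hEm
      · apply hm2
        refine ⟨⟨hm1, hn⟩, ⟨hEm, hEn⟩, ?_⟩
        rcases (hixmin _ _ hi1 hcm).lt_or_eq with h5 | h5
        · exact Or.inl h5
        · exact Or.inr ⟨h5, hrel⟩
    · exact Or.inl hcm
  refine ⟨G, hG, F, hF, lt, hwf, fun n hn => ((hG0 n).1 hn).1, ?_, h2⟩
  -- (1)
  intro p hp σ0 hσ0
  obtain ⟨hPp, hEp⟩ := (hG0 p).1 hp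
  -- a strategy in the model
  obtain ⟨σ, hσ, hav⟩ : ∃ σ ∈ Rl N, AvoidN σ (fun m => G m = 0) p := by
    have hb : (fun s => if SgN (fun m => G m = 0) p s then 1 else 0) ∈ Rl N := by
      refine mem_Rl' hN (DR.mk (DN.ite ?_ (DN.const 1) (DN.const 0)))
      refine Dfn.allN (P := fun v t' => ∀ a, G (Nat.pair t' (snocN p.unpair.2 a)) = 0 →
        takeN t' (lenN p.unpair.1) = p.unpair.1 → ¬ p.unpair.1 = t' →
        (∀ k < lenN t', lenN p.unpair.1 ≤ k → takeN t' k < lenN (natD (v 0).1)) →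
        ∃ k, k < lenN t' ∧ lenN p.unpair.1 ≤ k ∧ getN t' k < getN (natD (v 0).1) (takeN t' k)) ?_
      refine Dfn.allN (P := fun v a => G (Nat.pair (natD (v 1).1) (snocN p.unpair.2 a)) = 0 →
        takeN (natD (v 1).1) (lenN p.unpair.1) = p.unpair.1 → ¬ p.unpair.1 = (natD (v 1).1) →
        (∀ k < lenN (natD (v 1).1), lenN p.unpair.1 ≤ k → takeN (natD (v 1).1) k < lenN (natD (v 0).1)) →
        ∃ k, k < lenN (natD (v 1).1) ∧ lenN p.unpair.1 ≤ k ∧
          getN (natD (v 1).1) k < getN (natD (v 0).1) (takeN (natD (v 1).1) k)) ?_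
      refine Dfn.imp (Dfn.eqN (DN.app (DR.const hG) (DN.pair (DN.var _) (DN.snocN (DN.const _)
        (DN.var _)))) (DN.const 0)) (Dfn.imp (Dfn.eqN (DN.takeN (DN.var _) (DN.const _)) (DN.const _))
        (Dfn.imp (Dfn.not (Dfn.eqN (DN.const _) (DN.var _))) (Dfn.imp ?_ ?_)))
      · refine Dfn.allLt (P := fun v k => lenN p.unpair.1 ≤ k → takeN (natD (v 1).1) k <
          lenN (natD (v 0).1)) (DN.lenN (DN.var _)) ?_
        exact Dfn.imp (Dfn.leN (DN.const _) (DN.var _)) (Dfn.ltN (DN.takeN (DN.var _) (DN.var _))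
          (DN.lenN (DN.var _)))
      · refine Dfn.exN (P := fun v k => k < lenN (natD (v 1).1) ∧ lenN p.unpair.1 ≤ k ∧
          getN (natD (v 1).1) k < getN (natD (v 0).1) (takeN (natD (v 1).1) k)) ?_
        exact Dfn.and (Dfn.ltN (DN.var _) (DN.lenN (DN.var _))) (Dfn.and
          (Dfn.leN (DN.const _) (DN.var _)) (Dfn.ltN (DN.getN (DN.var _) (DN.var _))
            (DN.getN (DN.var _) (DN.takeN (DN.var _) (DN.var _)))))
    rw [avoidN_iff] at hσ0
    obtain ⟨σ, hσ, _, h3⟩ := hN.exists_br hb (q := σ0) 0 (fun m => by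
      show (if SgN (fun m => G m = 0) p (ini σ0 m) then 1 else 0) ≠ 0
      rw [if_pos (hσ0 m)]; exact one_ne_zero)
    refine ⟨σ, hσ, ?_⟩
    rw [avoidN_iff]
    intro m
    have h4 := h3 m
    by_contra h5
    apply h4
    rw [if_neg h5]
  -- the certificate
  let S : ℕ → Prop := fun m => (PN m ∧ E m = 0) ∨ m = p
  let rl' : ℕ → ℕ → Prop := fun m m' => lt m m' ∨ ((E m = 0 ∧ PN m) ∧ m' = p)
  let H : ℕ → ℕ → ℕ := fun m k => if m = p then σ k else F (Nat.pair m k)
  let C : ℕ → ℕ := fun t => if t.unpair.1 = 0 then (if S t.unpair.2 then 0 else 1) else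
    if t.unpair.1 = 1 then (if rl' t.unpair.2.unpair.1 t.unpair.2.unpair.2 then 0 else 1) else
      H t.unpair.2.unpair.1 t.unpair.2.unpair.2
  have hC : C ∈ Rl N := by
    refine mem_Rl' hN (DR.mk (DN.ite (Dfn.eqN (DN.unpair1 (DN.var _)) (DN.const 0))
      (DN.ite (Dfn.or (Dfn.and (hP (DN.unpair2 (DN.var _))) (Dfn.eqN (DN.app (DR.const hE)
        (DN.unpair2 (DN.var _))) (DN.const 0))) (Dfn.eqN (DN.unpair2 (DN.var _)) (DN.const p)))
        (DN.const 0) (DN.const 1))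
      (DN.ite (Dfn.eqN (DN.unpair1 (DN.var _)) (DN.const 1)) (DN.ite (Dfn.or
        (hltD (DN.unpair1 (DN.unpair2 (DN.var _))) (DN.unpair2 (DN.unpair2 (DN.var _)))) (Dfn.and
        (Dfn.and (Dfn.eqN (DN.app (DR.const hE) (DN.unpair1 (DN.unpair2 (DN.var _)))) (DN.const 0))
          (hP (DN.unpair1 (DN.unpair2 (DN.var _))))) (Dfn.eqN (DN.unpair2 (DN.unpair2 (DN.var _)))
            (DN.const p)))) (DN.const 0) (DN.const 1)) ?_)))
    exact DN.ite (Dfn.eqN (DN.unpair1 (DN.unpair2 (DN.var _))) (DN.const p))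
      (DN.app (DR.const hσ) (DN.unpair2 (DN.unpair2 (DN.var _)))) (DN.app (DR.const hF)
        (DN.pair (DN.unpair1 (DN.unpair2 (DN.var _))) (DN.unpair2 (DN.unpair2 (DN.var _)))))
  have hC0 : ∀ m, C (Nat.pair 0 m) = 0 ↔ S m := by
    intro m
    simp only [C, Nat.unpair_pair, if_true]
    exact ite01
  have hC1 : ∀ m m', C (Nat.pair 1 (Nat.pair m m')) = 0 ↔ rl' m m' := by
    intro m m'
    simp only [C, Nat.unpair_pair, one_ne_zero, if_false, if_true]
    exact ite01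
  have hC2 : ∀ m k, C (Nat.pair 2 (Nat.pair m k)) = H m k := by
    intro m k
    simp only [C, Nat.unpair_pair]
    rw [if_neg (by norm_num), if_neg (by norm_num)]
  have hrp : ∀ m, ¬ rl' p m := by
    rintro m (h | h)
    · exact hEp h.2.1.1
    · exact hEp h.1.1
  have hgood : GoodC PN C := by
    refine ⟨?_, ?_⟩
    · have h3 : (fun i j => C (Nat.pair 1 (Nat.pair i j)) = 0) = rl' := by
        funext i j
        exact propext (hC1 i j)
      rw [WfN, h3]
      have hacc : ∀ m, m ≠ p → Acc rl' m := by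
        intro m
        induction m using hwf.induction with
        | _ m ih =>
          intro hm
          refine Acc.intro m fun m' hm' => ?_
          have hm'p : m' ≠ p := fun h => hrp m (by rw [← h]; exact hm')
          rcases hm' with h | h
          · exact ih m' h hm'p
          · exact (hm h.2).elim
      refine ⟨fun m => ?_⟩
      by_cases hm : m = p
      · subst hm
        refine Acc.intro m fun m' hm' => hacc m' ?_
        rintro rfl
        exact hrp _ hm'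
      · exact hacc m hm
    · intro m hm hCm
      rw [hC0] at hCm
      by_cases hmp : m = p
      · have h3 : (fun k => C (Nat.pair 2 (Nat.pair m k))) = σ := by
          funext k
          rw [hC2]
          simp only [H, if_pos hmp]
        rw [h3, hmp]
        intro t' ht' a ham
        refine hav t' ht' a ?_
        obtain ⟨hm1, hm2⟩ := ham
        rw [hC0, hC1] at hm2
        rw [hG0]
        refine ⟨hm1, fun hE' => ?_⟩
        rcases hm2 with h4 | h4
        · exact h4 (Or.inl ⟨hm1, hE'⟩)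
        · exact h4 (Or.inr ⟨⟨hE', hm1⟩, rfl⟩)
      · have hEm : E m = 0 := by
          rcases hCm with h | h
          · exact h.2
          · exact (hmp h).elim
        have h3 : (fun k => C (Nat.pair 2 (Nat.pair m k))) = fun k => F (Nat.pair m k) := by
          funext k
          rw [hC2]
          simp only [H, if_neg hmp]
        rw [h3]
        have h4 := h2 m hm (fun h => ((hG0 m).1 h).2 hEm)
        intro t' ht' a ham
        refine h4 t' ht' a ?_
        obtain ⟨hm1, hm2⟩ := ham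
        rw [hC0, hC1] at hm2
        refine ⟨hm1, ?_⟩
        rcases hm2 with h5 | h5
        · left
          rw [hG0]
          exact ⟨hm1, fun hE' => h5 (Or.inl ⟨hm1, hE'⟩)⟩
        · right
          exact fun h6 => h5 (Or.inl h6)
  exact hEp ((hE0 p).2 ⟨C, hC, hgood, hPp, (hC0 p).2 (Or.inr rfl)⟩)

end Pool.Agent.H17.GP
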