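import Pool.Agent.H17.GP.Mea

/-!
# Borel probability measures on `ω^ω` and intervals

A measure `m` on `ω^ω` gives consecutive intervals `(lo m s, hi m s)` of length `m s`, for finite sequences `s`.
-/

set_option autoImplicit false
set_option linter.unusedVariables false
set_option linter.unusedSectionVars false

universe u v w

namespace Pool.Agent.H17.GP

open MeasureTheory Pool.Agent.H19.GP

/-- The first `n` values of `y`. -/
def res (y : ℕ → ℕ) (n : ℕ) : List ℕ := (List.range n).map y

theorem res_succ (y : ℕ → ℕ) (n : ℕ) : res y (n + 1) = res y n ++ [y n] := by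
  rw [res, List.range_succ, List.map_append]; rfl

theorem res_length (y : ℕ → ℕ) (n : ℕ) : (res y n).length = n := by simp [res]

theorem dl_ini' (y : ℕ → ℕ) (n : ℕ) : dl (ini y n) = res y n := dl_ini y n

/-- Borel probability measures on `ω^ω`. -/
structure MeasV (m : List ℕ → ℝ) : Prop where
  nonneg : ∀ s, 0 ≤ m s
  one : m [] = 1
  add : ∀ s, HasSum (fun n => m (s ++ [n])) (m s)

noncomputable def lo (m : List ℕ → ℝ) (s : List ℕ) : ℝ :=
  ∑ i ∈ Finset.range s.length, ∑ j ∈ Finset.range (s.getD i 0), m (s.take i ++ [j])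

noncomputable def hi (m : List ℕ → ℝ) (s : List ℕ) : ℝ := lo m s + m s

/-- `r` is inside the interval of `s`. -/
def Mem (m : List ℕ → ℝ) (s : List ℕ) (r : ℝ) : Prop := lo m s < r ∧ r < hi m s

/-- `r` is an endpoint. -/
def Bad (m : List ℕ → ℝ) (r : ℝ) : Prop := ∃ s, r = lo m s ∨ r = hi m s

variable {m : List ℕ → ℝ}

theorem lo_nil : lo m [] = 0 := by simp [lo]

theorem lo_snoc (s : List ℕ) (n : ℕ) :
    lo m (s ++ [n]) = lo m s + ∑ j ∈ Finset.range n, m (s ++ [j]) := by
  rw [lo, List.length_append, List.length_singleton, Finset.sum_range_succ, lo]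
  congr 1
  · refine Finset.sum_congr rfl fun i hi => ?_
    rw [Finset.mem_range] at hi
    rw [List.getD_append _ _ _ _ hi, List.take_append_of_le_length hi.le]
  · rw [List.getD_append_right _ _ _ _ le_rfl, List.take_append_of_le_length le_rfl, List.take_length]
    simp

theorem hi_snoc (s : List ℕ) (n : ℕ) : hi m (s ++ [n]) = lo m (s ++ [n + 1]) := by
  rw [hi, lo_snoc, lo_snoc, Finset.sum_range_succ, add_assoc]

section

variable (hm : MeasV m)

include hm

theorem hi_nil : hi m [] = 1 := by rw [hi, lo_nil, hm.one, zero_add]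

theorem lo_le_lo_snoc (s : List ℕ) (n : ℕ) : lo m s ≤ lo m (s ++ [n]) := by
  rw [lo_snoc]
  exact le_add_of_nonneg_right (Finset.sum_nonneg fun j _ => hm.nonneg _)

theorem hi_snoc_le (s : List ℕ) (n : ℕ) : hi m (s ++ [n]) ≤ hi m s := by
  rw [hi_snoc, lo_snoc, hi]
  exact add_le_add_right (sum_le_hasSum _ (fun i _ => hm.nonneg _) (hm.add s)) _

theorem hi_le_lo_snoc {s : List ℕ} {n n' : ℕ} (h : n < n') : hi m (s ++ [n]) ≤ lo m (s ++ [n']) := by
  rw [hi_snoc, lo_snoc, lo_snoc]
  exact add_le_add_right (Finset.sum_le_sum_of_subset_of_nonneg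
    (Finset.range_subset_range.2 h) fun i _ _ => hm.nonneg _) _

theorem lo_le_hi (s : List ℕ) : lo m s ≤ hi m s := by
  rw [hi]; linarith [hm.nonneg s]

theorem lo_le_append (s t : List ℕ) : lo m s ≤ lo m (s ++ t) := by
  induction t using List.reverseRecOn with
  | nil => simp
  | append_singleton t n ih =>
    rw [← List.append_assoc]
    exact ih.trans (lo_le_lo_snoc hm _ _)

theorem hi_append_le (s t : List ℕ) : hi m (s ++ t) ≤ hi m s := by
  induction t using List.reverseRecOn with
  | nil => simp
  | append_singleton t n ih =>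
    rw [← List.append_assoc]
    exact (hi_snoc_le hm _ _).trans ih

theorem lo_nonneg (s : List ℕ) : 0 ≤ lo m s := by
  have := lo_le_append hm [] s
  rwa [lo_nil, List.nil_append] at this

theorem hi_le_one (s : List ℕ) : hi m s ≤ 1 := by
  have := hi_append_le hm [] s
  rwa [hi_nil hm, List.nil_append] at this

theorem Mem.append {s t : List ℕ} {r : ℝ} (h : Mem m (s ++ t) r) : Mem m s r :=
  ⟨(lo_le_append hm s t).trans_lt h.1, h.2.trans_le (hi_append_le hm s t)⟩

theorem Mem.take {s : List ℕ} {r : ℝ} (h : Mem m s r) (n : ℕ) : Mem m (s.take n) r := by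
  rw [← List.take_append_drop n s] at h
  exact h.append hm

/-- Intervals of the same level are consecutive. -/
theorem hi_le_lo {s t : List ℕ} (hst : s.length = t.length) (hne : s ≠ t) :
    hi m s ≤ lo m t ∨ hi m t ≤ lo m s := by
  induction s using List.reverseRecOn generalizing t with
  | nil =>
    exfalso
    apply hne
    exact (List.length_eq_zero_iff.1 hst.symm).symm
  | append_singleton s a ih =>
    rcases List.eq_nil_or_concat t with rfl | ⟨t, b, rfl⟩
    · simp at hst
    · rw [List.concat_eq_append] at hst hne ⊢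
      have hl : s.length = t.length := by simpa using hst
      by_cases h : s = t
      · subst h
        have hab : a ≠ b := fun h => hne (by rw [h])
        rcases lt_or_gt_of_ne hab with h1 | h1
        · exact Or.inl (hi_le_lo_snoc hm h1)
        · exact Or.inr (hi_le_lo_snoc hm h1)
      · rcases ih hl h with h1 | h1
        · exact Or.inl ((hi_snoc_le hm _ _).trans (h1.trans (lo_le_lo_snoc hm _ _)))
        · exact Or.inr ((hi_snoc_le hm _ _).trans (h1.trans (lo_le_lo_snoc hm _ _)))

theorem Mem.uniq {s t : List ℕ} {r : ℝ} (h : Mem m s r) (h' : Mem m t r)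
    (hst : s.length = t.length) : s = t := by
  by_contra hne
  rcases hi_le_lo hm hst hne with h1 | h1
  · exact absurd (h.2.trans_le h1) (not_lt.2 h'.1.le)
  · exact absurd (h'.2.trans_le h1) (not_lt.2 h.1.le)

theorem not_bad_of_mem {y : ℕ → ℕ} {r : ℝ} (h : ∀ n, Mem m (res y n) r) : ¬ Bad m r := by
  rintro ⟨s, hs⟩
  have h1 := h s.length
  by_cases hne : s = res y s.length
  · rw [← hne] at h1
    rcases hs with hs | hs
    · exact h1.1.ne' hs
    · exact h1.2.ne hs
  · have h2 := lo_le_hi hm s
    rcases hi_le_lo hm (res_length y s.length).symm hne with h3 | h3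
    · rcases hs with hs | hs
      · linarith [h1.1]
      · linarith [h1.1]
    · rcases hs with hs | hs
      · linarith [h1.2]
      · linarith [h1.2]

theorem exists_snoc {s : List ℕ} {r : ℝ} (h : Mem m s r) (hb : ¬ Bad m r) :
    ∃ n, Mem m (s ++ [n]) r := by
  classical
  have h1 : ∃ n, r < lo m (s ++ [n]) := by
    have h2 : Filter.Tendsto (fun n => lo m (s ++ [n])) Filter.atTop (nhds (hi m s)) := by
      have h3 := (hm.add s).tendsto_sum_nat.const_add (lo m s)
      refine h3.congr fun n => ?_
      rw [lo_snoc]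
    exact (h2.eventually_const_lt h.2).exists
  have h2 := Nat.find_spec h1
  have h3 : Nat.find h1 ≠ 0 := by
    intro h0
    rw [h0, lo_snoc, Finset.range_zero, Finset.sum_empty, add_zero] at h2
    exact absurd h2 (not_lt.2 h.1.le)
  obtain ⟨k, hk⟩ := Nat.exists_eq_succ_of_ne_zero h3
  have h4 : ¬ r < lo m (s ++ [k]) := Nat.find_min h1 (by omega)
  rw [hk] at h2
  refine ⟨k, lt_of_le_of_ne (not_lt.1 h4) (fun h5 => hb ⟨_, Or.inl h5.symm⟩), ?_⟩
  rw [hi_snoc]; exact h2

theorem exists_rel {r : ℝ} (h0 : 0 ≤ r) (h1 : r ≤ 1) (hb : ¬ Bad m r) :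
    ∃ y : ℕ → ℕ, ∀ n, Mem m (res y n) r := by
  classical
  have hnil : Mem m [] r := by
    refine ⟨?_, ?_⟩
    · refine lt_of_le_of_ne ?_ (fun h => hb ⟨[], Or.inl h.symm⟩)
      rw [lo_nil]; exact h0
    · refine lt_of_le_of_ne ?_ (fun h => hb ⟨[], Or.inr h⟩)
      rw [hi_nil hm]; exact h1
  let nx : {s : List ℕ // Mem m s r} → {s : List ℕ // Mem m s r} := fun s =>
    ⟨s.1 ++ [(exists_snoc hm s.2 hb).choose], (exists_snoc hm s.2 hb).choose_spec⟩
  let L : ℕ → {s : List ℕ // Mem m s r} := fun n => Nat.rec ⟨[], hnil⟩ (fun _ s => nx s) n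
  let y : ℕ → ℕ := fun n => (exists_snoc hm (L n).2 hb).choose
  have hL : ∀ n, res y n = (L n).1 := by
    intro n
    induction n with
    | zero => rfl
    | succ n ih => rw [res_succ, ih]
  exact ⟨y, fun n => by rw [hL]; exact (L n).2⟩

theorem Mem.eq_res {s : List ℕ} {y : ℕ → ℕ} {r : ℝ} (h : Mem m s r) (hy : ∀ n, Mem m (res y n) r) :
    res y s.length = s := ((hy s.length).uniq hm h (res_length _ _))

theorem rel_uniq {y y' : ℕ → ℕ} {r : ℝ} (hy : ∀ n, Mem m (res y n) r)
    (hy' : ∀ n, Mem m (res y' n) r) : y = y' := by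
  funext n
  have h1 : res y (n + 1) = res y' (n + 1) :=
    (hy _).uniq hm (hy' _) (by rw [res_length, res_length])
  rw [res_succ, res_succ] at h1
  have := List.append_inj_right' h1 rfl
  simpa using this

/-- The measure of the set of points in an interval. -/
theorem lam_mem (s : List ℕ) : lam {y | Mem m s (rr y)} = ENNReal.ofReal (m s) := by
  have := lam_rr_mem (lo_nonneg hm s) (lo_le_hi hm s) (hi_le_one hm s)
  rw [show hi m s - lo m s = m s by rw [hi]; ring] at this
  exact this

end

/-! ### Measures given by codes -/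

noncomputable def Mc (c : ℕ → ℕ) (s : List ℕ) : ℝ :=
  (⨆ t : ℕ, if c (Nat.pair (Encodable.encode s) t) = 0 then
    ((t.unpair.1 : ENNReal) / (t.unpair.2 : ENNReal)) else 0).toReal

theorem Mc_eq {c : ℕ → ℕ} (hm : ∀ s, 0 ≤ m s) (hc : ∀ (s : List ℕ) (p q : ℕ),
    c (Nat.pair (Encodable.encode s) (Nat.pair p q)) = 0 ↔ (p : ℝ) < q * m s) : Mc c = m := by
  funext s
  have key : (⨆ t : ℕ, if c (Nat.pair (Encodable.encode s) t) = 0 then
      ((t.unpair.1 : ENNReal) / (t.unpair.2 : ENNReal)) else 0) = ENNReal.ofReal (m s) := by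
    apply le_antisymm
    · refine iSup_le fun t => ?_
      split_ifs with h
      · have h1 : (t.unpair.1 : ℝ) < t.unpair.2 * m s := by
          rw [← hc, Nat.pair_unpair]; exact h
        have h2 : (0 : ℝ) < t.unpair.2 := by
          rcases Nat.eq_zero_or_pos t.unpair.2 with h3 | h3
          · rw [h3, Nat.cast_zero, zero_mul] at h1
            exact absurd h1 (not_lt.2 (Nat.cast_nonneg _))
          · exact_mod_cast h3
        have h3 : ((t.unpair.1 : ENNReal) / (t.unpair.2 : ENNReal)) =
            ENNReal.ofReal ((t.unpair.1 : ℝ) / t.unpair.2) := by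
          rw [ENNReal.ofReal_div_of_pos h2, ENNReal.ofReal_natCast, ENNReal.ofReal_natCast]
        rw [h3]
        apply ENNReal.ofReal_le_ofReal
        rw [div_le_iff₀ h2]
        linarith
      · exact bot_le
    · refine le_of_forall_lt fun x hx => ?_
      have hx' : x ≠ ⊤ := (hx.trans ENNReal.ofReal_lt_top).ne
      have h1 : x.toReal < m s := by
        rw [← ENNReal.ofReal_toReal hx'] at hx
        exact (ENNReal.ofReal_lt_ofReal_iff_of_nonneg ENNReal.toReal_nonneg).1 hx
      obtain ⟨r, hr1, hr2⟩ := exists_rat_btwn h1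
      have hr0 : 0 < r := by
        have : (0 : ℝ) < r := lt_of_le_of_lt ENNReal.toReal_nonneg hr1
        exact_mod_cast this
      have hnum : ((r.num.toNat : ℕ) : ℝ) = (r.num : ℝ) := by
        have : ((r.num.toNat : ℕ) : ℤ) = r.num := Int.toNat_of_nonneg (Rat.num_pos.2 hr0).le
        exact_mod_cast congrArg (Int.cast : ℤ → ℝ) this
      have hden : (0 : ℝ) < r.den := by exact_mod_cast r.den_pos
      have hrd : (r : ℝ) = (r.num.toNat : ℝ) / r.den := by
        rw [hnum]
        exact_mod_cast (Rat.num_div_den r).symm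
      have h2 : c (Nat.pair (Encodable.encode s) (Nat.pair r.num.toNat r.den)) = 0 := by
        rw [hc, mul_comm, ← div_lt_iff₀ hden, ← hrd]
        exact hr2
      refine lt_of_lt_of_le ?_ (le_iSup _ (Nat.pair r.num.toNat r.den))
      rw [if_pos h2, Nat.unpair_pair]
      show x < ((r.num.toNat : ℕ) : ENNReal) / ((r.den : ℕ) : ENNReal)
      have h3 : ((r.num.toNat : ENNReal) / (r.den : ENNReal)) =
          ENNReal.ofReal ((r.num.toNat : ℝ) / r.den) := by
        rw [ENNReal.ofReal_div_of_pos hden, ENNReal.ofReal_natCast, ENNReal.ofReal_natCast]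
      rw [h3, ← hrd, ← ENNReal.ofReal_toReal hx']
      exact (ENNReal.ofReal_lt_ofReal_iff_of_nonneg ENNReal.toReal_nonneg).2 hr1
  rw [Mc, key, ENNReal.toReal_ofReal (hm s)]

theorem measurable_Mc (s : List ℕ) : Measurable (fun c => Mc c s) := by
  apply Measurable.ennreal_toReal
  apply Measurable.iSup
  intro t
  refine Measurable.ite ?_ measurable_const measurable_const
  exact measurableSet_eq_fun (measurable_pi_apply _) measurable_const

theorem measurable_lo (s : List ℕ) : Measurable (fun c => lo (Mc c) s) := by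
  simp only [lo]
  exact Finset.measurable_fun_sum _ fun i _ => Finset.measurable_fun_sum _ fun j _ => measurable_Mc _

theorem measurable_hi (s : List ℕ) : Measurable (fun c => hi (Mc c) s) := by
  simp only [hi]
  exact (measurable_lo s).add (measurable_Mc s)

end Pool.Agent.H17.GP
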