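import Pool.Agent.H17.GP.Cod
import Pool.Agent.H19.GP.Sys
import Mathlib.Probability.ProductMeasure

/-!
# Lebesgue measure on `2^ω` and the order of `[0, 1]`

`vL L y` is the natural number whose binary expansion is `y 0, ..., y (L - 1)`; `rr y` is the real number
`0.y(0)y(1)...` in base 2.
-/

set_option autoImplicit false
set_option linter.unusedVariables false
set_option linter.unusedSectionVars false

universe u v w

namespace Pool.Agent.H17.GP

open MeasureTheory Pool.Agent.H19.GP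

instance : IsProbabilityMeasure coin := by
  constructor
  rw [coin, Measure.smul_apply, Measure.count_univ]
  simp [ENat.card_eq_coe_fintype_card]
  exact ENNReal.inv_mul_cancel (by norm_num) (by norm_num)

instance : IsProbabilityMeasure lam := by
  rw [lam]; infer_instance

theorem coin_singleton (b : Bool) : coin {b} = (1 / 2 : ENNReal) := by
  rw [coin, Measure.smul_apply, Measure.count_singleton]
  simp

/-- Binary value of the first `L` bits. -/
def vL : ℕ → (ℕ → Bool) → ℕ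
  | 0, _ => 0
  | L + 1, y => 2 * vL L y + (if y L then 1 else 0)

theorem vL_congr {L : ℕ} {y y' : ℕ → Bool} (h : ∀ i < L, y i = y' i) : vL L y = vL L y' := by
  induction L with
  | zero => rfl
  | succ L ih =>
    rw [vL, vL, ih fun i hi => h i (by omega), h L (by omega)]

theorem vL_lt (L : ℕ) (y : ℕ → Bool) : vL L y < 2 ^ L := by
  induction L with
  | zero => simp [vL]
  | succ L ih =>
    rw [vL, pow_succ]
    split_ifs <;> omega

/-- The list of the `L` binary digits of `v`. -/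
def bits : ℕ → ℕ → List Bool
  | 0, _ => []
  | L + 1, v => bits L (v / 2) ++ [decide (v % 2 = 1)]

theorem bits_length (L v : ℕ) : (bits L v).length = L := by
  induction L generalizing v with
  | zero => rfl
  | succ L ih => rw [bits, List.length_append, ih]; rfl

theorem extB_snoc (y : ℕ → Bool) (s : List Bool) (b : Bool) : ExtB y (s ++ [b]) ↔ ExtB y s ∧ y s.length = b := by
  rw [ExtB, ExtB, List.length_append, List.length_singleton, List.range_succ, List.map_append]
  constructor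
  · intro h
    have h1 := List.append_inj h (by simp)
    exact ⟨h1.1, by simpa using h1.2⟩
  · rintro ⟨h1, h2⟩
    rw [h1]; simp [h2]

theorem vL_eq_iff {L v : ℕ} (hv : v < 2 ^ L) (y : ℕ → Bool) : vL L y = v ↔ ExtB y (bits L v) := by
  induction L generalizing v with
  | zero =>
    simp only [pow_zero, Nat.lt_one_iff] at hv
    subst hv
    simp [vL, bits, ExtB]
  | succ L ih =>
    rw [pow_succ] at hv
    rw [vL, bits, extB_snoc, bits_length, ← ih (by omega : v / 2 < 2 ^ L)]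
    constructor
    · intro h
      rcases Bool.eq_false_or_eq_true (y L) with h1 | h1
      · rw [h1] at h ⊢
        simp only [if_true] at h
        exact ⟨by omega, by simp; omega⟩
      · rw [h1] at h ⊢
        simp only [Bool.false_eq_true, if_false] at h
        exact ⟨by omega, by simp; omega⟩
    · rintro ⟨h1, h2⟩
      rw [h1, h2]
      by_cases h3 : v % 2 = 1
      · simp only [h3, decide_true, if_true]; omega
      · simp only [h3, decide_false, Bool.false_eq_true, if_false]; omega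

theorem extB_iff (y : ℕ → Bool) (s : List Bool) : ExtB y s ↔ ∀ i < s.length, y i = s.getD i false := by
  rw [ExtB]
  constructor
  · intro h i hi
    conv_rhs => rw [← h]
    rw [List.getD_eq_getElem _ _ (by simpa using hi)]
    simp
  · intro h
    apply List.ext_getElem
    · simp
    · intro i h1 h2
      rw [List.getElem_map, List.getElem_range, h i h2, List.getD_eq_getElem _ _ h2]

theorem setOf_extB (s : List Bool) : {y | ExtB y s} =
    ((Finset.range s.length : Finset ℕ) : Set ℕ).pi (fun i => {s.getD i false}) := by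
  ext y
  rw [Set.mem_ofPred_eq, extB_iff, Set.mem_pi]
  simp

theorem measurableSet_extB (s : List Bool) : MeasurableSet {y | ExtB y s} := by
  rw [setOf_extB]
  exact MeasurableSet.pi (Finset.countable_toSet _) fun i _ => measurableSet_singleton _

theorem isOpen_extB (s : List Bool) : IsOpen {y | ExtB y s} := by
  rw [setOf_extB]
  exact isOpen_set_pi (Finset.finite_toSet _) fun i _ => isOpen_discrete _

theorem lam_extB (s : List Bool) : lam {y | ExtB y s} = (1 / 2 : ENNReal) ^ s.length := by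
  rw [setOf_extB, lam, Measure.infinitePi_pi _ (fun i _ => measurableSet_singleton _)]
  simp only [coin_singleton, Finset.prod_const, Finset.card_range]

theorem measurable_vL (L : ℕ) : Measurable (vL L) := by
  induction L with
  | zero => exact measurable_const
  | succ L ih =>
    have : Measurable (fun y : ℕ → Bool => (if y L then 1 else 0 : ℕ)) :=
      (measurable_of_countable (fun b : Bool => (if b then 1 else 0 : ℕ))).comp (measurable_pi_apply L)
    exact (ih.const_mul 2).add this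

theorem lam_vL_eq {L v : ℕ} (hv : v < 2 ^ L) : lam {y | vL L y = v} = (1 / 2 : ENNReal) ^ L := by
  have : {y | vL L y = v} = {y | ExtB y (bits L v)} := by
    ext y; exact vL_eq_iff hv y
  rw [this, lam_extB, bits_length]

theorem lam_vL_lt {L k : ℕ} (hk : k ≤ 2 ^ L) : lam {y | vL L y < k} = k * (1 / 2 : ENNReal) ^ L := by
  induction k with
  | zero => simp
  | succ k ih =>
    have h1 : {y | vL L y < k + 1} = {y | vL L y < k} ∪ {y | vL L y = k} := by
      ext y
      simp only [Set.mem_ofPred_eq, Set.mem_union]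
      omega
    rw [h1, measure_union _ (measurableSet_eq_fun (measurable_vL L) measurable_const), ih (by omega),
      lam_vL_eq (by omega)]
    · push_cast; ring
    · rw [Set.disjoint_left]
      intro y hy hy'
      simp only [Set.mem_ofPred_eq] at hy hy'
      omega

theorem vL_succ_le (L : ℕ) (y : ℕ → Bool) :
    (vL L y : ℝ) / 2 ^ L ≤ vL (L + 1) y / 2 ^ (L + 1) ∧
      ((vL (L + 1) y : ℝ) + 1) / 2 ^ (L + 1) ≤ (vL L y + 1) / 2 ^ L := by
  have h1 : (0 : ℝ) < 2 ^ L := by positivity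
  have h2 : (0 : ℝ) < 2 ^ (L + 1) := by positivity
  have h3 : (2 * vL L y : ℝ) ≤ vL (L + 1) y := by
    exact_mod_cast (by rw [vL]; split_ifs <;> omega : 2 * vL L y ≤ vL (L + 1) y)
  have h4 : (vL (L + 1) y : ℝ) ≤ 2 * vL L y + 1 := by
    exact_mod_cast (by rw [vL]; split_ifs <;> omega : vL (L + 1) y ≤ 2 * vL L y + 1)
  constructor
  · rw [div_le_div_iff₀ h1 h2, pow_succ]; nlinarith
  · rw [div_le_div_iff₀ h2 h1, pow_succ]; nlinarith

theorem vL_mono (y : ℕ → Bool) : Monotone (fun L => (vL L y : ℝ) / 2 ^ L) :=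
  monotone_nat_of_le_succ fun L => (vL_succ_le L y).1

theorem vL_anti (y : ℕ → Bool) : Antitone (fun L => ((vL L y : ℝ) + 1) / 2 ^ L) :=
  antitone_nat_of_succ_le fun L => (vL_succ_le L y).2

theorem vL_le_vL (y : ℕ → Bool) (L L' : ℕ) : (vL L y : ℝ) / 2 ^ L ≤ (vL L' y + 1) / 2 ^ L' := by
  have h1 := vL_mono y (le_max_left L L')
  have h2 := vL_anti y (le_max_right L L')
  have h3 : (vL (max L L') y : ℝ) / 2 ^ (max L L') ≤ (vL (max L L') y + 1) / 2 ^ (max L L') := by
    apply div_le_div_of_nonneg_right _ (by positivity)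
    linarith
  exact h1.trans (h3.trans h2)

/-- The real number with binary expansion `y`. -/
noncomputable def rr (y : ℕ → Bool) : ℝ := ⨆ L, (vL L y : ℝ) / 2 ^ L

theorem bdd_vL (y : ℕ → Bool) : BddAbove (Set.range fun L => (vL L y : ℝ) / 2 ^ L) :=
  ⟨(vL 0 y + 1) / 2 ^ 0, by rintro _ ⟨L, rfl⟩; exact vL_le_vL y L 0⟩

theorem vL_le_rr (y : ℕ → Bool) (L : ℕ) : (vL L y : ℝ) / 2 ^ L ≤ rr y := le_ciSup (bdd_vL y) L

theorem rr_le_vL (y : ℕ → Bool) (L : ℕ) : rr y ≤ (vL L y + 1) / 2 ^ L := ciSup_le fun L' => vL_le_vL y L' L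

theorem rr_nonneg (y : ℕ → Bool) : 0 ≤ rr y := by
  have := vL_le_rr y 0
  simpa [vL] using this

theorem rr_le_one (y : ℕ → Bool) : rr y ≤ 1 := by
  have := rr_le_vL y 0
  simpa [vL] using this

theorem measurable_rr : Measurable rr := by
  apply Measurable.iSup
  intro L
  exact (measurable_from_nat.comp (measurable_vL L)).div_const _

theorem continuous_rr : Continuous rr := by
  rw [continuous_iff_continuousAt]
  intro y
  rw [ContinuousAt, Metric.tendsto_nhds]
  intro ε hε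
  obtain ⟨L, hL⟩ := exists_pow_lt_of_lt_one hε (by norm_num : (1 / 2 : ℝ) < 1)
  have h1 : ∀ᶠ y' in nhds y, ExtB y' ((List.range L).map y) := by
    apply (isOpen_extB ((List.range L).map y)).mem_nhds
    show ExtB y _
    rw [ExtB, List.length_map, List.length_range]
  filter_upwards [h1] with y' hy'
  have h2 : vL L y' = vL L y := by
    apply vL_congr
    intro i hi
    rw [extB_iff] at hy'
    have := hy' i (by simpa using hi)
    rw [this, List.getD_eq_getElem _ _ (by simpa using hi)]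
    simp
  have h3 := vL_le_rr y L
  have h4 := rr_le_vL y L
  have h5 := vL_le_rr y' L
  have h6 := rr_le_vL y' L
  rw [h2] at h5 h6
  have h7 : ((vL L y : ℝ) + 1) / 2 ^ L = vL L y / 2 ^ L + (1 / 2) ^ L := by
    rw [add_div, one_div_pow]
  rw [h7] at h4 h6
  rw [Real.dist_eq, abs_lt]
  constructor <;> linarith

theorem lt_rr_iff (y : ℕ → Bool) (a : ℝ) : a < rr y ↔ ∃ L, a < (vL L y : ℝ) / 2 ^ L := lt_ciSup_iff (bdd_vL y)

theorem rr_lt_iff (y : ℕ → Bool) (b : ℝ) : rr y < b ↔ ∃ L, ((vL L y : ℝ) + 1) / 2 ^ L < b := by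
  constructor
  · intro h
    obtain ⟨L, hL⟩ := exists_pow_lt_of_lt_one (sub_pos.2 h) (by norm_num : (1 / 2 : ℝ) < 1)
    refine ⟨L, ?_⟩
    have h3 := vL_le_rr y L
    have h7 : ((vL L y : ℝ) + 1) / 2 ^ L = vL L y / 2 ^ L + (1 / 2) ^ L := by
      rw [add_div, one_div_pow]
    rw [h7]; linarith
  · rintro ⟨L, hL⟩
    exact (rr_le_vL y L).trans_lt hL

/-- The dyadic interval of level `L` of `y` is inside `(a, b)`. -/
def InI (a b : ℝ) (L v : ℕ) : Prop := a < (v : ℝ) / 2 ^ L ∧ ((v : ℝ) + 1) / 2 ^ L < b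

theorem inI_mono {a b : ℝ} {y : ℕ → Bool} {L L' : ℕ} (h : L ≤ L') (h1 : InI a b L (vL L y)) :
    InI a b L' (vL L' y) := ⟨h1.1.trans_le (vL_mono y h), (vL_anti y h).trans_lt h1.2⟩

theorem rr_mem_iff {a b : ℝ} {y : ℕ → Bool} : (a < rr y ∧ rr y < b) ↔ ∃ L, InI a b L (vL L y) := by
  constructor
  · rintro ⟨h1, h2⟩
    obtain ⟨L, hL⟩ := (lt_rr_iff y a).1 h1
    obtain ⟨L', hL'⟩ := (rr_lt_iff y b).1 h2
    exact ⟨max L L', hL.trans_le (vL_mono y (le_max_left _ _)),
      (vL_anti y (le_max_right _ _)).trans_lt hL'⟩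
  · rintro ⟨L, h1, h2⟩
    exact ⟨h1.trans_le (vL_le_rr y L), (rr_le_vL y L).trans_lt h2⟩

theorem lam_rr_le {a : ℝ} (h0 : 0 ≤ a) : lam {y | rr y ≤ a} ≤ ENNReal.ofReal a := by
  rcases le_or_gt 1 a with h1 | h1
  · refine prob_le_one.trans ?_
    rw [← ENNReal.ofReal_one]
    exact ENNReal.ofReal_le_ofReal h1
  refine le_of_forall_pos_le_add fun ε hε => ?_
  by_cases hε' : ε = ⊤
  · rw [hε']; simp
  obtain ⟨L, hL⟩ := exists_pow_lt_of_lt_one (ENNReal.toReal_pos hε.ne' hε')
    (by norm_num : (1 / 2 : ℝ) < 1)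
  have h2 : {y | rr y ≤ a} ⊆ {y | vL L y < ⌊a * 2 ^ L⌋₊ + 1} := by
    intro y hy
    have h3 : (vL L y : ℝ) / 2 ^ L ≤ a := (vL_le_rr y L).trans hy
    rw [div_le_iff₀ (by positivity)] at h3
    exact Nat.lt_succ_of_le (Nat.le_floor h3)
  have h4 : ⌊a * 2 ^ L⌋₊ + 1 ≤ 2 ^ L := by
    rw [Nat.succ_le_iff, Nat.floor_lt (by positivity)]
    push_cast
    have : (0 : ℝ) < 2 ^ L := by positivity
    nlinarith
  refine (measure_mono h2).trans ?_
  rw [lam_vL_lt h4]
  have h5 : ((⌊a * 2 ^ L⌋₊ + 1 : ℕ) : ENNReal) * (1 / 2) ^ L =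
      ENNReal.ofReal ((⌊a * 2 ^ L⌋₊ + 1 : ℕ) * (1 / 2) ^ L) := by
    rw [ENNReal.ofReal_mul (by positivity), ENNReal.ofReal_natCast, ENNReal.ofReal_pow (by positivity)]
    congr 2
    rw [ENNReal.ofReal_div_of_pos (by norm_num)]
    simp
  rw [h5]
  have h6 : ((⌊a * 2 ^ L⌋₊ + 1 : ℕ) : ℝ) * (1 / 2) ^ L ≤ a + ε.toReal := by
    have h7 := Nat.floor_le (by positivity : 0 ≤ a * 2 ^ L)
    have h8 : (0 : ℝ) < (1 / 2) ^ L := by positivity
    have h9 : (2 : ℝ) ^ L * (1 / 2) ^ L = 1 := by rw [← mul_pow]; norm_num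
    push_cast
    calc ((⌊a * 2 ^ L⌋₊ : ℝ) + 1) * (1 / 2) ^ L ≤ (a * 2 ^ L + 1) * (1 / 2) ^ L := by
          apply mul_le_mul_of_nonneg_right _ h8.le
          linarith
      _ = a * (2 ^ L * (1 / 2) ^ L) + (1 / 2) ^ L := by ring
      _ ≤ a + ε.toReal := by rw [h9]; linarith
  refine (ENNReal.ofReal_le_ofReal h6).trans ?_
  rw [ENNReal.ofReal_add h0 ENNReal.toReal_nonneg, ENNReal.ofReal_toReal hε']

theorem le_lam_rr {b : ℝ} (h1 : b ≤ 1) : ENNReal.ofReal b ≤ lam {y | rr y < b} := by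
  rcases le_or_gt b 0 with h0 | h0
  · rw [ENNReal.ofReal_of_nonpos h0]; exact bot_le
  refine le_of_forall_pos_le_add fun ε hε => ?_
  by_cases hε' : ε = ⊤
  · rw [hε']; simp
  obtain ⟨L, hL⟩ := exists_pow_lt_of_lt_one (ENNReal.toReal_pos hε.ne' hε')
    (by norm_num : (1 / 2 : ℝ) < 1)
  have h8 : (0 : ℝ) < (1 / 2) ^ L := by positivity
  have h9 : (2 : ℝ) ^ L * (1 / 2) ^ L = 1 := by rw [← mul_pow]; norm_num
  have hpos : (0 : ℝ) < b * 2 ^ L := by positivity
  have hc : 0 < ⌈b * 2 ^ L⌉₊ := Nat.ceil_pos.2 hpos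
  have hc1 : ((⌈b * 2 ^ L⌉₊ - 1 : ℕ) : ℝ) < b * 2 ^ L := by
    rw [← Nat.lt_ceil]; omega
  have h2 : {y | vL L y < ⌈b * 2 ^ L⌉₊ - 1} ⊆ {y | rr y < b} := by
    intro y hy
    have h3 : vL L y + 1 ≤ ⌈b * 2 ^ L⌉₊ - 1 := hy
    have h4 : (vL L y : ℝ) + 1 < b * 2 ^ L := by
      have : ((vL L y + 1 : ℕ) : ℝ) ≤ ((⌈b * 2 ^ L⌉₊ - 1 : ℕ) : ℝ) := by exact_mod_cast h3
      push_cast at this
      linarith
    refine (rr_le_vL y L).trans_lt ?_
    rw [div_lt_iff₀ (by positivity)]
    exact h4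
  have h4 : ⌈b * 2 ^ L⌉₊ - 1 ≤ 2 ^ L := by
    have h5 : ⌈b * 2 ^ L⌉₊ ≤ 2 ^ L := by
      rw [Nat.ceil_le]
      push_cast
      have : (0 : ℝ) < 2 ^ L := by positivity
      nlinarith
    omega
  refine le_trans ?_ (add_le_add_left (measure_mono h2) ε)
  rw [lam_vL_lt h4]
  have h5 : ((⌈b * 2 ^ L⌉₊ - 1 : ℕ) : ENNReal) * (1 / 2) ^ L =
      ENNReal.ofReal ((⌈b * 2 ^ L⌉₊ - 1 : ℕ) * (1 / 2) ^ L) := by
    rw [ENNReal.ofReal_mul (by positivity), ENNReal.ofReal_natCast, ENNReal.ofReal_pow (by positivity)]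
    congr 2
    rw [ENNReal.ofReal_div_of_pos (by norm_num)]
    simp
  rw [h5, ← ENNReal.ofReal_toReal hε', ← ENNReal.ofReal_add (by positivity) ENNReal.toReal_nonneg]
  apply ENNReal.ofReal_le_ofReal
  have h7 : b * 2 ^ L ≤ ((⌈b * 2 ^ L⌉₊ - 1 : ℕ) : ℝ) + 1 := by
    have := Nat.le_ceil (b * 2 ^ L)
    rw [Nat.cast_sub (by omega)]
    push_cast
    linarith
  calc b = b * 2 ^ L * (1 / 2) ^ L := by rw [mul_assoc, h9, mul_one]
    _ ≤ (((⌈b * 2 ^ L⌉₊ - 1 : ℕ) : ℝ) + 1) * (1 / 2) ^ L := mul_le_mul_of_nonneg_right h7 h8.le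
    _ = ((⌈b * 2 ^ L⌉₊ - 1 : ℕ) : ℝ) * (1 / 2) ^ L + (1 / 2) ^ L := by ring
    _ ≤ _ := by linarith

/-- The measure of an interval. -/
theorem lam_rr_mem {a b : ℝ} (h0 : 0 ≤ a) (hab : a ≤ b) (h1 : b ≤ 1) :
    lam {y | a < rr y ∧ rr y < b} = ENNReal.ofReal (b - a) := by
  have hsub : ∀ x : ℝ, {y | rr y < x} ⊆ {y | rr y ≤ x} := fun x y hy => le_of_lt (show rr y < x from hy)
  have hle : ∀ {x : ℝ}, 0 ≤ x → x ≤ 1 → lam {y | rr y ≤ x} = ENNReal.ofReal x := by
    intro x hx hx'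
    refine le_antisymm (lam_rr_le hx) ((le_lam_rr hx').trans (measure_mono (hsub x)))
  have hlt : ∀ {x : ℝ}, 0 ≤ x → x ≤ 1 → lam {y | rr y < x} = ENNReal.ofReal x := by
    intro x hx hx'
    refine le_antisymm ((measure_mono (hsub x)).trans (lam_rr_le hx)) (le_lam_rr hx')
  rcases hab.eq_or_lt with rfl | hab
  · rw [sub_self, ENNReal.ofReal_zero]
    have : {y | a < rr y ∧ rr y < a} = ∅ := by
      ext y
      simp only [Set.mem_ofPred_eq, Set.mem_empty_iff_false, iff_false, not_and, not_lt]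
      exact fun h => h.le
    rw [this, measure_empty]
  · have h2 : {y | a < rr y ∧ rr y < b} = {y | rr y < b} \ {y | rr y ≤ a} := by
      ext y
      simp only [Set.mem_ofPred_eq, Set.mem_sdiff, not_le]
      exact and_comm
    have h3 : {y | rr y ≤ a} ⊆ {y | rr y < b} := fun y hy => lt_of_le_of_lt (show rr y ≤ a from hy) hab
    rw [h2, measure_sdiff h3
      (measurableSet_le measurable_rr measurable_const).nullMeasurableSet (measure_ne_top _ _),
      hlt (h0.trans hab.le) h1, hle h0 (hab.le.trans h1), ENNReal.ofReal_sub _ h0]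

end Pool.Agent.H17.GP
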