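import Pool.Agent.H17.GP.CovB
import Pool.Agent.H17.GP.RedB

/-!
# Goldstern's principle for `Δ¹₂` sets: from Lebesgue measure on `2^ω` to all Borel probability measures on `ω^ω`
-/

set_option autoImplicit false
set_option linter.unusedVariables false
set_option linter.unusedSectionVars false

universe u v w

namespace Pool.Agent.H17.GP

open MeasureTheory Pool.Agent.H17.Omega CTM Pool.Agent.H19.GP

/-! ### The Borel sets -/

/-- `t = ((c, y'), y)`. -/
def WD : Set (ℕ → ℕ) := {t | ∀ n, Mem (Mc (fstR (fstR t))) (res (sndR t) n) (rr (toB (sndR (fstR t))))}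

/-- `t = (c, y')`. -/
def WB : Set (ℕ → ℕ) := {t | Bad (Mc (fstR t)) (rr (toB (sndR t)))}

/-- `t = ((c, u, β, n), y')`, `n 0 = (k, s)`. -/
def WS : Set (ℕ → ℕ) := {t | toB (sndR t) ∈ Kset (fstR (sndR (fstR t))) (fstR (sndR (sndR (fstR t))))
    (sndR (sndR (sndR (fstR t))) 0).unpair.1 ∧ Mem (Mc (fstR (fstR t)))
    (dl (sndR (sndR (sndR (fstR t))) 0).unpair.2) (rr (toB (sndR t)))}

/-- `t = ((c, u, β, n, y), y')`. -/
def WL : Set (ℕ → ℕ) := {t | toB (sndR t) ∈ Kset (fstR (sndR (fstR t))) (fstR (sndR (sndR (fstR t))))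
    (fstR (sndR (sndR (sndR (fstR t)))) 0) ∧ ∀ n, Mem (Mc (fstR (fstR t)))
    (res (sndR (sndR (sndR (sndR (fstR t))))) n) (rr (toB (sndR t)))}

theorem measurable_toB : Measurable toB := by
  rw [measurable_pi_iff]
  intro n
  exact (measurable_of_countable (fun k : ℕ => decide (k ≠ 0))).comp (measurable_pi_apply n)

theorem measurable_ini (n : ℕ) : Measurable (fun y : ℕ → ℕ => ini y n) := by
  induction n with
  | zero => exact measurable_const
  | succ n ih =>
    simp only [ini_succ]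
    exact (measurable_of_countable (fun p : ℕ × ℕ => snocN p.1 p.2)).comp
      (ih.prodMk (measurable_pi_apply n))

theorem measurableSet_Mem {X : Type*} [MeasurableSpace X] {c : X → ℕ → ℕ} {s : X → ℕ} {r : X → ℝ}
    (hc : Measurable c) (hs : Measurable s) (hr : Measurable r) :
    MeasurableSet {x | Mem (Mc (c x)) (dl (s x)) (r x)} := by
  refine measurableSet_index (P := fun n x => Mem (Mc (c x)) (dl n) (r x)) (fun n => ?_) hs
  exact (measurableSet_lt ((measurable_lo _).comp hc) hr).inter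
    (measurableSet_lt hr ((measurable_hi _).comp hc))

theorem measurableSet_Kset {X : Type*} [MeasurableSpace X] {u β : X → ℕ → ℕ} {k : X → ℕ}
    {y : X → ℕ → Bool} (hu : Measurable u) (hβ : Measurable β) (hk : Measurable k) (hy : Measurable y) :
    MeasurableSet {x | y x ∈ Kset (u x) (β x) (k x)} := by
  have h1 : ∀ {u : X → ℕ → ℕ}, Measurable u → MeasurableSet {x | ∀ i, ¬ ExtB (y x)
      (dlB (u x (Nat.pair (k x) i)))} := by
    intro u hu
    rw [show {x | ∀ i, ¬ ExtB (y x) (dlB (u x (Nat.pair (k x) i)))} =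
      ⋂ i : ℕ, {x | ExtB (y x) (dlB (u x (Nat.pair (k x) i)))}ᶜ by ext x; simp]
    refine MeasurableSet.iInter fun i => MeasurableSet.compl ?_
    have h2 : Measurable (fun x => u x (Nat.pair (k x) i)) :=
      measurable_index (f := fun n x => u x (Nat.pair n i))
        (fun n => (measurable_pi_apply _).comp hu) hk
    exact measurableSet_index (P := fun n x => ExtB (y x) (dlB n))
      (fun n => hy (measurableSet_extB (dlB n))) h2
  exact (h1 hu).inter (h1 hβ)

theorem measurable_coord (n : ℕ) {X : Type*} [MeasurableSpace X] {f : X → ℕ → ℕ} (hf : Measurable f) :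
    Measurable (fun x => f x n) := (measurable_pi_apply n).comp hf

theorem measurableSet_WD : MeasurableSet WD := by
  rw [show WD = ⋂ n : ℕ, {t | Mem (Mc (fstR (fstR t))) (dl (ini (sndR t) n))
      (rr (toB (sndR (fstR t))))} by ext t; simp [WD, dl_ini']]
  refine MeasurableSet.iInter fun n => measurableSet_Mem (measurable_fstR.comp measurable_fstR)
    ((measurable_ini n).comp measurable_sndR) ?_
  exact measurable_rr.comp (measurable_toB.comp (measurable_sndR.comp measurable_fstR))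

theorem measurableSet_WB : MeasurableSet WB := by
  have h : ∀ s : List ℕ, MeasurableSet {t : ℕ → ℕ | rr (toB (sndR t)) = lo (Mc (fstR t)) s ∨
      rr (toB (sndR t)) = hi (Mc (fstR t)) s} := fun s =>
    (measurableSet_eq_fun (measurable_rr.comp (measurable_toB.comp measurable_sndR))
      ((measurable_lo s).comp measurable_fstR)).union
    (measurableSet_eq_fun (measurable_rr.comp (measurable_toB.comp measurable_sndR))
      ((measurable_hi s).comp measurable_fstR))
  rw [show WB = ⋃ s : List ℕ, {t : ℕ → ℕ | rr (toB (sndR t)) = lo (Mc (fstR t)) s ∨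
      rr (toB (sndR t)) = hi (Mc (fstR t)) s} by ext t; simp [WB, Bad]]
  exact MeasurableSet.iUnion h

theorem measurableSet_WS : MeasurableSet WS := by
  have h1 : Measurable (fun t : ℕ → ℕ => sndR (fstR t)) := measurable_sndR.comp measurable_fstR
  have h2 : Measurable (fun t : ℕ → ℕ => sndR (sndR (fstR t))) := measurable_sndR.comp h1
  have h3 : Measurable (fun t : ℕ → ℕ => sndR (sndR (sndR (fstR t))) 0) :=
    measurable_coord 0 (measurable_sndR.comp h2)
  refine MeasurableSet.inter (measurableSet_Kset (measurable_fstR.comp h1) (measurable_fstR.comp h2)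
    ((measurable_of_countable (fun n : ℕ => n.unpair.1)).comp h3) (measurable_toB.comp measurable_sndR))
    (measurableSet_Mem (measurable_fstR.comp measurable_fstR)
      ((measurable_of_countable (fun n : ℕ => n.unpair.2)).comp h3)
      (measurable_rr.comp (measurable_toB.comp measurable_sndR)))

theorem measurableSet_WL : MeasurableSet WL := by
  have h1 : Measurable (fun t : ℕ → ℕ => sndR (fstR t)) := measurable_sndR.comp measurable_fstR
  have h2 : Measurable (fun t : ℕ → ℕ => sndR (sndR (fstR t))) := measurable_sndR.comp h1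
  have h3 : Measurable (fun t : ℕ → ℕ => sndR (sndR (sndR (fstR t)))) := measurable_sndR.comp h2
  have h4 : MeasurableSet {t : ℕ → ℕ | ∀ n, Mem (Mc (fstR (fstR t)))
      (res (sndR (sndR (sndR (sndR (fstR t))))) n) (rr (toB (sndR t)))} := ?_
  · exact MeasurableSet.inter (measurableSet_Kset (measurable_fstR.comp h1) (measurable_fstR.comp h2)
      (measurable_coord 0 (measurable_fstR.comp h3)) (measurable_toB.comp measurable_sndR)) h4
  rw [show {t : ℕ → ℕ | ∀ n, Mem (Mc (fstR (fstR t))) (res (sndR (sndR (sndR (sndR (fstR t))))) n)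
      (rr (toB (sndR t)))} = ⋂ n : ℕ, {t : ℕ → ℕ | Mem (Mc (fstR (fstR t)))
      (dl (ini (sndR (sndR (sndR (sndR (fstR t))))) n)) (rr (toB (sndR t)))} by
        ext t; simp [dl_ini']]
  exact MeasurableSet.iInter fun n => measurableSet_Mem (measurable_fstR.comp measurable_fstR)
    ((measurable_ini n).comp (measurable_sndR.comp h3))
    (measurable_rr.comp (measurable_toB.comp measurable_sndR))

/-! ### Closure of the pointclass -/

variable {N : Set ZFSet.{u}} (hN : CTM N)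

include hN

theorem sig12B_congr {A B : (ℕ → ℕ) → (ℕ → Bool) → Prop} (h : Sig12B (Rl N) A)
    (hAB : ∀ x ∈ Rl N, ∀ y, b2n y ∈ Rl N → (A x y ↔ B x y)) : Sig12B (Rl N) B := by
  obtain ⟨c, hc, h1⟩ := h
  exact ⟨c, hc, fun x hx y hy => (hAB x hx y hy).symm.trans (h1 x hx y hy)⟩

theorem not_mem_code_iff {W : Set (ℕ → ℕ)} {b : ℕ → ℕ} (hb : b ∈ Rl N) (hW : Code b Wᶜ) {t : ℕ → ℕ}
    (ht : t ∈ Rl N) : t ∈ W ↔ ∀ w ∈ Rl N, ∃ n, b (Nat.pair (ini t n) (ini w n)) = 0 := by
  constructor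
  · intro h w hw
    by_contra h1
    push Not at h1
    exact ((hW t).2 ⟨w, h1⟩) h
  · intro h
    by_contra h1
    obtain ⟨q, hq, hq'⟩ := hN.sc1 hb ht ((hW t).1 h1)
    obtain ⟨n, hn⟩ := h q hq
    exact hq' n hn

/-- `∃ y`, with a Borel condition. -/
theorem sig12B_rel {A : (ℕ → ℕ) → (ℕ → ℕ) → Prop} (hA : Sig12 (Rl N) A) {c : ℕ → ℕ} (hc : c ∈ Rl N)
    {W : Set (ℕ → ℕ)} {b : ℕ → ℕ} (hb : b ∈ Rl N) (hW : Code b Wᶜ) :
    Sig12B (Rl N) (fun x y' => ∃ y ∈ Rl N, jn (jn c (b2n y')) y ∈ W ∧ A x y) := by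
  obtain ⟨e, he, hA⟩ := hA
  obtain ⟨d1, hd1, h1⟩ := exists_opn (hN := hN) (P := fun s t u v =>
    b (Nat.pair (ini (fun i => Nat.pair (Nat.pair (c i) (getN t i)) ((getN u i).unpair.1)) (lenN t)) v)
      = 0) (Dfn.eqN (DN.app (DR.const hb) (DN.pair (DN.ini (DR.mk (DN.pair (DN.pair
        (DN.app (DR.const hc) (DN.var _)) (DN.getN (DN.var _) (DN.var _)))
        (DN.unpair1 (DN.getN (DN.var _) (DN.var _))))) (DN.lenN (DN.var _))) (DN.var _))) (DN.const 0))
  obtain ⟨d2, hd2, h2⟩ := exists_opn (hN := hN) (P := fun s t u v =>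
    e (Nat.pair (Nat.pair s (ini (fun i => (getN u i).unpair.1) (lenN u)))
      (Nat.pair (ini (fun i => (getN u i).unpair.2) (lenN u)) v)) = 0)
    (Dfn.eqN (DN.app (DR.const he) (DN.pair (DN.pair (DN.var _) (DN.ini (DR.mk (DN.unpair1
      (DN.getN (DN.var _) (DN.var _)))) (DN.lenN (DN.var _)))) (DN.pair (DN.ini (DR.mk (DN.unpair2
      (DN.getN (DN.var _) (DN.var _)))) (DN.lenN (DN.var _))) (DN.var _)))) (DN.const 0))
  have h1' : ∀ x y z w, Opn d1 x y z w ↔
      ∃ n, b (Nat.pair (ini (jn (jn c y) (fstR z)) n) (ini w n)) = 0 := by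
    intro x y z w
    rw [h1]
    refine exists_congr fun n => ?_
    rw [lenN_ini, ini_congr (x := fun i => Nat.pair (Nat.pair (c i) (getN (ini y n) i))
      ((getN (ini z n) i).unpair.1)) (y := jn (jn c y) (fstR z)) (fun i hi => by
        rw [getN_ini hi, getN_ini hi]; rfl)]
  have h2' : ∀ x y z w, Opn d2 x y z w ↔ Opn e x (fstR z) (sndR z) w := by
    intro x y z w
    rw [h2]
    refine exists_congr fun n => ?_
    rw [lenN_ini, ini_congr (x := fun i => ((getN (ini z n) i).unpair.1)) (y := fstR z) (fun i hi => by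
        rw [getN_ini hi]; rfl), ini_congr (x := fun i => ((getN (ini z n) i).unpair.2)) (y := sndR z)
        (fun i hi => by rw [getN_ini hi]; rfl)]
  obtain ⟨d, hd, h3⟩ := hN.exists_opn_and hd1 hd2
  refine ⟨d, hd, fun x hx y' hy' => ?_⟩
  constructor
  · rintro ⟨y, hy, hyW, hyA⟩
    obtain ⟨z, hz, hz'⟩ := (hA x hx y hy).1 hyA
    refine ⟨jn y z, hN.jn_mem hy hz, fun w hw => ?_⟩
    rw [h3, h1', h2', fstR_jn, sndR_jn]
    exact ⟨(not_mem_code_iff hN hb hW (hN.jn_mem (hN.jn_mem hc hy') hy)).1 hyW w hw, hz' w hw⟩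
  · rintro ⟨z, hz, hz'⟩
    have hy := hN.fstR_mem hz
    refine ⟨fstR z, hy, ?_, (hA x hx _ hy).2 ⟨sndR z, hN.sndR_mem hz, fun w hw => ?_⟩⟩
    · refine (not_mem_code_iff hN hb hW (hN.jn_mem (hN.jn_mem hc hy') hy)).2 fun w hw => ?_
      have := hz' w hw
      rw [h3, h1'] at this
      exact this.1
    · have := hz' w hw
      rw [h3, h2'] at this
      exact this.2

theorem sig12B_borel {c : ℕ → ℕ} (hc : c ∈ Rl N) {W : Set (ℕ → ℕ)} {b : ℕ → ℕ} (hb : b ∈ Rl N)
    (hW : Code b Wᶜ) : Sig12B (Rl N) (fun x y' => jn c (b2n y') ∈ W) := by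
  obtain ⟨d1, hd1, h1⟩ := exists_opn (hN := hN) (P := fun s t u v =>
    b (Nat.pair (ini (fun i => Nat.pair (c i) (getN t i)) (lenN t)) v)
      = 0) (Dfn.eqN (DN.app (DR.const hb) (DN.pair (DN.ini (DR.mk (DN.pair
        (DN.app (DR.const hc) (DN.var _)) (DN.getN (DN.var _) (DN.var _)))) (DN.lenN (DN.var _)))
        (DN.var _))) (DN.const 0))
  have h1' : ∀ x y z w, Opn d1 x y z w ↔
      ∃ n, b (Nat.pair (ini (jn c y) n) (ini w n)) = 0 := by
    intro x y z w
    rw [h1]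
    refine exists_congr fun n => ?_
    rw [lenN_ini, ini_congr (x := fun i => Nat.pair (c i) (getN (ini y n) i)) (y := jn c y)
      (fun i hi => by rw [getN_ini hi]; rfl)]
  refine ⟨d1, hd1, fun x hx y' hy' => ?_⟩
  show jn c (b2n y') ∈ W ↔ _
  rw [not_mem_code_iff hN hb hW (hN.jn_mem hc hy')]
  constructor
  · intro h
    exact ⟨x, hx, fun w hw => by rw [h1']; exact h w hw⟩
  · rintro ⟨z, hz, h⟩ w hw
    have := h w hw
    rwa [h1'] at this

theorem sig12B_or {A B : (ℕ → ℕ) → (ℕ → Bool) → Prop} (hA : Sig12B (Rl N) A) (hB : Sig12B (Rl N) B) :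
    Sig12B (Rl N) (fun x y => A x y ∨ B x y) := by
  obtain ⟨e, he, hA⟩ := hA
  obtain ⟨f, hf, hB⟩ := hB
  have key : ∀ e ∈ Rl N, hN.Dfn (fun v : Fin 5 → N => e (Nat.pair (Nat.pair (takeN (natD (v 0).1)
      (natD (v 4).1)) (takeN (natD (v 1).1) (natD (v 4).1))) (Nat.pair
      (ini (fun i => (getN (natD (v 2).1) i).unpair.2) (natD (v 4).1))
      (takeN (natD (v 3).1) (natD (v 4).1)))) = 0) := fun e he =>
    Dfn.eqN (DN.app (DR.const he) (DN.pair (DN.pair (DN.takeN (DN.var _) (DN.var _))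
      (DN.takeN (DN.var _) (DN.var _))) (DN.pair (DN.ini (DR.mk (DN.unpair2 (DN.getN (DN.var _)
      (DN.var _)))) (DN.var _)) (DN.takeN (DN.var _) (DN.var _))))) (DN.const 0)
  obtain ⟨d, hd, h1⟩ := exists_opn (hN := hN) (P := fun s t u v => 0 < lenN u ∧
    (((getN u 0).unpair.1 = 0 ∧ ∃ n ≤ lenN u, e (Nat.pair (Nat.pair (takeN s n) (takeN t n))
      (Nat.pair (ini (fun i => (getN u i).unpair.2) n) (takeN v n))) = 0) ∨
    (¬ (getN u 0).unpair.1 = 0 ∧ ∃ n ≤ lenN u, f (Nat.pair (Nat.pair (takeN s n) (takeN t n))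
      (Nat.pair (ini (fun i => (getN u i).unpair.2) n) (takeN v n))) = 0)))
    (Dfn.and (Dfn.ltN (DN.const 0) (DN.lenN (DN.var _))) (Dfn.or
      (Dfn.and (Dfn.eqN (DN.unpair1 (DN.getN (DN.var _) (DN.const 0))) (DN.const 0))
        (Dfn.exLe (DN.lenN (DN.var _)) (key e he)))
      (Dfn.and (Dfn.not (Dfn.eqN (DN.unpair1 (DN.getN (DN.var _) (DN.const 0))) (DN.const 0)))
        (Dfn.exLe (DN.lenN (DN.var _)) (key f hf)))))
  have key2 : ∀ (x y z w : ℕ → ℕ) (n m : ℕ), m ≤ n → Nat.pair (Nat.pair (takeN (ini x n) m)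
      (takeN (ini y n) m)) (Nat.pair (ini (fun i => (getN (ini z n) i).unpair.2) m) (takeN (ini w n) m)) =
      Nat.pair (Nat.pair (ini x m) (ini y m)) (Nat.pair (ini (sndR z) m) (ini w m)) := by
    intro x y z w n m hm
    rw [takeN_ini hm, takeN_ini hm, takeN_ini hm, ini_congr (x := fun i => (getN (ini z n) i).unpair.2)
      (y := sndR z) (fun i hi => by rw [getN_ini (hi.trans_le hm)]; rfl)]
  have h1' : ∀ x y z w, Opn d x y z w ↔ ((z 0).unpair.1 = 0 ∧ Opn e x y (sndR z) w) ∨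
      (¬ (z 0).unpair.1 = 0 ∧ Opn f x y (sndR z) w) := by
    intro x y z w
    rw [h1]
    constructor
    · rintro ⟨n, h2, h3⟩
      rw [lenN_ini] at h2 h3
      rw [getN_ini h2] at h3
      rcases h3 with ⟨h3, m, h4, h5⟩ | ⟨h3, m, h4, h5⟩
      · rw [key2 _ _ _ _ _ _ h4] at h5
        exact Or.inl ⟨h3, m, h5⟩
      · rw [key2 _ _ _ _ _ _ h4] at h5
        exact Or.inr ⟨h3, m, h5⟩
    · rintro (⟨h3, m, h5⟩ | ⟨h3, m, h5⟩)
      · refine ⟨m + 1, by rw [lenN_ini]; omega, ?_⟩
        rw [getN_ini (by omega)]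
        refine Or.inl ⟨h3, m, by rw [lenN_ini]; omega, ?_⟩
        rw [key2 _ _ _ _ _ _ (Nat.le_succ m)]; exact h5
      · refine ⟨m + 1, by rw [lenN_ini]; omega, ?_⟩
        rw [getN_ini (by omega)]
        refine Or.inr ⟨h3, m, by rw [lenN_ini]; omega, ?_⟩
        rw [key2 _ _ _ _ _ _ (Nat.le_succ m)]; exact h5
  refine ⟨d, hd, fun x hx y hy => ?_⟩
  show (A x y ∨ B x y) ↔ _
  rw [hA x hx y hy, hB x hx y hy]
  constructor
  · rintro (⟨z, hz, hz'⟩ | ⟨z, hz, hz'⟩)
    · refine ⟨jn (fun _ => 0) z, hN.jn_mem (hN.const_mem_Rl 0) hz, fun w hw => ?_⟩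
      rw [h1', sndR_jn]
      exact Or.inl ⟨by simp [jn], hz' w hw⟩
    · refine ⟨jn (fun _ => 1) z, hN.jn_mem (hN.const_mem_Rl 1) hz, fun w hw => ?_⟩
      rw [h1', sndR_jn]
      exact Or.inr ⟨by simp [jn], hz' w hw⟩
  · rintro ⟨z, hz, hz'⟩
    by_cases h : (z 0).unpair.1 = 0
    · refine Or.inl ⟨sndR z, hN.sndR_mem hz, fun w hw => ?_⟩
      have := hz' w hw
      rw [h1'] at this
      rcases this with h2 | h2
      · exact h2.2
      · exact (h2.1 h).elim
    · refine Or.inr ⟨sndR z, hN.sndR_mem hz, fun w hw => ?_⟩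
      have := hz' w hw
      rw [h1'] at this
      rcases this with h2 | h2
      · exact (h h2.1).elim
      · exact h2.2

end Pool.Agent.H17.GP
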