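import Pool.Agent.H17.Omega.Defs

/-!
# Goldstern's principle in a countable transitive model of ZFC: definitions (MP_66e4cf)

`N` is a countable transitive model of ZFC, `Rl N` its set of reals (functions from `ℕ` to `ℕ`).  Everything below is
the evaluation of the notions of descriptive set theory in `N`: all quantifiers over reals range over `R = Rl N`.
Polish probability spaces are given up to Borel isomorphism, as `ω^ω` with a Borel probability measure.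
-/

set_option autoImplicit false

universe u

namespace Pool.Agent.H17.GP

open Pool.Agent.H17.Omega

/-- The real `x` as a set: the set of all pairs `(n, x n)`. -/
noncomputable def rz (x : ℕ → ℕ) : ZFSet.{u} :=
  ZFSet.range (fun n : ℕ => ZFSet.pair (natZ n) (natZ (x n)))

/-- The reals of the model `N`. -/
def Rl (N : Set ZFSet.{u}) : Set (ℕ → ℕ) := {x | rz.{u} x ∈ N}

/-- The code of the finite sequence `(x 0, ..., x (n - 1))`. -/
def ini (x : ℕ → ℕ) (n : ℕ) : ℕ := Encodable.encode ((List.range n).map x)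

/-- The finite sequence with code `k`. -/
def dl (k : ℕ) : List ℕ := Denumerable.ofNat (List ℕ) k

/-- `(x, y, z, w)` is in the open set of quadruples of reals coded by `c`. -/
def Opn (c x y z w : ℕ → ℕ) : Prop :=
  ∃ n, c (Nat.pair (Nat.pair (ini x n) (ini y n)) (Nat.pair (ini z n) (ini w n))) = 0

/-- `A` is a boldface `Σ¹₂` subset of `ω^ω × ω^ω` (in the structure whose reals are `R`):
`A(x, y) ↔ ∃ z ∀ w, (x, y, z, w) ∈ O` for an open set `O` coded by a real of `R`. -/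
def Sig12 (R : Set (ℕ → ℕ)) (A : (ℕ → ℕ) → (ℕ → ℕ) → Prop) : Prop :=
  ∃ c ∈ R, ∀ x ∈ R, ∀ y ∈ R, (A x y ↔ ∃ z ∈ R, ∀ w ∈ R, Opn c x y z w)

/-- `A` is a boldface `Δ¹₂` subset of `ω^ω × ω^ω`. -/
def Del12 (R : Set (ℕ → ℕ)) (A : (ℕ → ℕ) → (ℕ → ℕ) → Prop) : Prop :=
  Sig12 R A ∧ Sig12 R (fun x y => ¬ A x y)

/-- A Borel probability measure on `ω^ω`, given by the measures `m s` of the basic open sets
`{y : y extends s}`, coded by a real of `R`. -/
structure Meas (R : Set (ℕ → ℕ)) (m : List ℕ → ℝ) : Prop where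
  nonneg : ∀ s, 0 ≤ m s
  one : m [] = 1
  add : ∀ s, HasSum (fun n => m (s ++ [n])) (m s)
  code : ∃ c ∈ R, ∀ (s : List ℕ) (p q : ℕ),
    c (Nat.pair (Encodable.encode s) (Nat.pair p q)) = 0 ↔ (p : ℝ) < q * m s

/-- `y` extends the finite sequence `s`. -/
def Ext (y : ℕ → ℕ) (s : List ℕ) : Prop := (List.range s.length).map y = s

/-- `B` has measure zero (in the structure whose reals are `R`): for some real `u` of `R`, for every `k` the basic open
sets given by the finite sequences with codes `u(k,0), u(k,1), ...` cover `B` and have total measure at most `2^(-k)`. -/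
def Null (R : Set (ℕ → ℕ)) (m : List ℕ → ℝ) (B : (ℕ → ℕ) → Prop) : Prop :=
  ∃ u ∈ R, (∀ k l, ∑ j ∈ Finset.range l, m (dl (u (Nat.pair k j))) ≤ (1 / 2) ^ k) ∧
    ∀ y ∈ R, B y → ∀ k, ∃ j, Ext y (dl (u (Nat.pair k j)))

/-- Goldstern's principle for the pointclass `Γ` (in the structure whose reals are `R`). -/
def Gold (R : Set (ℕ → ℕ)) (Γ : ((ℕ → ℕ) → (ℕ → ℕ) → Prop) → Prop) : Prop :=
  ∀ m, Meas R m → ∀ A, Γ A → (∀ x ∈ R, Null R m (A x)) →
    (∀ x ∈ R, ∀ x' ∈ R, (∀ n, x n ≤ x' n) → ∀ y ∈ R, A x y → A x' y) →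
    Null R m (fun y => ∃ x ∈ R, A x y)

/-- There is a countable transitive model of ZFC in which `GP(Δ¹₂)` holds and `GP(Σ¹₂)` fails. -/
def Main : Prop := ∃ N : Set ZFSet.{0}, CTM N ∧ Gold (Rl N) (Del12 (Rl N)) ∧ ¬ Gold (Rl N) (Sig12 (Rl N))

/-! ## Internal version: Lebesgue measure on `2^ω` -/

/-- A point of `2^ω` as a real. -/
def b2n (y : ℕ → Bool) : ℕ → ℕ := fun n => if y n then 1 else 0

/-- The finite binary sequence with code `k`. -/
def dlB (k : ℕ) : List Bool := (dl k).map (fun n => decide (n ≠ 0))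

/-- `y` extends `s`. -/
def ExtB (y : ℕ → Bool) (s : List Bool) : Prop := (List.range s.length).map y = s

/-- `Σ¹₂` subsets of `ω^ω × 2^ω`. -/
def Sig12B (R : Set (ℕ → ℕ)) (A : (ℕ → ℕ) → (ℕ → Bool) → Prop) : Prop :=
  ∃ c ∈ R, ∀ x ∈ R, ∀ y, b2n y ∈ R → (A x y ↔ ∃ z ∈ R, ∀ w ∈ R, Opn c x (b2n y) z w)

/-- Lebesgue measure zero in `2^ω`. -/
def NullL (R : Set (ℕ → ℕ)) (B : (ℕ → Bool) → Prop) : Prop :=
  ∃ u ∈ R, (∀ k l, ∑ j ∈ Finset.range l, (1 / 2 : ℝ) ^ (dlB (u (Nat.pair k j))).length ≤ (1 / 2) ^ k) ∧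
    ∀ y, b2n y ∈ R → B y → ∀ k, ∃ j, ExtB y (dlB (u (Nat.pair k j)))

/-- `GP(Δ¹₂)` for Lebesgue measure on `2^ω`. -/
def GPDelL (R : Set (ℕ → ℕ)) : Prop :=
  ∀ A : (ℕ → ℕ) → (ℕ → Bool) → Prop, Sig12B R A → Sig12B R (fun x y => ¬ A x y) →
    (∀ x ∈ R, NullL R (A x)) →
    (∀ x ∈ R, ∀ x' ∈ R, (∀ n, x n ≤ x' n) → ∀ y, b2n y ∈ R → A x y → A x' y) →
    NullL R (fun y => ∃ x ∈ R, A x y)

/-- `GP(Σ¹₂)` fails for Lebesgue measure on `2^ω`. -/
def NotGPSigL (R : Set (ℕ → ℕ)) : Prop :=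
  ∃ A : (ℕ → ℕ) → (ℕ → Bool) → Prop, Sig12B R A ∧ (∀ x ∈ R, NullL R (A x)) ∧
    (∀ x ∈ R, ∀ x' ∈ R, (∀ n, x n ≤ x' n) → ∀ y, b2n y ∈ R → A x y → A x' y) ∧
    ¬ NullL R (fun y => ∃ x ∈ R, A x y)

end Pool.Agent.H17.GP
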