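import Pool.Agent.H17.GP.Seq
import Pool.Agent.H17.GP.Stmt
import Mathlib.Computability.Primrec.List

/-!
# A calculus of definability over a countable transitive model, with numbers and reals

`natD x` decodes a natural number, `rlD x` decodes a real.  `hN.DN s` says that the number valued term
`s : (Fin n → N) → ℕ` is definable, `hN.DR f` the same for real valued terms `f : (Fin n → N) → ℕ → ℕ`.
All primitive recursive functions are available (`DN.primrec`); `mem_Rl` shows that a definable real is a real of `N`.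
-/

set_option autoImplicit false
set_option linter.unusedVariables false
set_option linter.unusedSectionVars false

universe u v w

namespace Pool.Agent.H17.Omega

open Pool.Agent.H17.GP

/-- Decode a natural number. -/
noncomputable def natD (x : ZFSet.{u}) : ℕ := by
  classical exact if h : ∃ n, x = natZ n then h.choose else 0

@[simp] theorem natD_natZ (n : ℕ) : natD (natZ.{u} n) = n := by
  have h : ∃ m, natZ.{u} n = natZ m := ⟨n, rfl⟩
  rw [natD, dif_pos h]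
  exact (natZ_inj.1 h.choose_spec).symm

theorem natD_of_not {x : ZFSet.{u}} (h : ¬ IsNatZ x) : natD x = 0 := by
  rw [natD, dif_neg (fun h1 => h (isNatZ_iff.2 h1))]

theorem natZ_natD {x : ZFSet.{u}} (h : IsNatZ x) : natZ (natD x) = x := by
  obtain ⟨n, rfl⟩ := isNatZ_iff.1 h
  rw [natD_natZ]

theorem isNatZ_natZ (n : ℕ) : IsNatZ (natZ.{u} n) := isNatZ_iff.2 ⟨n, rfl⟩

theorem eq_natZ_natD {x y : ZFSet.{u}} :
    ((IsNatZ x ∧ y = x) ∨ (¬ IsNatZ x ∧ y = ∅)) ↔ y = natZ (natD x) := by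
  by_cases h : IsNatZ x
  · simp [h, natZ_natD h]
  · simp [h, natD_of_not h, natZ]

/-- Decode a real. -/
noncomputable def rlD (x : ZFSet.{u}) (n : ℕ) : ℕ := by
  classical exact if h : ∃ m, ZFSet.pair (natZ n) (natZ m) ∈ x ∧
    ∀ m', ZFSet.pair (natZ n) (natZ m') ∈ x → m' = m then h.choose else 0

theorem pair_mem_rz {x : ℕ → ℕ} {n m : ℕ} : ZFSet.pair (natZ.{u} n) (natZ m) ∈ rz x ↔ x n = m := by
  rw [rz, ZFSet.mem_range]
  constructor
  · rintro ⟨k, h⟩
    rw [ZFSet.pair_inj, natZ_inj, natZ_inj] at h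
    rw [← h.1, h.2]
  · rintro rfl; exact ⟨n, rfl⟩

theorem mem_rz {x : ℕ → ℕ} {z : ZFSet.{u}} : z ∈ rz x ↔ ∃ n, z = ZFSet.pair (natZ n) (natZ (x n)) := by
  rw [rz, ZFSet.mem_range]
  constructor
  · rintro ⟨k, h⟩; exact ⟨k, h.symm⟩
  · rintro ⟨k, h⟩; exact ⟨k, h.symm⟩

@[simp] theorem rlD_rz (x : ℕ → ℕ) : rlD (rz.{u} x) = x := by
  funext n
  have h : ∃ m, ZFSet.pair (natZ n) (natZ m) ∈ rz.{u} x ∧
      ∀ m', ZFSet.pair (natZ n) (natZ m') ∈ rz.{u} x → m' = m :=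
    ⟨x n, pair_mem_rz.2 rfl, fun m' hm' => (pair_mem_rz.1 hm').symm⟩
  rw [rlD, dif_pos h]
  exact (pair_mem_rz.1 h.choose_spec.1).symm

theorem rz_inj {x y : ℕ → ℕ} : rz.{u} x = rz y ↔ x = y := by
  constructor
  · intro h
    rw [← rlD_rz.{u} x, h, rlD_rz]
  · rintro rfl; rfl

theorem rz_eq_seqZ (x : ℕ → ℕ) : rz.{u} x = seqZ (fun n => natZ (x n)) := rfl

/-- The set is a real. -/
def IsRlZ (x : ZFSet.{u}) : Prop :=
  (∀ z ∈ x, ∃ n m : ℕ, z = ZFSet.pair (natZ n) (natZ m)) ∧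
    ∀ n, ∃ m, ZFSet.pair (natZ n) (natZ m) ∈ x ∧ ∀ m', ZFSet.pair (natZ n) (natZ m') ∈ x → m' = m

theorem isRlZ_rz (x : ℕ → ℕ) : IsRlZ (rz.{u} x) :=
  ⟨fun z hz => by obtain ⟨n, h⟩ := mem_rz.1 hz; exact ⟨n, x n, h⟩,
    fun n => ⟨x n, pair_mem_rz.2 rfl, fun m' hm' => (pair_mem_rz.1 hm').symm⟩⟩

theorem isRlZ_iff {x : ZFSet.{u}} : IsRlZ x ↔ ∃ f, x = rz f := by
  constructor
  · rintro ⟨h1, h2⟩
    refine ⟨fun n => (h2 n).choose, ?_⟩
    ext z
    rw [mem_rz]
    constructor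
    · intro hz
      obtain ⟨n, m, rfl⟩ := h1 z hz
      exact ⟨n, by rw [(h2 n).choose_spec.2 m hz]⟩
    · rintro ⟨n, rfl⟩
      exact (h2 n).choose_spec.1
  · rintro ⟨f, rfl⟩; exact isRlZ_rz f

namespace CTM

variable {N : Set ZFSet.{u}} {hN : CTM N}

/-! ### General substitution -/

theorem Dfn.exFin {n : ℕ} : ∀ (m : ℕ) {Q : (Fin (n + m) → N) → Prop}, hN.Dfn Q →
    hN.Dfn (fun v : Fin n → N => ∃ w : Fin m → N, Q (Fin.append v w))
  | 0, Q, h => h.congr fun v => by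
      constructor
      · intro h; exact ⟨Fin.elim0, by rwa [Fin.append_right_nil _ _ rfl]⟩
      · rintro ⟨w, h⟩; rwa [Fin.append_right_nil _ _ rfl] at h
  | m + 1, Q, h => by
    have h1 : hN.Dfn (fun v : Fin (n + m) → N => ∃ x : N, Q (Fin.snoc (α := fun _ => N) v x)) := by
      refine Dfn.ex (P := fun v x => Q (Fin.snoc (α := fun _ => N) v x)) (h.congr fun v => ?_)
      have : (Fin.snoc (α := fun _ => N) (fun i : Fin (n + m) => v i.castSucc) (v (Fin.last (n + m)))) =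
          v := Fin.snoc_init_self v
      exact Iff.of_eq (congrArg Q this).symm
    refine (Dfn.exFin m h1).congr fun v => ?_
    constructor
    · rintro ⟨w, x, h⟩
      refine ⟨Fin.snoc (α := fun _ => N) w x, ?_⟩
      rw [Fin.append_snoc]
      exact h
    · rintro ⟨w, h⟩
      refine ⟨fun i => w i.castSucc, w (Fin.last m), ?_⟩
      rw [← Fin.append_snoc]
      have : (Fin.snoc (α := fun _ => N) (fun i : Fin m => w i.castSucc) (w (Fin.last m))) =
          w := Fin.snoc_init_self w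
      rw [this]
      exact h

theorem Dfn.allFinite {n : ℕ} : ∀ (m : ℕ) {Q : Fin m → (Fin n → N) → Prop}, (∀ i, hN.Dfn (Q i)) →
    hN.Dfn (fun v => ∀ i, Q i v)
  | 0, Q, h => (Dfn.const True).congr fun v => by simp
  | m + 1, Q, h => by
    refine ((Dfn.allFinite m (Q := fun i => Q i.castSucc) (fun i => h _)).and (h (Fin.last m))).congr
      fun v => ?_
    constructor
    · rintro ⟨h1, h2⟩ i
      exact Fin.lastCases h2 h1 i
    · intro h
      exact ⟨fun i => h _, h _⟩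

theorem DT.liftN {n : ℕ} {s : (Fin n → N) → N} (h : hN.DT s) : ∀ m : ℕ,
    hN.DT (fun v : Fin (n + m) → N => s (fun i => v (Fin.castAdd m i)))
  | 0 => h
  | m + 1 => (DT.liftN h m).lift

/-- General substitution. -/
theorem Dfn.substG {m n : ℕ} {P : (Fin m → N) → Prop} (h : hN.Dfn P) {t : Fin m → (Fin n → N) → N}
    (ht : ∀ i, hN.DT (t i)) : hN.Dfn (fun v => P (fun i => t i v)) := by
  have h1 : hN.Dfn (fun v : Fin (n + m) → N =>
      (∀ i : Fin m, v (Fin.natAdd n i) = t i (fun j => v (Fin.castAdd m j))) ∧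
        P (fun i => v (Fin.natAdd n i))) :=
    (Dfn.allFinite m fun i => Dfn.eq (DT.var _) ((ht i).liftN m)).and (h.shift n)
  refine (Dfn.exFin m h1).congr fun v => ?_
  constructor
  · rintro ⟨w, h2, h3⟩
    simp only [Fin.append_left, Fin.append_right] at h2 h3
    have : (fun i => t i v) = w := funext fun i => (h2 i).symm
    rw [this]; exact h3
  · intro h2
    refine ⟨fun i => t i v, ?_, ?_⟩
    · intro i; simp only [Fin.append_left, Fin.append_right]
    · simp only [Fin.append_right]; exact h2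

theorem Dfn.reidx {m n : ℕ} {P : (Fin m → N) → Prop} (h : hN.Dfn P) (ρ : Fin m → Fin n) :
    hN.Dfn (fun v => P (fun i => v (ρ i))) := h.substG fun i => DT.var (ρ i)

theorem Dfn.lift {n : ℕ} {P : (Fin n → N) → Prop} (h : hN.Dfn P) :
    hN.Dfn (fun v : Fin (n + 1) → N => P (fun i => v i.castSucc)) := h.reidx Fin.castSucc

theorem Dfn.sub {n : ℕ} {P : (Fin n → N) → N → Prop} {t : (Fin n → N) → N}
    (h : hN.Dfn (fun v : Fin (n + 1) → N => P (fun i => v i.castSucc) (v (Fin.last n))))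
    (ht : hN.DT t) : hN.Dfn (fun v => P v (t v)) :=
  (Dfn.ex (P := fun v x => x = t v ∧ P v x) ((Dfn.eq DT.last ht.lift).and h)).congr fun v => by simp

/-! ### Numbers -/

variable (hN) in
/-- Definable terms with values in the natural numbers. -/
def DN {n : ℕ} (s : (Fin n → N) → ℕ) : Prop :=
  hN.Dfn (fun v : Fin (n + 1) → N => (v (Fin.last n)).1 = natZ (s (fun i => v i.castSucc)))

variable (hN) in
/-- Definable terms with values in the reals. -/
def DR {n : ℕ} (f : (Fin n → N) → ℕ → ℕ) : Prop :=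
  hN.DN (fun v : Fin (n + 1) → N => f (fun i => v i.castSucc) (natD (v (Fin.last n)).1))

theorem DN.congr {n : ℕ} {s s' : (Fin n → N) → ℕ} (h : ∀ v, s v = s' v) (hs : hN.DN s) : hN.DN s' := by
  have : s = s' := funext h
  rw [← this]; exact hs

theorem DN.reidx {m n : ℕ} {s : (Fin m → N) → ℕ} (hs : hN.DN s) (ρ : Fin m → Fin n) :
    hN.DN (fun v : Fin n → N => s (fun i => v (ρ i))) := by
  refine (Dfn.reidx hs (Fin.lastCases (Fin.last n) (fun i => (ρ i).castSucc))).congr fun v => ?_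
  simp only [Fin.lastCases_last, Fin.lastCases_castSucc]

theorem DN.lift {n : ℕ} {s : (Fin n → N) → ℕ} (hs : hN.DN s) :
    hN.DN (fun v : Fin (n + 1) → N => s (fun i => v i.castSucc)) := hs.reidx Fin.castSucc

theorem DR.reidx {m n : ℕ} {f : (Fin m → N) → ℕ → ℕ} (hf : hN.DR f) (ρ : Fin m → Fin n) :
    hN.DR (fun v : Fin n → N => f (fun i => v (ρ i))) := by
  refine (DN.reidx hf (Fin.lastCases (Fin.last n) (fun i => (ρ i).castSucc))).congr fun v => ?_
  simp only [Fin.lastCases_last, Fin.lastCases_castSucc]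

theorem DR.lift {n : ℕ} {f : (Fin n → N) → ℕ → ℕ} (hf : hN.DR f) :
    hN.DR (fun v : Fin (n + 1) → N => f (fun i => v i.castSucc)) := hf.reidx Fin.castSucc

theorem DR.congr {n : ℕ} {f f' : (Fin n → N) → ℕ → ℕ} (h : ∀ v k, f v k = f' v k) (hs : hN.DR f) :
    hN.DR f' := by
  have : f = f' := funext fun v => funext (h v)
  rw [← this]; exact hs

theorem DN.var {n : ℕ} (i : Fin n) : hN.DN (fun v => natD (v i).1) :=
  (((Dfn.isNat (DT.var i.castSucc)).and (Dfn.eqv DT.last (DT.var i.castSucc))).or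
    ((Dfn.isNat (DT.var i.castSucc)).not.and (Dfn.isEmpty DT.last))).congr fun v => eq_natZ_natD

theorem DN.ofDT {n : ℕ} {t : (Fin n → N) → N} (ht : hN.DT t) : hN.DN (fun v => natD (t v).1) :=
  (((Dfn.isNat ht.lift).and (Dfn.eqv DT.last ht.lift)).or
    ((Dfn.isNat ht.lift).not.and (Dfn.isEmpty DT.last))).congr fun v => eq_natZ_natD

theorem DN.const {n : ℕ} (k : ℕ) : hN.DN (fun _ : Fin n → N => k) :=
  Dfn.eqv DT.last (DT.const ⟨natZ k, hN.natZ_mem_N k⟩)

theorem Dfn.eqNatZ {n : ℕ} {t : (Fin n → N) → N} {s : (Fin n → N) → ℕ} (ht : hN.DT t)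
    (hs : hN.DN s) : hN.Dfn (fun v => (t v).1 = natZ (s v)) :=
  Dfn.sub (P := fun v x => x.1 = natZ (s v)) hs ht

theorem Dfn.subN {n : ℕ} {P : (Fin n → N) → ℕ → Prop} {s : (Fin n → N) → ℕ}
    (h : hN.Dfn (fun v : Fin (n + 1) → N => P (fun i => v i.castSucc) (natD (v (Fin.last n)).1)))
    (hs : hN.DN s) : hN.Dfn (fun v => P v (s v)) := by
  refine (Dfn.ex (P := fun v x => x.1 = natZ (s v) ∧ P v (natD x.1)) (Dfn.and hs h)).congr fun v => ?_
  constructor
  · rintro ⟨x, h1, h2⟩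
    rwa [h1, natD_natZ] at h2
  · intro h1
    exact ⟨⟨natZ (s v), hN.natZ_mem_N _⟩, rfl, by rwa [natD_natZ]⟩

theorem DN.sub {n : ℕ} {g : (Fin n → N) → ℕ → ℕ} {s : (Fin n → N) → ℕ} (h : hN.DR g)
    (hs : hN.DN s) : hN.DN (fun v => g v (s v)) := by
  refine Dfn.subN (n := n + 1) (P := fun v k => (v (Fin.last n)).1 =
    natZ (g (fun i => v i.castSucc) k)) (s := fun v => s (fun i => v i.castSucc)) ?_ hs.lift
  have h1 : hN.Dfn (fun v : Fin (n + 2) → N => (v (Fin.last (n + 1))).1 =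
      natZ (g (fun i => v i.castSucc.castSucc) (natD (v (Fin.last n).castSucc).1))) := h
  have h2 := h1.reidx (n := n + 2) (Fin.lastCases (Fin.last n).castSucc
    (Fin.lastCases (Fin.last (n + 1)) (fun i => i.castSucc.castSucc)))
  refine h2.congr fun v => ?_
  simp only [Fin.lastCases_last, Fin.lastCases_castSucc]

theorem Dfn.eqN {n : ℕ} {s t : (Fin n → N) → ℕ} (hs : hN.DN s) (ht : hN.DN t) :
    hN.Dfn (fun v => s v = t v) := by
  refine (Dfn.ex (P := fun v x => x.1 = natZ (s v) ∧ x.1 = natZ (t v)) (Dfn.and hs ht)).congr fun v => ?_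
  constructor
  · rintro ⟨x, h1, h2⟩
    exact natZ_inj.1 (h1.symm.trans h2)
  · intro h1
    exact ⟨⟨natZ (s v), hN.natZ_mem_N _⟩, rfl, by rw [h1]⟩

theorem Dfn.ltN {n : ℕ} {s t : (Fin n → N) → ℕ} (hs : hN.DN s) (ht : hN.DN t) :
    hN.Dfn (fun v => s v < t v) := by
  refine (Dfn.ex (P := fun v x => x.1 = natZ (s v) ∧ ∃ y : N, y.1 = natZ (t v) ∧ x.1 ∈ y.1)
    (Dfn.and hs (Dfn.ex (P := fun v y => y.1 = natZ (t (fun i => v i.castSucc)) ∧
      (v (Fin.last n)).1 ∈ y.1) (Dfn.and (Dfn.eqNatZ DT.last ht.lift.lift)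
        (Dfn.mem (DT.var _) (DT.var _)))))).congr fun v => ?_
  constructor
  · rintro ⟨x, h1, y, h2, h3⟩
    rw [h1, h2] at h3
    exact natZ_mem.1 h3
  · intro h1
    exact ⟨⟨natZ (s v), hN.natZ_mem_N _⟩, rfl, ⟨natZ (t v), hN.natZ_mem_N _⟩, rfl, natZ_mem.2 h1⟩

theorem Dfn.leN {n : ℕ} {s t : (Fin n → N) → ℕ} (hs : hN.DN s) (ht : hN.DN t) :
    hN.Dfn (fun v => s v ≤ t v) := (Dfn.ltN ht hs).not.congr fun v => not_lt

/-- Quantifiers over the natural numbers. -/
theorem Dfn.exN {n : ℕ} {P : (Fin n → N) → ℕ → Prop}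
    (h : hN.Dfn (fun v : Fin (n + 1) → N => P (fun i => v i.castSucc) (natD (v (Fin.last n)).1))) :
    hN.Dfn (fun v => ∃ k, P v k) :=
  (Dfn.ex (P := fun v x => P v (natD x.1)) h).congr fun v =>
    ⟨fun ⟨x, hx⟩ => ⟨_, hx⟩, fun ⟨k, hk⟩ => ⟨⟨natZ k, hN.natZ_mem_N _⟩, by rwa [natD_natZ]⟩⟩

theorem Dfn.allN {n : ℕ} {P : (Fin n → N) → ℕ → Prop}
    (h : hN.Dfn (fun v : Fin (n + 1) → N => P (fun i => v i.castSucc) (natD (v (Fin.last n)).1))) :
    hN.Dfn (fun v => ∀ k, P v k) :=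
  (Dfn.all (P := fun v x => P v (natD x.1)) h).congr fun v =>
    ⟨fun h k => by simpa using h ⟨natZ k, hN.natZ_mem_N _⟩, fun h x => h _⟩

/-- A term with definable graph. -/
theorem DN.of {n : ℕ} {s : (Fin n → N) → ℕ} {P : (Fin n → N) → ℕ → Prop}
    (hP : hN.Dfn (fun v : Fin (n + 1) → N => P (fun i => v i.castSucc) (natD (v (Fin.last n)).1)))
    (h : ∀ v k, P v k ↔ s v = k) : hN.DN s := by
  refine ((Dfn.isNat DT.last).and hP).congr fun v => ?_
  rw [h]
  constructor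
  · rintro ⟨h1, h2⟩
    rw [h2, natZ_natD h1]
  · intro h1
    rw [h1]
    exact ⟨isNatZ_natZ _, by rw [natD_natZ]⟩

theorem DN.app {n : ℕ} {f : (Fin n → N) → ℕ → ℕ} {s : (Fin n → N) → ℕ} (hf : hN.DR f)
    (hs : hN.DN s) : hN.DN (fun v => f v (s v)) := DN.sub hf hs

theorem DN.sub2 {n : ℕ} {g : (Fin n → N) → ℕ → ℕ → ℕ} {s t : (Fin n → N) → ℕ}
    (h : hN.DN (fun v : Fin (n + 2) → N => g (fun i => v i.castSucc.castSucc)
      (natD (v (Fin.last n).castSucc).1) (natD (v (Fin.last (n + 1))).1)))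
    (hs : hN.DN s) (ht : hN.DN t) : hN.DN (fun v => g v (s v) (t v)) := by
  have h1 : hN.DN (fun v : Fin (n + 1) → N => g (fun i => v i.castSucc) (natD (v (Fin.last n)).1)
      (t (fun i => v i.castSucc))) :=
    DN.sub (n := n + 1) (g := fun v k => g (fun i => v i.castSucc) (natD (v (Fin.last n)).1) k) h ht.lift
  exact DN.sub (g := fun v k => g v k (t v)) h1 hs

/-! ### Recursion -/

theorem DN.rec {n : ℕ} {a s : (Fin n → N) → ℕ} {g : (Fin n → N) → ℕ → ℕ → ℕ} (ha : hN.DN a)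
    (hg : hN.DN (fun v : Fin (n + 2) → N => g (fun i => v i.castSucc.castSucc)
      (natD (v (Fin.last n).castSucc).1) (natD (v (Fin.last (n + 1))).1))) (hs : hN.DN s) :
    hN.DN (fun v => Nat.rec (a v) (fun k y => g v k y) (s v)) := by
  let Gd : (Fin n → N) → N → Prop := fun v h => ∀ k y : N, ZFSet.pair k.1 y.1 ∈ h.1 →
    (k.1 = ∅ ∧ y.1 = natZ (a v)) ∨ ∃ k' y' : N, (IsNatZ k'.1 ∧ k.1 = insert k'.1 k'.1) ∧
      (ZFSet.pair k'.1 y'.1 ∈ h.1 ∧ y.1 = natZ (g v (natD k'.1) (natD y'.1)))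
  have hGd : hN.Dfn (fun v : Fin (n + 1) → N => Gd (fun i => v i.castSucc) (v (Fin.last n))) := by
    refine Dfn.all (P := fun v k => ∀ y : N, ZFSet.pair k.1 y.1 ∈ (v (Fin.last n)).1 →
      (k.1 = ∅ ∧ y.1 = natZ (a (fun i => v i.castSucc))) ∨
      ∃ k' y' : N, (IsNatZ k'.1 ∧ k.1 = insert k'.1 k'.1) ∧
      (ZFSet.pair k'.1 y'.1 ∈ (v (Fin.last n)).1 ∧
        y.1 = natZ (g (fun i => v i.castSucc) (natD k'.1) (natD y'.1)))) ?_
    refine Dfn.all (P := fun v y => ZFSet.pair (v (Fin.last (n + 1))).1 y.1 ∈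
      (v (Fin.last n).castSucc).1 →
      ((v (Fin.last (n + 1))).1 = ∅ ∧ y.1 = natZ (a (fun i => v i.castSucc.castSucc))) ∨
      ∃ k' y' : N, (IsNatZ k'.1 ∧ (v (Fin.last (n + 1))).1 = insert k'.1 k'.1) ∧
      (ZFSet.pair k'.1 y'.1 ∈ (v (Fin.last n).castSucc).1 ∧
        y.1 = natZ (g (fun i => v i.castSucc.castSucc) (natD k'.1) (natD y'.1)))) ?_
    refine Dfn.imp (Dfn.pairMem (DT.var _) (DT.var _) (DT.var _)) (Dfn.or (Dfn.and
      (Dfn.isEmpty (DT.var _)) (Dfn.eqNatZ (DT.var _) ha.lift.lift.lift)) ?_)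
    refine Dfn.ex (P := fun v k' => ∃ y' : N, (IsNatZ k'.1 ∧
      (v (Fin.last (n + 1)).castSucc).1 = insert k'.1 k'.1) ∧
      (ZFSet.pair k'.1 y'.1 ∈ (v (Fin.last n).castSucc.castSucc).1 ∧
        (v (Fin.last (n + 2))).1 =
          natZ (g (fun i => v i.castSucc.castSucc.castSucc) (natD k'.1) (natD y'.1)))) ?_
    refine Dfn.ex (P := fun v y' => (IsNatZ (v (Fin.last (n + 3))).1 ∧
      (v (Fin.last (n + 1)).castSucc.castSucc).1 =
        insert (v (Fin.last (n + 3))).1 (v (Fin.last (n + 3))).1) ∧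
      (ZFSet.pair (v (Fin.last (n + 3))).1 y'.1 ∈ (v (Fin.last n).castSucc.castSucc.castSucc).1 ∧
        (v (Fin.last (n + 2)).castSucc).1 =
          natZ (g (fun i => v i.castSucc.castSucc.castSucc.castSucc) (natD (v (Fin.last (n + 3))).1)
            (natD y'.1)))) ?_
    refine Dfn.and (Dfn.and (Dfn.isNat (DT.var _)) (Dfn.isInsert (DT.var _) (DT.var _) (DT.var _)))
      (Dfn.and (Dfn.pairMem (DT.var _) (DT.var _) (DT.var _)) ?_)
    refine Dfn.eqNatZ (DT.var _) ?_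
    have h1 := hg.reidx (n := n + 5) (Fin.lastCases (Fin.last (n + 4))
      (Fin.lastCases (Fin.last (n + 3)).castSucc
        (fun i => i.castSucc.castSucc.castSucc.castSucc.castSucc)))
    refine h1.congr fun v => ?_
    simp only [Fin.lastCases_last, Fin.lastCases_castSucc]
  have hsound : ∀ (v : Fin n → N) (h : N), Gd v h → ∀ k y, ZFSet.pair (natZ k) y ∈ h.1 →
      y = natZ (Nat.rec (a v) (fun k y => g v k y) k) := by
    intro v h hh k
    induction k with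
    | zero =>
      intro y hy
      have hyN := (hN.of_pair_mem (hN.mem_of_mem h.2 hy))
      rcases hh ⟨natZ 0, hyN.1⟩ ⟨y, hyN.2⟩ hy with ⟨_, h2⟩ | ⟨k', y', ⟨_, h2⟩, _⟩
      · exact h2
      · exfalso
        have h3 : (∅ : ZFSet.{u}) = insert k'.1 k'.1 := h2
        have h4 : k'.1 ∈ (∅ : ZFSet.{u}) := by rw [h3]; exact ZFSet.mem_insert _ _
        exact ZFSet.notMem_empty _ h4
    | succ k ih =>
      intro y hy
      have hyN := (hN.of_pair_mem (hN.mem_of_mem h.2 hy))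
      rcases hh ⟨natZ (k + 1), hyN.1⟩ ⟨y, hyN.2⟩ hy with ⟨h2, _⟩ | ⟨k', y', ⟨h1, h2⟩, h3, h4⟩
      · exfalso
        have h3 : natZ k ∈ natZ.{u} (k + 1) := natZ_mem.2 (Nat.lt_succ_self k)
        have h4 : natZ.{u} (k + 1) = ∅ := h2
        rw [h4] at h3
        exact ZFSet.notMem_empty _ h3
      · have hk : k'.1 = natZ k := by
          have h6 : natZ.{u} (k + 1) = insert k'.1 k'.1 := h2
          have h7 : k'.1 ∈ natZ.{u} (k + 1) := by rw [h6]; exact ZFSet.mem_insert _ _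
          obtain ⟨m, hm, hm'⟩ := mem_natZ.1 h7
          have h8 : natZ k ∈ natZ.{u} (k + 1) := natZ_mem.2 (Nat.lt_succ_self k)
          rw [h6, ZFSet.mem_insert_iff] at h8
          rcases h8 with h8 | h8
          · exact h8.symm
          · exfalso
            rw [hm', natZ_mem] at h8
            omega
        have h6 := ih y'.1 (by rw [← hk]; exact h3)
        rw [hk, h6, natD_natZ, natD_natZ] at h4
        exact h4
  have hcompl : ∀ (v : Fin n → N) (k : ℕ), ∃ h : N, Gd v h ∧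
      ZFSet.pair (natZ k) (natZ (Nat.rec (a v) (fun k y => g v k y) k)) ∈ h.1 := by
    intro v k
    obtain ⟨h, hh, hz⟩ := hN.finite_seq_mem
      (g := fun k => natZ (Nat.rec (a v) (fun k y => g v k y) k)) (fun k => hN.natZ_mem_N _) (k + 1)
    refine ⟨⟨h, hh⟩, ?_, (hz _).2 ⟨k, Nat.lt_succ_self k, rfl⟩⟩
    intro j y hj
    obtain ⟨i, hi, h1⟩ := (hz _).1 hj
    rw [ZFSet.pair_inj] at h1
    cases i with
    | zero => exact Or.inl ⟨h1.1, h1.2⟩
    | succ i =>
      refine Or.inr ⟨⟨natZ i, hN.natZ_mem_N i⟩, ⟨_, hN.natZ_mem_N _⟩, ⟨isNatZ_natZ _, h1.1⟩,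
        (hz _).2 ⟨i, by omega, rfl⟩, ?_⟩
      rw [h1.2, natD_natZ, natD_natZ]
  refine (Dfn.ex (P := fun v h => Gd (fun i => v i.castSucc) h ∧ ∃ x : N,
    x.1 = natZ (s (fun i => v i.castSucc)) ∧ ZFSet.pair x.1 (v (Fin.last n)).1 ∈ h.1) ?_).congr
    fun v => ?_
  · refine Dfn.and ?_ ?_
    · have h1 := hGd.reidx (n := n + 2) (Fin.lastCases (Fin.last (n + 1)) (fun i => i.castSucc.castSucc))
      refine h1.congr fun v => ?_
      simp only [Fin.lastCases_last, Fin.lastCases_castSucc]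
    · exact Dfn.ex (P := fun v x => x.1 = natZ (s (fun i => v i.castSucc.castSucc)) ∧
        ZFSet.pair x.1 (v (Fin.last n).castSucc).1 ∈ (v (Fin.last (n + 1))).1)
        (Dfn.and (Dfn.eqNatZ DT.last hs.lift.lift.lift)
          (Dfn.pairMem (DT.var _) (DT.var _) (DT.var _)))
  · constructor
    · rintro ⟨h, h1, x, h2, h3⟩
      rw [h2] at h3
      exact hsound _ _ h1 _ _ h3
    · intro h1
      obtain ⟨h, h2, h3⟩ := hcompl (fun i => v i.castSucc) (s fun i => v i.castSucc)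
      exact ⟨h, h2, ⟨natZ _, hN.natZ_mem_N _⟩, rfl, by rw [h1]; exact h3⟩

theorem DN.succ {n : ℕ} {s : (Fin n → N) → ℕ} (hs : hN.DN s) : hN.DN (fun v => s v + 1) := by
  refine (Dfn.ex (P := fun v x => x.1 = natZ (s (fun i => v i.castSucc)) ∧
    (v (Fin.last n)).1 = insert x.1 x.1) (Dfn.and (Dfn.eqNatZ DT.last hs.lift.lift)
      (Dfn.isInsert (DT.var _) (DT.var _) (DT.var _)))).congr fun v => ?_
  constructor
  · rintro ⟨x, h1, h2⟩
    rw [h2, h1]; rfl
  · intro h1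
    exact ⟨⟨natZ _, hN.natZ_mem_N _⟩, rfl, h1⟩

theorem DN.ite {n : ℕ} {s t : (Fin n → N) → ℕ} {P : (Fin n → N) → Prop} [∀ v, Decidable (P v)]
    (hP : hN.Dfn P) (hs : hN.DN s) (ht : hN.DN t) : hN.DN (fun v => if P v then s v else t v) := by
  refine ((Dfn.and hP.lift hs).or (Dfn.and hP.lift.not ht)).congr fun v => ?_
  by_cases h : P (fun i => v i.castSucc)
  · simp [h]
  · simp [h]

theorem DN.add {n : ℕ} {s t : (Fin n → N) → ℕ} (hs : hN.DN s) (ht : hN.DN t) :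
    hN.DN (fun v => s v + t v) := by
  refine (DN.rec (g := fun v k y => y + 1) hs (DN.succ (DN.var _)) ht).congr fun v => ?_
  generalize t v = k
  induction k with
  | zero => rfl
  | succ k ih =>
    show (Nat.rec (s v) (fun k y => y + 1) k : ℕ) + 1 = _
    rw [ih]; rfl

theorem DN.mul {n : ℕ} {s t : (Fin n → N) → ℕ} (hs : hN.DN s) (ht : hN.DN t) :
    hN.DN (fun v => s v * t v) := by
  refine (DN.rec (g := fun v k y => y + s v) (DN.const 0)
    (DN.add (DN.var _) hs.lift.lift) ht).congr fun v => ?_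
  generalize t v = k
  induction k with
  | zero => rfl
  | succ k ih =>
    show (Nat.rec 0 (fun k y => y + s v) k : ℕ) + s v = _
    rw [ih]; rfl

theorem DN.pair {n : ℕ} {s t : (Fin n → N) → ℕ} (hs : hN.DN s) (ht : hN.DN t) :
    hN.DN (fun v => Nat.pair (s v) (t v)) := by
  refine (DN.ite (P := fun v => s v < t v) (s := fun v => t v * t v + s v)
    (t := fun v => s v * s v + s v + t v) (Dfn.ltN hs ht) ((ht.mul ht).add hs)
    (((hs.mul hs).add hs).add ht)).congr fun v => ?_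
  rw [Nat.pair]

theorem DN.unpair1 {n : ℕ} {s : (Fin n → N) → ℕ} (hs : hN.DN s) :
    hN.DN (fun v => (s v).unpair.1) := by
  refine DN.of (P := fun v k => ∃ m, Nat.pair k m = s v) ?_ fun v k => ?_
  · refine Dfn.exN (P := fun v m => Nat.pair (natD (v (Fin.last n)).1) m = s (fun i => v i.castSucc)) ?_
    exact Dfn.eqN (DN.pair (DN.var _) (DN.var _)) hs.lift.lift
  · constructor
    · rintro ⟨m, h⟩; rw [← h, Nat.unpair_pair]
    · rintro rfl; exact ⟨(s v).unpair.2, Nat.pair_unpair _⟩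

theorem DN.unpair2 {n : ℕ} {s : (Fin n → N) → ℕ} (hs : hN.DN s) :
    hN.DN (fun v => (s v).unpair.2) := by
  refine DN.of (P := fun v k => ∃ m, Nat.pair m k = s v) ?_ fun v k => ?_
  · refine Dfn.exN (P := fun v m => Nat.pair m (natD (v (Fin.last n)).1) = s (fun i => v i.castSucc)) ?_
    exact Dfn.eqN (DN.pair (DN.var _) (DN.var _)) hs.lift.lift
  · constructor
    · rintro ⟨m, h⟩; rw [← h, Nat.unpair_pair]
    · rintro rfl; exact ⟨(s v).unpair.1, Nat.pair_unpair _⟩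

/-- Primitive recursive functions. -/
theorem DN.natPrimrec {F : ℕ → ℕ} (hF : Nat.Primrec F) : ∀ {n : ℕ} {s : (Fin n → N) → ℕ}, hN.DN s →
    hN.DN (fun v => F (s v)) := by
  induction hF with
  | zero => intro n s hs; exact DN.const 0
  | succ => intro n s hs; exact hs.succ
  | left => intro n s hs; exact hs.unpair1
  | right => intro n s hs; exact hs.unpair2
  | pair _ _ h1 h2 => intro n s hs; exact (h1 hs).pair (h2 hs)
  | comp _ _ h1 h2 => intro n s hs; exact h1 (h2 hs)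
  | @prec f g _ _ h1 h2 =>
    intro n s hs
    have h3 : hN.DN (fun v => Nat.rec (f (s v).unpair.1) (fun y IH => g (Nat.pair (s v).unpair.1
        (Nat.pair y IH))) (s v).unpair.2) :=
      DN.rec (a := fun v => f (s v).unpair.1) (s := fun v => (s v).unpair.2)
        (g := fun v y IH => g (Nat.pair (s v).unpair.1 (Nat.pair y IH))) (h1 hs.unpair1)
        (h2 (DN.pair hs.unpair1.lift.lift (DN.pair (DN.var _) (DN.var _)))) hs.unpair2
    exact h3

theorem DN.primrec {F : ℕ → ℕ} (hF : Primrec F) {n : ℕ} {s : (Fin n → N) → ℕ} (hs : hN.DN s) :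
    hN.DN (fun v => F (s v)) := DN.natPrimrec (Primrec.nat_iff.1 hF) hs

theorem DN.primrec₂ {F : ℕ → ℕ → ℕ} (hF : Primrec₂ F) {n : ℕ} {s t : (Fin n → N) → ℕ} (hs : hN.DN s)
    (ht : hN.DN t) : hN.DN (fun v => F (s v) (t v)) := by
  have h1 : Primrec (fun p : ℕ => F p.unpair.1 p.unpair.2) := hF.comp
    (Primrec.fst.comp Primrec.unpair) (Primrec.snd.comp Primrec.unpair)
  refine (DN.primrec h1 (hs.pair ht)).congr fun v => ?_
  rw [Nat.unpair_pair]

/-! ### Reals -/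

theorem isRlZ_iff' (hN : CTM N) {x : ZFSet.{u}} (hx : x ∈ N) : IsRlZ x ↔ ∃ f ∈ Rl N, x = rz f := by
  rw [isRlZ_iff]
  constructor
  · rintro ⟨f, rfl⟩; exact ⟨f, hx, rfl⟩
  · rintro ⟨f, _, rfl⟩; exact ⟨f, rfl⟩

/-- A definable real is a real of the model. -/
theorem mem_Rl {n : ℕ} {f : (Fin n → N) → ℕ → ℕ} (hf : hN.DR f) (v : Fin n → N) : f v ∈ Rl N := by
  have h1 : hN.Dfn (fun w : Fin 1 → N => ∃ k : ℕ, ∃ x : N, ∃ y : N, (w 0).1 = ZFSet.pair x.1 y.1 ∧
      (x.1 = natZ k ∧ y.1 = natZ (f v k))) := by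
    refine Dfn.exN (P := fun w k => ∃ x : N, ∃ y : N, (w 0).1 = ZFSet.pair x.1 y.1 ∧
      (x.1 = natZ k ∧ y.1 = natZ (f v k))) ?_
    refine Dfn.ex (P := fun w x => ∃ y : N, (w 0).1 = ZFSet.pair x.1 y.1 ∧
      (x.1 = natZ (natD (w (Fin.last 1)).1) ∧ y.1 = natZ (f v (natD (w (Fin.last 1)).1)))) ?_
    refine Dfn.ex (P := fun w y => (w 0).1 = ZFSet.pair (w 2).1 y.1 ∧
      ((w 2).1 = natZ (natD (w 1).1) ∧ y.1 = natZ (f v (natD (w 1).1)))) ?_
    refine Dfn.and (Dfn.isPair (DT.var _) (DT.var _) (DT.var _)) (Dfn.and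
      (Dfn.eqNatZ (DT.var _) (DN.var _)) ?_)
    have h2 : hN.DR (fun w : Fin 4 → N => f v) := by
      have h3 : hN.Dfn (fun w : Fin 6 → N => (w 5).1 = natZ (f v (natD (w 4).1))) := by
        let t : Fin (n + 2) → (Fin 6 → N) → N :=
          Fin.lastCases (fun w => w 5) (Fin.lastCases (fun w => w 4) (fun i w => v i))
        have ht : ∀ i, hN.DT (t i) := by
          intro i
          refine Fin.lastCases ?_ (fun i => ?_) i
          · simp only [t, Fin.lastCases_last]; exact DT.var _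
          · refine Fin.lastCases ?_ (fun i => ?_) i
            · simp only [t, Fin.lastCases_last, Fin.lastCases_castSucc]; exact DT.var _
            · simp only [t, Fin.lastCases_castSucc]; exact DT.const _
        refine (Dfn.substG hf ht).congr fun w => ?_
        simp only [t, Fin.lastCases_last, Fin.lastCases_castSucc]
      exact h3
    exact Dfn.eqNatZ (DT.var _) (DN.app h2 (DN.var _))
  obtain ⟨b, hb, hb'⟩ := hN.exists_sep (P := fun z => ∃ k : ℕ, ∃ x : N, ∃ y : N,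
    z.1 = ZFSet.pair x.1 y.1 ∧ (x.1 = natZ k ∧ y.1 = natZ (f v k))) h1 (hN.prod_mem hN.omZ_mem hN.omZ_mem)
  have : rz (f v) = b := by
    ext z
    rw [mem_rz, hb']
    constructor
    · rintro ⟨k, rfl⟩
      have h2 := hN.natZ_mem_N k
      have h3 := hN.natZ_mem_N (f v k)
      exact ⟨ZFSet.pair_mem_prod.2 ⟨natZ_mem_omZ _, natZ_mem_omZ _⟩, hN.pair_mem h2 h3, k, ⟨_, h2⟩,
        ⟨_, h3⟩, rfl, rfl, rfl⟩
    · rintro ⟨_, _, k, x, y, h2, h3, h4⟩
      exact ⟨k, by rw [← h3, ← h4]; exact h2⟩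
  show rz (f v) ∈ N
  rw [this]
  exact hb

theorem mem_Rl' (hN : CTM N) {f : ℕ → ℕ} (hf : hN.DR (fun _ : Fin 0 → N => f)) : f ∈ Rl N := mem_Rl hf Fin.elim0

theorem DR.mk {n : ℕ} {f : (Fin n → N) → ℕ → ℕ}
    (h : hN.DN (fun v : Fin (n + 1) → N => f (fun i => v i.castSucc) (natD (v (Fin.last n)).1))) :
    hN.DR f := h

theorem DR.ofDT {n : ℕ} {t : (Fin n → N) → N} (ht : hN.DT t) : hN.DR (fun v => rlD (t v).1) := by
  classical
  have h1 : hN.Dfn (fun v : Fin (n + 2) → N =>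
      ZFSet.pair (natZ (natD (v (Fin.last n).castSucc).1)) (natZ (natD (v (Fin.last (n + 1))).1)) ∈
        (t (fun i => v i.castSucc.castSucc)).1) := by
    refine (Dfn.ex (P := fun v x => x.1 = natZ (natD (v (Fin.last n).castSucc).1) ∧
      ∃ y : N, y.1 = natZ (natD (v (Fin.last (n + 1))).1) ∧ ZFSet.pair x.1 y.1 ∈
        (t (fun i => v i.castSucc.castSucc)).1) (Dfn.and (Dfn.eqNatZ (DT.var _) (DN.var _))
        (Dfn.ex (P := fun v y => y.1 = natZ (natD (v (Fin.last (n + 1)).castSucc).1) ∧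
          ZFSet.pair (v (Fin.last (n + 2))).1 y.1 ∈ (t (fun i => v i.castSucc.castSucc.castSucc)).1)
          (Dfn.and (Dfn.eqNatZ (DT.var _) (DN.var _))
            (Dfn.pairMem (DT.var _) (DT.var _) ht.lift.lift.lift.lift))))).congr fun v => ?_
    constructor
    · rintro ⟨x, h1, y, h2, h3⟩
      rw [h1, h2] at h3; exact h3
    · intro h
      exact ⟨⟨_, hN.natZ_mem_N _⟩, rfl, ⟨_, hN.natZ_mem_N _⟩, rfl, h⟩
  let R : (Fin n → N) → ℕ → ℕ → Prop := fun v k m => ZFSet.pair (natZ k) (natZ m) ∈ (t v).1 ∧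
    ∀ m', ZFSet.pair (natZ k) (natZ m') ∈ (t v).1 → m' = m
  have hR : hN.Dfn (fun v : Fin (n + 2) → N => R (fun i => v i.castSucc.castSucc)
      (natD (v (Fin.last n).castSucc).1) (natD (v (Fin.last (n + 1))).1)) := by
    refine Dfn.and h1 ?_
    refine Dfn.allN (P := fun v m' => ZFSet.pair (natZ (natD (v (Fin.last n).castSucc).1)) (natZ m') ∈
      (t (fun i => v i.castSucc.castSucc)).1 → m' = natD (v (Fin.last (n + 1))).1) ?_
    refine Dfn.imp ?_ (Dfn.eqN (DN.var _) (DN.var _))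
    refine (h1.reidx (n := n + 3) (Fin.lastCases (Fin.last (n + 2)) (Fin.lastCases
      (Fin.last n).castSucc.castSucc (fun i => i.castSucc.castSucc.castSucc)))).congr fun v => ?_
    simp only [Fin.lastCases_last, Fin.lastCases_castSucc]
  refine DN.of (P := fun v m => R (fun i => v i.castSucc) (natD (v (Fin.last n)).1) m ∨
    (m = 0 ∧ ∀ m', ¬ R (fun i => v i.castSucc) (natD (v (Fin.last n)).1) m')) ?_ fun v m => ?_
  · refine Dfn.or hR (Dfn.and (Dfn.eqN (DN.var _) (DN.const 0)) ?_)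
    refine Dfn.allN (P := fun v m' => ¬ R (fun i => v i.castSucc.castSucc)
      (natD (v (Fin.last n).castSucc).1) m') ?_
    refine Dfn.not ?_
    refine (hR.reidx (n := n + 3) (Fin.lastCases (Fin.last (n + 2)) (Fin.lastCases
      (Fin.last n).castSucc.castSucc (fun i => i.castSucc.castSucc.castSucc)))).congr fun v => ?_
    simp only [Fin.lastCases_last, Fin.lastCases_castSucc]
  · have huni : ∀ k m m', R (fun i => v i.castSucc) k m → R (fun i => v i.castSucc) k m' → m = m' :=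
      fun k m m' h h' => h'.2 m h.1
    by_cases h : ∃ m, R (fun i => v i.castSucc) (natD (v (Fin.last n)).1) m
    · have h2 : rlD (t (fun i => v i.castSucc)).1 (natD (v (Fin.last n)).1) = h.choose := by
        rw [rlD, dif_pos h]
      show _ ↔ rlD (t (fun i => v i.castSucc)).1 (natD (v (Fin.last n)).1) = m
      rw [h2]
      constructor
      · rintro (h3 | ⟨_, h3⟩)
        · exact huni _ _ _ h.choose_spec h3
        · exact (h3 _ h.choose_spec).elim
      · rintro rfl; exact Or.inl h.choose_spec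
    · have h2 : rlD (t (fun i => v i.castSucc)).1 (natD (v (Fin.last n)).1) = 0 := by
        rw [rlD, dif_neg h]
      show _ ↔ rlD (t (fun i => v i.castSucc)).1 (natD (v (Fin.last n)).1) = m
      rw [h2]
      constructor
      · rintro (h3 | ⟨h3, _⟩)
        · exact (h ⟨_, h3⟩).elim
        · exact h3.symm
      · rintro rfl; exact Or.inr ⟨rfl, fun m' h' => h ⟨m', h'⟩⟩

theorem DR.var {n : ℕ} (i : Fin n) : hN.DR (fun v => rlD (v i).1) := DR.ofDT (DT.var i)

theorem DR.const {n : ℕ} {f : ℕ → ℕ} (hf : f ∈ Rl N) : hN.DR (fun _ : Fin n → N => f) :=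
  (DR.ofDT (DT.const ⟨rz f, hf⟩)).congr fun v k => by rw [rlD_rz]

theorem Dfn.isRl {n : ℕ} {t : (Fin n → N) → N} (ht : hN.DT t) : hN.Dfn (fun v => IsRlZ (t v).1) := by
  refine Dfn.and ?_ ?_
  · refine (Dfn.ballZ (p := fun v z => ∃ n m : ℕ, z = ZFSet.pair (natZ n) (natZ m)) ht ?_).congr
      fun v => Iff.rfl
    refine Dfn.exN (P := fun v k => ∃ m : ℕ, (v (Fin.last n)).1 = ZFSet.pair (natZ k) (natZ m)) ?_
    refine Dfn.exN (P := fun v m => (v (Fin.last n).castSucc).1 =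
      ZFSet.pair (natZ (natD (v (Fin.last (n + 1))).1)) (natZ m)) ?_
    refine (Dfn.ex (P := fun v x => x.1 = natZ (natD (v (Fin.last (n + 1)).castSucc).1) ∧
      ∃ y : N, y.1 = natZ (natD (v (Fin.last (n + 2))).1) ∧ (v (Fin.last n).castSucc.castSucc).1 =
      ZFSet.pair x.1 y.1) (Dfn.and (Dfn.eqNatZ (DT.var _) (DN.var _)) (Dfn.ex (P := fun v y =>
      y.1 = natZ (natD (v (Fin.last (n + 2)).castSucc).1) ∧
      (v (Fin.last n).castSucc.castSucc.castSucc).1 = ZFSet.pair (v (Fin.last (n + 3))).1 y.1)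
      (Dfn.and (Dfn.eqNatZ (DT.var _) (DN.var _)) (Dfn.isPair (DT.var _) (DT.var _) (DT.var _)))))).congr
      fun v => ?_
    constructor
    · rintro ⟨x, h1, y, h2, h3⟩
      rw [h1, h2] at h3; exact h3
    · intro h
      exact ⟨⟨_, hN.natZ_mem_N _⟩, rfl, ⟨_, hN.natZ_mem_N _⟩, rfl, h⟩
  · have h1 : ∀ {n : ℕ} {t : (Fin n → N) → N} {a b : (Fin n → N) → ℕ}, hN.DT t → hN.DN a → hN.DN b →
        hN.Dfn (fun v => ZFSet.pair (natZ (a v)) (natZ (b v)) ∈ (t v).1) := by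
      intro n t a b ht ha hb
      refine (Dfn.ex (P := fun v x => x.1 = natZ (a v) ∧
        ∃ y : N, y.1 = natZ (b v) ∧ ZFSet.pair x.1 y.1 ∈ (t v).1) (Dfn.and (Dfn.eqNatZ (DT.var _) ha.lift)
        (Dfn.ex (P := fun v y => y.1 = natZ (b (fun i => v i.castSucc)) ∧
          ZFSet.pair (v (Fin.last n)).1 y.1 ∈ (t (fun i => v i.castSucc)).1)
          (Dfn.and (Dfn.eqNatZ (DT.var _) hb.lift.lift)
            (Dfn.pairMem (DT.var _) (DT.var _) ht.lift.lift))))).congr fun v => ?_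
      constructor
      · rintro ⟨x, h1, y, h2, h3⟩
        rw [h1, h2] at h3; exact h3
      · intro h
        exact ⟨⟨_, hN.natZ_mem_N _⟩, rfl, ⟨_, hN.natZ_mem_N _⟩, rfl, h⟩
    refine Dfn.allN (P := fun v k => ∃ m, ZFSet.pair (natZ k) (natZ m) ∈ (t v).1 ∧
      ∀ m', ZFSet.pair (natZ k) (natZ m') ∈ (t v).1 → m' = m) ?_
    refine Dfn.exN (P := fun v m => ZFSet.pair (natZ (natD (v (Fin.last n)).1)) (natZ m) ∈
      (t (fun i => v i.castSucc)).1 ∧ ∀ m', ZFSet.pair (natZ (natD (v (Fin.last n)).1)) (natZ m') ∈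
      (t (fun i => v i.castSucc)).1 → m' = m) ?_
    refine Dfn.and (h1 ht.lift.lift (DN.var _) (DN.var _)) ?_
    refine Dfn.allN (P := fun v m' => ZFSet.pair (natZ (natD (v (Fin.last n).castSucc).1)) (natZ m') ∈
      (t (fun i => v i.castSucc.castSucc)).1 → m' = natD (v (Fin.last (n + 1))).1) ?_
    exact Dfn.imp (h1 ht.lift.lift.lift (DN.var _) (DN.var _)) (Dfn.eqN (DN.var _) (DN.var _))

/-- Quantifiers over the reals of the model. -/
theorem Dfn.exR {n : ℕ} {P : (Fin n → N) → (ℕ → ℕ) → Prop}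
    (h : hN.Dfn (fun v : Fin (n + 1) → N => P (fun i => v i.castSucc) (rlD (v (Fin.last n)).1))) :
    hN.Dfn (fun v => ∃ x ∈ Rl N, P v x) := by
  refine (Dfn.ex (P := fun v x => IsRlZ x.1 ∧ P v (rlD x.1)) (Dfn.and (Dfn.isRl DT.last) h)).congr
    fun v => ?_
  constructor
  · rintro ⟨x, h1, h2⟩
    obtain ⟨f, hf, h3⟩ := (isRlZ_iff' hN x.2).1 h1
    rw [h3, rlD_rz] at h2
    exact ⟨f, hf, h2⟩
  · rintro ⟨f, hf, h2⟩
    exact ⟨⟨rz f, hf⟩, isRlZ_rz f, by rwa [rlD_rz]⟩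

theorem Dfn.allR {n : ℕ} {P : (Fin n → N) → (ℕ → ℕ) → Prop}
    (h : hN.Dfn (fun v : Fin (n + 1) → N => P (fun i => v i.castSucc) (rlD (v (Fin.last n)).1))) :
    hN.Dfn (fun v => ∀ x ∈ Rl N, P v x) := by
  refine (Dfn.not (Dfn.exR (P := fun v x => ¬ P v x) h.not)).congr fun v => ?_
  push Not
  exact Iff.rfl

/-- The graph of a definable real valued term. -/
theorem Dfn.eqRz {n : ℕ} {t : (Fin n → N) → N} {f : (Fin n → N) → ℕ → ℕ} (ht : hN.DT t)
    (hf : hN.DR f) : hN.Dfn (fun v => (t v).1 = rz (f v)) := by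
  refine ((Dfn.isRl ht).and (Dfn.allN (P := fun v k => rlD (t v).1 k = f v k)
    (Dfn.eqN (DR.ofDT ht) hf))).congr fun v => ?_
  constructor
  · rintro ⟨h1, h2⟩
    obtain ⟨g, hg⟩ := isRlZ_iff.1 h1
    rw [hg, rlD_rz] at h2
    rw [hg, rz_inj]
    exact funext h2
  · intro h
    rw [h]
    exact ⟨isRlZ_rz _, fun k => by rw [rlD_rz]⟩

/-- Substitution of a real valued term. -/
theorem Dfn.subR {n : ℕ} {P : (Fin n → N) → (ℕ → ℕ) → Prop} {f : (Fin n → N) → ℕ → ℕ}
    (h : hN.Dfn (fun v : Fin (n + 1) → N => P (fun i => v i.castSucc) (rlD (v (Fin.last n)).1)))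
    (hf : hN.DR f) : hN.Dfn (fun v => P v (f v)) := by
  refine (Dfn.ex (P := fun v x => x.1 = rz (f v) ∧ P v (rlD x.1)) (Dfn.and (Dfn.eqRz DT.last hf.lift)
    h)).congr fun v => ?_
  constructor
  · rintro ⟨x, h1, h2⟩
    rwa [h1, rlD_rz] at h2
  · intro h1
    exact ⟨⟨rz (f v), mem_Rl hf v⟩, rfl, by rwa [rlD_rz]⟩

theorem DN.subR {n : ℕ} {g : (Fin n → N) → (ℕ → ℕ) → ℕ} {f : (Fin n → N) → ℕ → ℕ}
    (h : hN.DN (fun v : Fin (n + 1) → N => g (fun i => v i.castSucc) (rlD (v (Fin.last n)).1)))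
    (hf : hN.DR f) : hN.DN (fun v => g v (f v)) := by
  refine Dfn.subR (n := n + 1) (P := fun v x => (v (Fin.last n)).1 = natZ (g (fun i => v i.castSucc) x))
    (f := fun v => f (fun i => v i.castSucc)) ?_ hf.lift
  have h1 : hN.Dfn (fun v : Fin (n + 2) → N => (v (Fin.last (n + 1))).1 =
      natZ (g (fun i => v i.castSucc.castSucc) (rlD (v (Fin.last n).castSucc).1))) := h
  have h2 := h1.reidx (n := n + 2) (Fin.lastCases (Fin.last n).castSucc
    (Fin.lastCases (Fin.last (n + 1)) (fun i => i.castSucc.castSucc)))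
  refine h2.congr fun v => ?_
  simp only [Fin.lastCases_last, Fin.lastCases_castSucc]

end CTM

end Pool.Agent.H17.Omega
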