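import Pool.Agent.H17.GP.Rl

/-!
# Reals of a countable transitive model: finite sequences, `Σ¹₁` correctness, choice

* `exists_br`: a tree coded by a real of the model which has a branch has a branch in the model;
* `Dfn.exReal`: the statement that a definable tree has a branch is definable;
* `exists_choiceR`, `exists_dcR`: countable and dependent choice for reals of the model.
-/

set_option autoImplicit false
set_option linter.unusedVariables false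
set_option linter.unusedSectionVars false

universe u v w

namespace Pool.Agent.H17.GP

theorem encode_dl (k : ℕ) : Encodable.encode (dl k) = k := Denumerable.encode_ofNat k

theorem dl_encode (l : List ℕ) : dl (Encodable.encode l) = l := Denumerable.ofNat_encode l

theorem prim_dl : Primrec dl := Primrec.ofNat (List ℕ)

/-- Append a number to a coded finite sequence. -/
def snocN (c a : ℕ) : ℕ := Encodable.encode (dl c ++ [a])

/-- Length of a coded finite sequence. -/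
def lenN (c : ℕ) : ℕ := (dl c).length

/-- Entries of a coded finite sequence. -/
def getN (c i : ℕ) : ℕ := (dl c).getD i 0

/-- Restriction of a coded finite sequence. -/
def takeN (c i : ℕ) : ℕ := Encodable.encode ((dl c).take i)

theorem prim_snocN : Primrec₂ snocN :=
  Primrec.encode.comp (Primrec.list_append.comp (prim_dl.comp Primrec.fst)
    (Primrec.list_cons.comp Primrec.snd (Primrec.const [])))

theorem prim_lenN : Primrec lenN := Primrec.list_length.comp prim_dl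

theorem prim_getN : Primrec₂ getN := (Primrec.list_getD 0).comp (prim_dl.comp Primrec.fst) Primrec.snd

theorem prim_takeN : Primrec₂ takeN :=
  Primrec.encode.comp (Primrec.list_take.comp Primrec.snd (prim_dl.comp Primrec.fst))

theorem ini_zero (x : ℕ → ℕ) : ini x 0 = 0 := rfl

theorem dl_ini (x : ℕ → ℕ) (n : ℕ) : dl (ini x n) = (List.range n).map x := dl_encode _

theorem ini_succ (x : ℕ → ℕ) (n : ℕ) : ini x (n + 1) = snocN (ini x n) (x n) := by
  rw [snocN, dl_ini, ini, List.range_succ, List.map_append]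
  rfl

theorem dl_snocN (c a : ℕ) : dl (snocN c a) = dl c ++ [a] := dl_encode _

theorem lenN_snocN (c a : ℕ) : lenN (snocN c a) = lenN c + 1 := by
  rw [lenN, dl_snocN, List.length_append]; rfl

theorem lenN_ini (x : ℕ → ℕ) (n : ℕ) : lenN (ini x n) = n := by
  rw [lenN, dl_ini, List.length_map, List.length_range]

theorem getN_ini {x : ℕ → ℕ} {n i : ℕ} (h : i < n) : getN (ini x n) i = x i := by
  rw [getN, dl_ini, List.getD_eq_getElem _ _ (by simpa using h)]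
  simp

theorem takeN_ini {x : ℕ → ℕ} {n i : ℕ} (h : i ≤ n) : takeN (ini x n) i = ini x i := by
  rw [takeN, dl_ini, ini, ← List.map_take, List.take_range, min_eq_left h]

theorem ini_congr {x y : ℕ → ℕ} {n : ℕ} (h : ∀ i < n, x i = y i) : ini x n = ini y n := by
  rw [ini, ini]
  congr 1
  exact List.map_congr_left fun i hi => h i (List.mem_range.1 hi)

theorem ini_inj {x y : ℕ → ℕ} {n m : ℕ} (h : ini x n = ini y m) : n = m ∧ ∀ i < n, x i = y i := by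
  have h1 : n = m := by rw [← lenN_ini x n, h, lenN_ini]
  subst h1
  exact ⟨rfl, fun i hi => by rw [← getN_ini (x := x) hi, h, getN_ini hi]⟩

/-- Every coded sequence is an initial segment. -/
theorem eq_ini (c : ℕ) : c = ini (getN c) (lenN c) := by
  rw [ini]
  conv_lhs => rw [← encode_dl c]
  congr 1
  apply List.ext_getElem
  · simp [lenN]
  · intro i h1 h2
    simp only [List.getElem_map, List.getElem_range, getN]
    rw [List.getD_eq_getElem _ _ h1]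

end Pool.Agent.H17.GP

namespace Pool.Agent.H17.Omega

open Pool.Agent.H17.GP

namespace CTM

variable {N : Set ZFSet.{u}} {hN : CTM N}

theorem DN.ini {n : ℕ} {f : (Fin n → N) → ℕ → ℕ} {s : (Fin n → N) → ℕ} (hf : hN.DR f) (hs : hN.DN s) :
    hN.DN (fun v => ini (f v) (s v)) := by
  refine (DN.rec (g := fun v k y => snocN y (f v k)) (DN.const 0)
    (DN.primrec₂ prim_snocN (DN.var _) (DN.app hf.lift.lift (DN.var _))) hs).congr fun v => ?_
  generalize s v = k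
  induction k with
  | zero => rfl
  | succ k ih => rw [ini_succ, ← ih]

/-- Relations on the natural numbers as sets of pairs. -/
theorem exists_relN {R : ℕ → ℕ → Prop}
    (hR : hN.Dfn (fun v : Fin 2 → N => R (natD (v 0).1) (natD (v 1).1))) :
    ∃ E ∈ N, ∀ z, z ∈ E ↔ ∃ a b, z = ZFSet.pair (natZ a) (natZ b) ∧ R a b := by
  have h1 : hN.Dfn (fun v : Fin 1 → N => ∃ x y : N, (v 0).1 = ZFSet.pair x.1 y.1 ∧
      R (natD x.1) (natD y.1)) :=
    Dfn.exPair (P := fun _ x y => R (natD x.1) (natD y.1)) (DT.var _) (hR.reidx (n := 3) ![1, 2])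
  obtain ⟨E, hE, hE'⟩ := hN.exists_sep (P := fun z => ∃ x y : N, z.1 = ZFSet.pair x.1 y.1 ∧
      R (natD x.1) (natD y.1)) h1 (hN.prod_mem hN.omZ_mem hN.omZ_mem)
  refine ⟨E, hE, fun z => ?_⟩
  rw [hE']
  constructor
  · rintro ⟨h2, h3, x, y, h4, h5⟩
    have h4 : z = ZFSet.pair x.1 y.1 := h4
    rw [h4, ZFSet.pair_mem_prod] at h2
    obtain ⟨a, ha⟩ := mem_omZ.1 h2.1
    obtain ⟨b, hb⟩ := mem_omZ.1 h2.2
    rw [ha, hb, natD_natZ, natD_natZ] at h5
    exact ⟨a, b, by rw [h4, ha, hb], h5⟩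
  · rintro ⟨a, b, rfl, h⟩
    have h2 := hN.natZ_mem_N a
    have h3 := hN.natZ_mem_N b
    exact ⟨ZFSet.pair_mem_prod.2 ⟨natZ_mem_omZ _, natZ_mem_omZ _⟩, hN.pair_mem h2 h3, ⟨_, h2⟩, ⟨_, h3⟩,
      rfl, by rwa [natD_natZ, natD_natZ]⟩

/-- `Σ¹₁` correctness: a tree of the model with a branch `q` has a branch in the model that agrees with `q`
below `m`. -/
theorem exists_br (hN : CTM N) {b : ℕ → ℕ} (hb : b ∈ Rl N) {q : ℕ → ℕ} (m : ℕ)
    (h : ∀ n, b (ini q n) ≠ 0) :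
    ∃ q' ∈ Rl N, (∀ i < m, q' i = q i) ∧ ∀ n, b (ini q' n) ≠ 0 := by
  have hR : hN.Dfn (fun v : Fin 2 → N => (b (natD (v 0).1) ≠ 0 ∧ b (natD (v 1).1) ≠ 0) ∧
      ∃ j, natD (v 0).1 = snocN (natD (v 1).1) j) := by
    refine Dfn.and (Dfn.and (Dfn.not (Dfn.eqN (DN.app (DR.const hb) (DN.var _)) (DN.const 0)))
      (Dfn.not (Dfn.eqN (DN.app (DR.const hb) (DN.var _)) (DN.const 0)))) ?_
    exact Dfn.exN (P := fun v j => natD (v 0).1 = snocN (natD (v 1).1) j)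
      (Dfn.eqN (DN.var _) (DN.primrec₂ prim_snocN (DN.var _) (DN.var _)))
  obtain ⟨E, hE, hE'⟩ := exists_relN (R := fun y x => (b y ≠ 0 ∧ b x ≠ 0) ∧ ∃ j, y = snocN x j) hR
  obtain ⟨g, g0, hg, gN⟩ := hN.exists_desc (D := omZ) (f := fun n => natZ (ini q (m + n)))
    hN.omZ_mem hE (by
      intro y x hyx
      obtain ⟨a, c, h1, _⟩ := (hE' _).1 hyx
      rw [ZFSet.pair_inj] at h1
      rw [h1.1, h1.2]
      exact ⟨natZ_mem_omZ _, natZ_mem_omZ _⟩) (by
      intro n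
      refine (hE' _).2 ⟨_, _, rfl, ⟨h _, h _⟩, q (m + n), ?_⟩
      rw [← add_assoc, ini_succ])
  -- the sequence of codes
  let c : ℕ → ℕ := fun n => natD (g n)
  have hgc : ∀ n, g n = natZ (c n) := by
    intro n
    obtain ⟨a, d, h1, _⟩ := (hE' _).1 (hg n)
    rw [ZFSet.pair_inj] at h1
    show g n = natZ (natD (g n))
    rw [h1.2, natD_natZ]
  have hc0 : c 0 = ini q m := by
    show natD (g 0) = _
    rw [g0, natD_natZ]; rfl
  have hcs : ∀ n, b (c n) ≠ 0 ∧ ∃ j, c (n + 1) = snocN (c n) j := by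
    intro n
    obtain ⟨a, d, h1, h2, j, h3⟩ := (hE' _).1 (hg n)
    rw [hgc, hgc, ZFSet.pair_inj, natZ_inj, natZ_inj] at h1
    rw [h1.1, h1.2]
    exact ⟨h2.2, j, h3⟩
  have hcN : c ∈ Rl N := by
    show rz c ∈ N
    have : rz c = seqZ g := by
      rw [rz_eq_seqZ]
      congr 1
      funext n
      exact (hgc n).symm
    rw [this]; exact gN
  let q' : ℕ → ℕ := fun i => getN (c (i + 1)) i
  have hlen : ∀ n, (dl (c n)).length = m + n := by
    intro n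
    induction n with
    | zero => rw [hc0, dl_ini]; simp
    | succ n ih =>
      obtain ⟨_, j, hj⟩ := hcs n
      rw [hj, dl_snocN, List.length_append, ih]; rfl
  have hget : ∀ n k i, i < m + n → (dl (c (n + k))).getD i 0 = (dl (c n)).getD i 0 := by
    intro n k i hi
    induction k with
    | zero => rfl
    | succ k ih =>
      obtain ⟨_, j, hj⟩ := hcs (n + k)
      rw [← add_assoc, hj, dl_snocN, List.getD_append _ _ _ _ (by rw [hlen]; omega), ih]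
  have hc : ∀ n, c n = ini q' (m + n) := by
    intro n
    rw [eq_ini (c n)]
    have h1 : lenN (c n) = m + n := hlen n
    rw [h1]
    refine ini_congr fun i hi => ?_
    show (dl (c n)).getD i 0 = (dl (c (i + 1))).getD i 0
    rcases le_total n (i + 1) with h2 | h2
    · obtain ⟨k, hk⟩ := Nat.exists_eq_add_of_le h2
      rw [hk]
      exact (hget n k i hi).symm
    · obtain ⟨k, hk⟩ := Nat.exists_eq_add_of_le h2
      rw [hk]
      exact hget (i + 1) k i (by omega)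
  have hq' : ∀ i < m, q' i = q i := by
    intro i hi
    have h1 := hc 0
    rw [hc0] at h1
    exact ((ini_inj h1).2 i hi).symm
  refine ⟨q', mem_Rl' hN (DR.mk (DN.primrec₂ prim_getN (DN.app (DR.const hcN) (DN.succ (DN.var _)))
    (DN.var _))), hq', fun n => ?_⟩
  rcases le_total n m with h1 | h1
  · rw [ini_congr (x := q') (y := q) fun i hi => hq' i (lt_of_lt_of_le hi h1)]
    exact h n
  · obtain ⟨k, rfl⟩ := Nat.exists_eq_add_of_le h1
    rw [← hc]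
    exact (hcs k).1

theorem exists_br_iff (hN : CTM N) {b : ℕ → ℕ} (hb : b ∈ Rl N) :
    (∃ q : ℕ → ℕ, ∀ n, b (ini q n) ≠ 0) ↔ ∃ q ∈ Rl N, ∀ n, b (ini q n) ≠ 0 := by
  constructor
  · rintro ⟨q, h⟩
    obtain ⟨q', h1, _, h2⟩ := hN.exists_br hb 0 h
    exact ⟨q', h1, h2⟩
  · rintro ⟨q, _, h⟩; exact ⟨q, h⟩

/-- Definability of `Σ¹₁` statements. -/
theorem Dfn.exReal {n : ℕ} {F : (Fin n → N) → ℕ → ℕ} (hF : hN.DR F) :
    hN.Dfn (fun v => ∃ q : ℕ → ℕ, ∀ k, F v (Pool.Agent.H17.GP.ini q k) ≠ 0) := by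
  refine (Dfn.exR (P := fun v q => ∀ k, F v (Pool.Agent.H17.GP.ini q k) ≠ 0) (Dfn.allN
    (P := fun v k => F (fun i => v i.castSucc) (Pool.Agent.H17.GP.ini (rlD (v (Fin.last n)).1) k) ≠ 0)
    (Dfn.not (Dfn.eqN (DN.app hF.lift.lift (DN.ini (DR.var _) (DN.var _))) (DN.const 0))))).congr
    fun v => (exists_br_iff hN (mem_Rl hF v)).symm

/-! ### Choice -/

/-- The set of all reals of the model. -/
theorem exists_reals (hN : CTM N) : ∃ D ∈ N, ∀ z, z ∈ D ↔ ∃ x ∈ Rl N, z = rz x := by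
  obtain ⟨p, hp, hp'⟩ := hN.exists_pow (hN.prod_mem hN.omZ_mem hN.omZ_mem)
  obtain ⟨D, hD, hD'⟩ := hN.exists_sep (P := fun z => IsRlZ z.1) (Dfn.isRl (DT.var _)) hp
  refine ⟨D, hD, fun z => ?_⟩
  rw [hD']
  constructor
  · rintro ⟨h1, h2, h3⟩
    exact (isRlZ_iff' hN h2).1 h3
  · rintro ⟨x, hx, rfl⟩
    refine ⟨(hp' _).2 ⟨hx, fun z hz => ?_⟩, hx, isRlZ_rz x⟩
    obtain ⟨n, rfl⟩ := mem_rz.1 hz
    exact ZFSet.pair_mem_prod.2 ⟨natZ_mem_omZ _, natZ_mem_omZ _⟩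

/-- A definable choice function for the reals: for every definable relation `P x y` (with `x` in the model and `y` a
real) there is a definable function. -/
theorem exists_choice_term (hN : CTM N) {P : N → (ℕ → ℕ) → Prop}
    (hP : hN.Dfn (fun v : Fin 2 → N => P (v 0) (rlD (v 1).1))) :
    ∃ S : N → N → Prop, hN.Dfn (fun v : Fin 2 → N => S (v 0) (v 1)) ∧
      (∀ x y, S x y → ∃ f ∈ Rl N, y.1 = rz f ∧ P x f) ∧ (∀ x y y', S x y → S x y' → y = y') ∧
      ∀ x, (∃ f ∈ Rl N, P x f) → ∃ y, S x y := by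
  obtain ⟨D, hD, hD'⟩ := hN.exists_reals
  obtain ⟨p, hp, hp'⟩ := hN.exists_pow hD
  obtain ⟨C, hC, hC'⟩ := hN.exists_choice hp
  let S : N → N → Prop := fun x y => ∃ b : N, (∀ z : N, z.1 ∈ b.1 ↔ z.1 ∈ D ∧ P x (rlD z.1)) ∧
    (y.1 ∈ b.1 ∧ ZFSet.pair b.1 y.1 ∈ C)
  have hbp : ∀ (x b : N), (∀ z : N, z.1 ∈ b.1 ↔ z.1 ∈ D ∧ P x (rlD z.1)) → b.1 ∈ p := fun x b h =>
    (hp' _).2 ⟨b.2, fun z hz => ((h ⟨z, hN.mem_of_mem b.2 hz⟩).1 hz).1⟩
  refine ⟨S, ?_, ?_, ?_, ?_⟩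
  · refine Dfn.ex (P := fun v b => (∀ z : N, z.1 ∈ b.1 ↔ z.1 ∈ D ∧ P (v 0) (rlD z.1)) ∧
      ((v 1).1 ∈ b.1 ∧ ZFSet.pair b.1 (v 1).1 ∈ C)) (Dfn.and ?_ (Dfn.and (Dfn.mem (DT.var _) (DT.var _))
        (Dfn.pairMem (DT.var _) (DT.var _) (DT.const ⟨C, hC⟩))))
    refine Dfn.all (P := fun v z => z.1 ∈ (v 2).1 ↔ z.1 ∈ D ∧ P (v 0) (rlD z.1)) (Dfn.iff
      (Dfn.mem (DT.var _) (DT.var _)) (Dfn.and (Dfn.mem (DT.var _) (DT.const ⟨D, hD⟩)) ?_))
    exact hP.reidx (n := 4) ![0, 3]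
  · rintro x y ⟨b, h1, h2, _⟩
    obtain ⟨h3, h4⟩ := (h1 y).1 h2
    obtain ⟨f, hf, hf'⟩ := (hD' _).1 h3
    rw [hf', rlD_rz] at h4
    exact ⟨f, hf, hf', h4⟩
  · rintro x y y' ⟨b, h1, h2, h3⟩ ⟨b', h1', h2', h3'⟩
    have hbb : b = b' := Subtype.ext (hN.ext' b.2 b'.2 fun z => (h1 z).trans (h1' z).symm)
    subst hbb
    have hb0 : b.1 ≠ ∅ := by
      intro h
      rw [h] at h2
      exact ZFSet.notMem_empty _ h2
    obtain ⟨w, hw, hw1, hw2⟩ := hC' b.1 (hbp x b h1) hb0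
    exact Subtype.ext ((hw2 _ h2 h3).trans (hw2 _ h2' h3').symm)
  · rintro x ⟨f, hf, hxf⟩
    obtain ⟨b, hb, hb'⟩ := hN.exists_sep (P := fun z => P x (rlD z.1))
      (hP.substG (t := ![fun _ => x, fun v : Fin 1 → N => v 0]) (fun i => by
        fin_cases i
        · exact DT.const _
        · exact DT.var _)) hD
    have h1 : ∀ z : N, z.1 ∈ b ↔ z.1 ∈ D ∧ P x (rlD z.1) := fun z => by
      rw [hb']
      exact ⟨fun ⟨h1, _, h2⟩ => ⟨h1, h2⟩, fun ⟨h1, h2⟩ => ⟨h1, z.2, h2⟩⟩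
    have hb0 : b ≠ ∅ := by
      intro h
      have h2 := (h1 ⟨rz f, hf⟩).2 ⟨(hD' _).2 ⟨f, hf, rfl⟩, by rwa [rlD_rz]⟩
      rw [h] at h2
      exact ZFSet.notMem_empty _ h2
    obtain ⟨y, hy, hy1, _⟩ := hC' b (hbp x ⟨b, hb⟩ h1) hb0
    exact ⟨⟨y, hN.mem_of_mem hb hy⟩, ⟨b, hb⟩, h1, hy, hy1⟩

/-- Countable choice for reals. -/
theorem exists_choiceR (hN : CTM N) {P : ℕ → (ℕ → ℕ) → Prop}
    (hP : hN.Dfn (fun v : Fin 2 → N => P (natD (v 0).1) (rlD (v 1).1)))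
    (h : ∀ n, ∃ x ∈ Rl N, P n x) : ∃ X ∈ Rl N, ∀ n, P n (fun k => X (Nat.pair n k)) := by
  obtain ⟨S, hS, hS1, hS2, hS3⟩ := hN.exists_choice_term (P := fun x f => P (natD x.1) f) hP
  have hex : ∀ n : ℕ, ∃ y : N, S ⟨natZ n, hN.natZ_mem_N n⟩ y := fun n => hS3 _ (by
    rw [natD_natZ]; exact h n)
  choose y hy using hex
  let X : ℕ → ℕ := fun m => rlD (y m.unpair.1).1 m.unpair.2
  have hX : X ∈ Rl N := by
    refine mem_Rl' hN (DR.mk (DN.of (P := fun v k => ∃ z : N, S ⟨natZ (natD (v 0).1).unpair.1,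
      hN.natZ_mem_N _⟩ z ∧ rlD z.1 (natD (v 0).1).unpair.2 = k) ?_ fun v k => ?_))
    · refine Dfn.ex (P := fun v z => S ⟨natZ (natD (v 0).1).unpair.1,
        hN.natZ_mem_N _⟩ z ∧ rlD z.1 (natD (v 0).1).unpair.2 = natD (v 1).1) (Dfn.and ?_ ?_)
      · refine (Dfn.ex (P := fun v w => w.1 = natZ (natD (v 0).1).unpair.1 ∧ S w (v 2)) (Dfn.and
          (Dfn.eqNatZ (DT.var _) (DN.unpair1 (DN.var _))) (hS.reidx (n := 4) ![3, 2]))).congr fun v => ?_
        constructor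
        · rintro ⟨w, h1, h2⟩
          have : w = ⟨natZ (natD (v 0).1).unpair.1, hN.natZ_mem_N _⟩ := Subtype.ext h1
          rw [this] at h2; exact h2
        · intro h1; exact ⟨_, rfl, h1⟩
      · exact Dfn.eqN (DN.app (DR.var _) (DN.unpair2 (DN.var _))) (DN.var _)
    · constructor
      · rintro ⟨z, h1, h2⟩
        rw [← h2, hS2 _ _ _ h1 (hy _)]
        rfl
      · intro h1
        exact ⟨_, hy _, h1⟩
  refine ⟨X, hX, fun n => ?_⟩
  obtain ⟨f, hf, h1, h2⟩ := hS1 _ _ (hy n)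
  have h3 : (fun k => X (Nat.pair n k)) = f := by
    funext k
    show rlD (y (Nat.pair n k).unpair.1).1 (Nat.pair n k).unpair.2 = _
    rw [Nat.unpair_pair]
    show rlD (y n).1 k = _
    rw [h1, rlD_rz]
  rw [h3]
  simpa using h2

/-- Dependent choice for reals. -/
theorem exists_dcR (hN : CTM N) {Q : (ℕ → ℕ) → Prop} {P : (ℕ → ℕ) → (ℕ → ℕ) → Prop}
    (hQ : hN.Dfn (fun v : Fin 1 → N => Q (rlD (v 0).1)))
    (hP : hN.Dfn (fun v : Fin 2 → N => P (rlD (v 0).1) (rlD (v 1).1)))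
    (h : ∀ x ∈ Rl N, Q x → ∃ y ∈ Rl N, Q y ∧ P x y) {x : ℕ → ℕ} (hx : x ∈ Rl N) (hQx : Q x) :
    ∃ X ∈ Rl N, (fun k => X (Nat.pair 0 k)) = x ∧ (∀ n, Q (fun k => X (Nat.pair n k))) ∧
      ∀ n, P (fun k => X (Nat.pair n k)) (fun k => X (Nat.pair (n + 1) k)) := by
  obtain ⟨D, hD, hD'⟩ := hN.exists_reals
  obtain ⟨S, hS, hS1, hS2, hS3⟩ := hN.exists_choice_term (P := fun x f => Q f ∧ P (rlD x.1) f)
    (Dfn.and (hQ.reidx (n := 2) ![1]) hP)
  obtain ⟨D1, hD1, hD1'⟩ := hN.exists_sep (P := fun z => Q (rlD z.1)) hQ hD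
  have hmem : ∀ z : N, z.1 ∈ D1 ↔ ∃ f ∈ Rl N, z.1 = rz f ∧ Q f := by
    intro z
    rw [hD1', hD']
    constructor
    · rintro ⟨⟨f, hf, h1⟩, _, h2⟩
      exact ⟨f, hf, h1, by rwa [h1, rlD_rz] at h2⟩
    · rintro ⟨f, hf, h1, h2⟩
      exact ⟨⟨f, hf, h1⟩, z.2, by rwa [h1, rlD_rz]⟩
  obtain ⟨g, g0, gD, gS, gN⟩ := hN.exists_omega_rec hS hD1 (by
    intro z hz
    obtain ⟨f, hf, h1, h2⟩ := (hmem z).1 hz
    obtain ⟨f', hf', h3, h4⟩ := h f hf h2
    obtain ⟨y, hy⟩ := hS3 z ⟨f', hf', h3, by rw [h1, rlD_rz]; exact h4⟩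
    obtain ⟨f'', hf'', h5, h6, _⟩ := hS1 _ _ hy
    exact ⟨y, (hmem y).2 ⟨f'', hf'', h5, h6⟩, hy⟩) (fun z y y' _ _ _ h1 h2 => hS2 _ _ _ h1 h2)
    ⟨rz x, hx⟩ ((hmem _).2 ⟨x, hx, rfl, hQx⟩)
  let X : ℕ → ℕ := fun m => rlD (g m.unpair.1).1 m.unpair.2
  have hXg : ∀ n, (fun k => X (Nat.pair n k)) = rlD (g n).1 := by
    intro n
    funext k
    show rlD (g (Nat.pair n k).unpair.1).1 (Nat.pair n k).unpair.2 = _
    rw [Nat.unpair_pair]
  have hX : X ∈ Rl N := by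
    refine mem_Rl' hN (DR.mk (DN.of (P := fun v k => ∃ w : N, w.1 = natZ (natD (v 0).1).unpair.1 ∧
      ∃ z : N, ZFSet.pair w.1 z.1 ∈ seqZ (fun n => (g n).1) ∧ rlD z.1 (natD (v 0).1).unpair.2 = k) ?_
      fun v k => ?_))
    · refine Dfn.ex (P := fun v w => w.1 = natZ (natD (v 0).1).unpair.1 ∧
        ∃ z : N, ZFSet.pair w.1 z.1 ∈ seqZ (fun n => (g n).1) ∧
          rlD z.1 (natD (v 0).1).unpair.2 = natD (v 1).1) (Dfn.and
          (Dfn.eqNatZ (DT.var _) (DN.unpair1 (DN.var _))) ?_)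
      exact Dfn.ex (P := fun v z => ZFSet.pair (v 2).1 z.1 ∈ seqZ (fun n => (g n).1) ∧
          rlD z.1 (natD (v 0).1).unpair.2 = natD (v 1).1) (Dfn.and
          (Dfn.pairMem (DT.var _) (DT.var _) (DT.const ⟨_, gN⟩))
          (Dfn.eqN (DN.app (DR.var _) (DN.unpair2 (DN.var _))) (DN.var _)))
    · constructor
      · rintro ⟨w, h1, z, h2, h3⟩
        rw [h1, pair_mem_seqZ] at h2
        rw [← h3, h2]
        rfl
      · intro h1
        exact ⟨⟨_, hN.natZ_mem_N _⟩, rfl, g _, pair_mem_seqZ.2 rfl, h1⟩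
  refine ⟨X, hX, ?_, fun n => ?_, fun n => ?_⟩
  · rw [hXg, g0, rlD_rz]
  · obtain ⟨f, _, h1, h2⟩ := (hmem _).1 (gD n)
    rw [hXg, h1, rlD_rz]; exact h2
  · obtain ⟨f, _, h1, h2, h3⟩ := hS1 _ _ (gS n)
    rw [hXg, hXg, h1, rlD_rz]; exact h3

end CTM

end Pool.Agent.H17.Omega
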