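import Pool.Agent.H17.GP.RlB

/-!
# Reals of a countable transitive model: `Σ¹₁` correctness with a parameter, comprehension and choice for `Σ¹₂`
-/

set_option autoImplicit false
set_option linter.unusedVariables false
set_option linter.unusedSectionVars false

universe u v w

namespace Pool.Agent.H17.Omega

open Pool.Agent.H17.GP

namespace CTM

variable {N : Set ZFSet.{u}} (hN : CTM N)

include hN

/-- Closure of the reals of a model under composition. -/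
theorem comp_mem {x y : ℕ → ℕ} (hx : x ∈ Rl N) (hy : y ∈ Rl N) : (fun n => x (y n)) ∈ Rl N :=
  mem_Rl' hN (DR.mk (DN.app (DR.const hx) (DN.app (DR.const hy) (DN.var _))))

theorem ini_mem {x : ℕ → ℕ} (hx : x ∈ Rl N) : (fun n => ini x n) ∈ Rl N :=
  mem_Rl' hN (DR.mk (DN.ini (DR.const hx) (DN.var _)))

theorem pair_mem_Rl {x y : ℕ → ℕ} (hx : x ∈ Rl N) (hy : y ∈ Rl N) :
    (fun n => Nat.pair (x n) (y n)) ∈ Rl N :=
  mem_Rl' hN (DR.mk (DN.pair (DN.app (DR.const hx) (DN.var _)) (DN.app (DR.const hy) (DN.var _))))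

theorem primrec_mem {F : ℕ → ℕ} (hF : Primrec F) : F ∈ Rl N :=
  mem_Rl' hN (DR.mk (DN.primrec hF (DN.var _)))

theorem row_mem {x : ℕ → ℕ} (hx : x ∈ Rl N) (n : ℕ) : (fun k => x (Nat.pair n k)) ∈ Rl N :=
  mem_Rl' hN (DR.mk (DN.app (DR.const hx) (DN.pair (DN.const n) (DN.var _))))

/-- `Σ¹₁` correctness with a real parameter. -/
theorem exists_br2 {a x : ℕ → ℕ} (ha : a ∈ Rl N) (hx : x ∈ Rl N) {q : ℕ → ℕ} (m : ℕ)
    (h : ∀ n, a (Nat.pair (ini x n) (ini q n)) ≠ 0) :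
    ∃ q' ∈ Rl N, (∀ i < m, q' i = q i) ∧ ∀ n, a (Nat.pair (ini x n) (ini q' n)) ≠ 0 := by
  have hb : (fun c => a (Nat.pair (ini x (lenN c)) c)) ∈ Rl N := mem_Rl' hN (DR.mk (DN.app (DR.const ha) (DN.pair
    (DN.ini (DR.const hx) (DN.primrec prim_lenN (DN.var _))) (DN.var _))))
  obtain ⟨q', h1, h2, h3⟩ := hN.exists_br hb (q := q) m (fun n => by
    show a (Nat.pair (ini x (lenN (ini q n))) (ini q n)) ≠ 0
    rw [lenN_ini]; exact h n)
  refine ⟨q', h1, h2, fun n => ?_⟩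
  have h4 := h3 n
  simp only [lenN_ini] at h4
  exact h4

/-- `SC1`. -/
theorem sc1 {a x : ℕ → ℕ} (ha : a ∈ Rl N) (hx : x ∈ Rl N)
    (h : ∃ q : ℕ → ℕ, ∀ n, a (Nat.pair (ini x n) (ini q n)) ≠ 0) :
    ∃ q ∈ Rl N, ∀ n, a (Nat.pair (ini x n) (ini q n)) ≠ 0 := by
  obtain ⟨q, hq⟩ := h
  obtain ⟨q', h1, _, h3⟩ := hN.exists_br2 ha hx 0 hq
  exact ⟨q', h1, h3⟩

/-- Comprehension and choice for `Σ¹₂` statements about numbers. -/
theorem cc {e : ℕ → ℕ} (he : e ∈ Rl N) : ∃ E ∈ Rl N, ∃ Q ∈ Rl N,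
    (∀ n, E n = 0 ↔ ∃ q ∈ Rl N, ∀ w ∈ Rl N, ∃ k, e (Nat.pair n (Nat.pair (ini q k) (ini w k))) = 0) ∧
    ∀ n, E n = 0 → ∀ w ∈ Rl N, ∃ k,
      e (Nat.pair n (Nat.pair (ini (fun i => Q (Nat.pair n i)) k) (ini w k))) = 0 := by
  classical
  -- the matrix
  have hP : hN.Dfn (fun v : Fin 2 → N => ∀ w ∈ Rl N, ∃ k,
      e (Nat.pair (natD (v 0).1) (Nat.pair (ini (rlD (v 1).1) k) (ini w k))) = 0) := by
    refine Dfn.allR (P := fun v w => ∃ k,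
      e (Nat.pair (natD (v 0).1) (Nat.pair (ini (rlD (v 1).1) k) (ini w k))) = 0) ?_
    refine Dfn.exN (P := fun v k => e (Nat.pair (natD (v 0).1) (Nat.pair (ini (rlD (v 1).1) k)
      (ini (rlD (v 2).1) k))) = 0) ?_
    exact Dfn.eqN (DN.app (DR.const he) (DN.pair (DN.var _) (DN.pair (DN.ini (DR.var _) (DN.var _))
      (DN.ini (DR.var _) (DN.var _))))) (DN.const 0)
  have hE : hN.Dfn (fun v : Fin 1 → N => ∃ q ∈ Rl N, ∀ w ∈ Rl N, ∃ k,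
      e (Nat.pair (natD (v 0).1) (Nat.pair (ini q k) (ini w k))) = 0) :=
    Dfn.exR (P := fun v q => ∀ w ∈ Rl N, ∃ k,
      e (Nat.pair (natD (v 0).1) (Nat.pair (ini q k) (ini w k))) = 0) hP
  let E : ℕ → ℕ := fun n => if ∃ q ∈ Rl N, ∀ w ∈ Rl N, ∃ k,
    e (Nat.pair n (Nat.pair (ini q k) (ini w k))) = 0 then 0 else 1
  have hEN : E ∈ Rl N := mem_Rl' hN (DR.mk (DN.ite hE (DN.const 0) (DN.const 1)))
  have hE0 : ∀ n, E n = 0 ↔ ∃ q ∈ Rl N, ∀ w ∈ Rl N, ∃ k,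
      e (Nat.pair n (Nat.pair (ini q k) (ini w k))) = 0 := by
    intro n
    simp only [E]
    split_ifs with h
    · simp only [h]
    · simp [h]
  have h0 : (fun _ : ℕ => (0 : ℕ)) ∈ Rl N := hN.primrec_mem (Primrec.const 0)
  obtain ⟨Q, hQ, hQ'⟩ := hN.exists_choiceR (P := fun n q => E n = 0 → ∀ w ∈ Rl N, ∃ k,
      e (Nat.pair n (Nat.pair (ini q k) (ini w k))) = 0)
    (Dfn.imp (Dfn.eqN (DN.app (DR.const hEN) (DN.var _)) (DN.const 0)) hP) (by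
      intro n
      by_cases h : E n = 0
      · obtain ⟨q, hq, h1⟩ := (hE0 n).1 h
        exact ⟨q, hq, fun _ => h1⟩
      · exact ⟨_, h0, fun h' => (h h').elim⟩)
  exact ⟨E, hEN, Q, hQ, hE0, hQ'⟩

end CTM

end Pool.Agent.H17.Omega
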