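import Pool.Agent.H17.GP.RlC

/-!
# Codes of open sets in a countable transitive model
-/

set_option autoImplicit false
set_option linter.unusedVariables false
set_option linter.unusedSectionVars false

universe u v w

namespace Pool.Agent.H17.Omega

open Pool.Agent.H17.GP

namespace CTM

variable {N : Set ZFSet.{u}} {hN : CTM N}

theorem DN.liftN {n : ℕ} {s : (Fin n → N) → ℕ} (h : hN.DN s) (m : ℕ) :
    hN.DN (fun v : Fin (n + m) → N => s (fun i => v (Fin.castAdd m i))) := h.reidx (Fin.castAdd m)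

theorem DR.liftN {n : ℕ} {s : (Fin n → N) → ℕ → ℕ} (h : hN.DR s) (m : ℕ) :
    hN.DR (fun v : Fin (n + m) → N => s (fun i => v (Fin.castAdd m i))) := h.reidx (Fin.castAdd m)

/-- Simultaneous substitution of number terms. -/
theorem Dfn.substN {m n : ℕ} {P : (Fin m → ℕ) → Prop}
    (h : hN.Dfn (fun v : Fin m → N => P (fun i => natD (v i).1))) {s : Fin m → (Fin n → N) → ℕ}
    (hs : ∀ i, hN.DN (s i)) : hN.Dfn (fun v => P (fun i => s i v)) := by
  have h1 : hN.Dfn (fun v : Fin (n + m) → N =>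
      (∀ i : Fin m, (v (Fin.natAdd n i)).1 = natZ (s i (fun j => v (Fin.castAdd m j)))) ∧
        P (fun i => natD (v (Fin.natAdd n i)).1)) :=
    (Dfn.allFinite m fun i => Dfn.eqNatZ (DT.var _) ((hs i).liftN m)).and (h.shift n)
  refine (Dfn.exFin m h1).congr fun v => ?_
  constructor
  · rintro ⟨w, h2, h3⟩
    simp only [Fin.append_left, Fin.append_right] at h2 h3
    have : (fun i => s i v) = fun i => natD (w i).1 := funext fun i => by rw [h2, natD_natZ]
    rw [this]; exact h3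
  · intro h2
    refine ⟨fun i => ⟨natZ (s i v), hN.natZ_mem_N _⟩, ?_, ?_⟩
    · intro i; simp only [Fin.append_left, Fin.append_right]
    · simp only [Fin.append_right, natD_natZ]; exact h2

/-- Simultaneous substitution of real terms. -/
theorem Dfn.substR {m n : ℕ} {P : (Fin m → ℕ → ℕ) → Prop}
    (h : hN.Dfn (fun v : Fin m → N => P (fun i => rlD (v i).1))) {f : Fin m → (Fin n → N) → ℕ → ℕ}
    (hf : ∀ i, hN.DR (f i)) : hN.Dfn (fun v => P (fun i => f i v)) := by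
  have h1 : hN.Dfn (fun v : Fin (n + m) → N =>
      (∀ i : Fin m, (v (Fin.natAdd n i)).1 = rz (f i (fun j => v (Fin.castAdd m j)))) ∧
        P (fun i => rlD (v (Fin.natAdd n i)).1)) :=
    (Dfn.allFinite m fun i => Dfn.eqRz (DT.var _) ((hf i).liftN m)).and (h.shift n)
  refine (Dfn.exFin m h1).congr fun v => ?_
  constructor
  · rintro ⟨w, h2, h3⟩
    simp only [Fin.append_left, Fin.append_right] at h2 h3
    have : (fun i => f i v) = fun i => rlD (w i).1 := funext fun i => by rw [h2, rlD_rz]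
    rw [this]; exact h3
  · intro h2
    refine ⟨fun i => ⟨rz (f i v), mem_Rl (hf i) v⟩, ?_, ?_⟩
    · intro i; simp only [Fin.append_left, Fin.append_right]
    · simp only [Fin.append_right, rlD_rz]; exact h2

theorem DN.getN {n : ℕ} {s t : (Fin n → N) → ℕ} (hs : hN.DN s) (ht : hN.DN t) :
    hN.DN (fun v => Pool.Agent.H17.GP.getN (s v) (t v)) := DN.primrec₂ prim_getN hs ht

theorem DN.lenN {n : ℕ} {s : (Fin n → N) → ℕ} (hs : hN.DN s) :
    hN.DN (fun v => Pool.Agent.H17.GP.lenN (s v)) := DN.primrec prim_lenN hs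

theorem DN.takeN {n : ℕ} {s t : (Fin n → N) → ℕ} (hs : hN.DN s) (ht : hN.DN t) :
    hN.DN (fun v => Pool.Agent.H17.GP.takeN (s v) (t v)) := DN.primrec₂ prim_takeN hs ht

theorem DN.snocN {n : ℕ} {s t : (Fin n → N) → ℕ} (hs : hN.DN s) (ht : hN.DN t) :
    hN.DN (fun v => Pool.Agent.H17.GP.snocN (s v) (t v)) := DN.primrec₂ prim_snocN hs ht

theorem DN.sub' {n : ℕ} {s t : (Fin n → N) → ℕ} (hs : hN.DN s) (ht : hN.DN t) :
    hN.DN (fun v => s v - t v) := DN.primrec₂ Primrec.nat_sub hs ht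

theorem DN.div {n : ℕ} {s t : (Fin n → N) → ℕ} (hs : hN.DN s) (ht : hN.DN t) :
    hN.DN (fun v => s v / t v) := DN.primrec₂ Primrec.nat_div hs ht

theorem DN.pow {n : ℕ} {s t : (Fin n → N) → ℕ} (hs : hN.DN s) (ht : hN.DN t) :
    hN.DN (fun v => s v ^ t v) := by
  refine (DN.rec (g := fun v k y => y * s v) (DN.const 1) (DN.mul (DN.var _) hs.lift.lift) ht).congr
    fun v => ?_
  generalize t v = k
  induction k with
  | zero => rfl
  | succ k ih => rw [pow_succ, ← ih]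

/-- Restricted quantifiers. -/
theorem Dfn.exLe {n : ℕ} {P : (Fin n → N) → ℕ → Prop} {s : (Fin n → N) → ℕ} (hs : hN.DN s)
    (h : hN.Dfn (fun v : Fin (n + 1) → N => P (fun i => v i.castSucc) (natD (v (Fin.last n)).1))) :
    hN.Dfn (fun v => ∃ k ≤ s v, P v k) :=
  Dfn.exN (P := fun v k => k ≤ s v ∧ P v k) ((Dfn.leN (DN.var _) hs.lift).and h)

theorem Dfn.allLt {n : ℕ} {P : (Fin n → N) → ℕ → Prop} {s : (Fin n → N) → ℕ} (hs : hN.DN s)
    (h : hN.Dfn (fun v : Fin (n + 1) → N => P (fun i => v i.castSucc) (natD (v (Fin.last n)).1))) :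
    hN.Dfn (fun v => ∀ k < s v, P v k) :=
  Dfn.allN (P := fun v k => k < s v → P v k) ((Dfn.ltN (DN.var _) hs.lift).imp h)

/-- The code of a definable open set. -/
theorem exists_opn {P : ℕ → ℕ → ℕ → ℕ → Prop}
    (hP : hN.Dfn (fun v : Fin 4 → N => P (natD (v 0).1) (natD (v 1).1) (natD (v 2).1) (natD (v 3).1))) :
    ∃ c ∈ Rl N, ∀ x y z w, Opn c x y z w ↔ ∃ n, P (ini x n) (ini y n) (ini z n) (ini w n) := by
  classical
  let c : ℕ → ℕ := fun t => if P t.unpair.1.unpair.1 t.unpair.1.unpair.2 t.unpair.2.unpair.1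
    t.unpair.2.unpair.2 then 0 else 1
  have hc : hN.Dfn (fun v : Fin 1 → N => P (natD (v 0).1).unpair.1.unpair.1
      (natD (v 0).1).unpair.1.unpair.2 (natD (v 0).1).unpair.2.unpair.1
      (natD (v 0).1).unpair.2.unpair.2) := by
    refine Dfn.substN (P := fun w => P (w 0) (w 1) (w 2) (w 3)) (s := ![
      fun v => (natD (v 0).1).unpair.1.unpair.1, fun v => (natD (v 0).1).unpair.1.unpair.2,
      fun v => (natD (v 0).1).unpair.2.unpair.1, fun v => (natD (v 0).1).unpair.2.unpair.2]) hP ?_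
    intro i
    fin_cases i
    · exact DN.unpair1 (DN.unpair1 (DN.var _))
    · exact DN.unpair2 (DN.unpair1 (DN.var _))
    · exact DN.unpair1 (DN.unpair2 (DN.var _))
    · exact DN.unpair2 (DN.unpair2 (DN.var _))
  refine ⟨c, mem_Rl' hN (DR.mk (DN.ite hc (DN.const 0) (DN.const 1))), fun x y z w => ?_⟩
  refine exists_congr fun n => ?_
  simp only [c, Nat.unpair_pair]
  split_ifs with h
  · simp [h]
  · simp [h]

/-- Conjunction of open sets. -/
theorem exists_opn_and (hN : CTM N) {c d : ℕ → ℕ} (hc : c ∈ Rl N) (hd : d ∈ Rl N) :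
    ∃ e ∈ Rl N, ∀ x y z w, Opn e x y z w ↔ Opn c x y z w ∧ Opn d x y z w := by
  have h1 : ∀ c ∈ Rl N, hN.Dfn (fun v : Fin 5 → N => c (Nat.pair
      (Nat.pair (takeN (natD (v 0).1) (natD (v 4).1)) (takeN (natD (v 1).1) (natD (v 4).1)))
      (Nat.pair (takeN (natD (v 2).1) (natD (v 4).1)) (takeN (natD (v 3).1) (natD (v 4).1)))) = 0) :=
    fun c hc => Dfn.eqN (DN.app (DR.const hc) (DN.pair (DN.pair (DN.takeN (DN.var _) (DN.var _))
      (DN.takeN (DN.var _) (DN.var _))) (DN.pair (DN.takeN (DN.var _) (DN.var _))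
      (DN.takeN (DN.var _) (DN.var _))))) (DN.const 0)
  obtain ⟨e, he, h⟩ := exists_opn (hN := hN) (P := fun s t u v =>
    (∃ n ≤ lenN s, c (Nat.pair (Nat.pair (takeN s n) (takeN t n)) (Nat.pair (takeN u n) (takeN v n))) = 0) ∧
    (∃ n ≤ lenN s, d (Nat.pair (Nat.pair (takeN s n) (takeN t n)) (Nat.pair (takeN u n) (takeN v n))) = 0))
    (Dfn.and (Dfn.exLe (DN.lenN (DN.var _)) (h1 c hc)) (Dfn.exLe (DN.lenN (DN.var _)) (h1 d hd)))
  refine ⟨e, he, fun x y z w => ?_⟩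
  rw [h]
  constructor
  · rintro ⟨n, ⟨m, hm, h2⟩, ⟨k, hk, h3⟩⟩
    rw [lenN_ini] at hm hk
    rw [takeN_ini hm, takeN_ini hm, takeN_ini hm, takeN_ini hm] at h2
    rw [takeN_ini hk, takeN_ini hk, takeN_ini hk, takeN_ini hk] at h3
    exact ⟨⟨m, h2⟩, ⟨k, h3⟩⟩
  · rintro ⟨⟨m, h2⟩, ⟨k, h3⟩⟩
    have hm : m ≤ max m k := le_max_left _ _
    have hk : k ≤ max m k := le_max_right _ _
    refine ⟨max m k, ⟨m, by rwa [lenN_ini], ?_⟩, ⟨k, by rwa [lenN_ini], ?_⟩⟩
    · rw [takeN_ini hm, takeN_ini hm, takeN_ini hm, takeN_ini hm]; exact h2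
    · rw [takeN_ini hk, takeN_ini hk, takeN_ini hk, takeN_ini hk]; exact h3

theorem const_mem_Rl (hN : CTM N) (k : ℕ) : (fun _ : ℕ => k) ∈ Rl N := hN.primrec_mem (Primrec.const k)

end CTM

end Pool.Agent.H17.Omega
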